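import Mathlib

/-!
# Sums of exponentials for the cusp with irrational exponent

For pairs `q = (i, j)` let `rate σ q = i + σ j`. For a finite set `S` of pairs containing `(1, 0)`
with pairwise different rates there are coefficients `w` such that
`F τ = 1 - ∑ q ∈ S, w q * exp (- rate q * τ)` is small for `τ ≥ 0` not too large, lies between `0`
and `1 - exp (-τ)` for `τ ≥ 0`, and does not grow too fast for `τ ≤ 0`. (`F` is the distribution
function of a sum of independent exponential variables.)
-/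

set_option autoImplicit false

namespace Pool.Agent.R257.Cusp

open Finset Real

/-- The exponent of `x ^ i * (x ^ σ) ^ j`. -/
def rate (σ : ℝ) (q : ℕ × ℕ) : ℝ := q.1 + σ * q.2

/-- The sum of exponentials attached to the coefficients `w`. -/
noncomputable def F (σ : ℝ) (S : Finset (ℕ × ℕ)) (w : ℕ × ℕ → ℝ) (τ : ℝ) : ℝ :=
  1 - ∑ q ∈ S, w q * exp (-(rate σ q) * τ)

lemma rate_inj {σ : ℝ} (hσ : Irrational σ) {q q' : ℕ × ℕ} (h : rate σ q = rate σ q') : q = q' := by
  unfold rate at h
  by_cases hj : q.2 = q'.2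
  · rw [hj] at h
    have : (q.1 : ℝ) = q'.1 := by linarith
    have h1 : q.1 = q'.1 := by exact_mod_cast this
    exact Prod.ext h1 hj
  · exfalso
    have hne : ((q.2 : ℤ) - q'.2 : ℤ) ≠ 0 := by
      intro h0
      apply hj
      omega
    have h2 : σ * ((q.2 : ℤ) - q'.2 : ℤ) = ((q'.1 : ℤ) - q.1 : ℤ) := by
      push_cast
      linarith
    exact (hσ.mul_intCast hne).ne_int _ h2

lemma continuous_F (σ : ℝ) (S : Finset (ℕ × ℕ)) (w : ℕ × ℕ → ℝ) : Continuous (F σ S w) := by
  unfold F
  fun_prop

lemma hasDerivAt_F (σ : ℝ) (S : Finset (ℕ × ℕ)) (w : ℕ × ℕ → ℝ) (τ : ℝ) :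
    HasDerivAt (F σ S w) (∑ q ∈ S, w q * rate σ q * exp (-(rate σ q) * τ)) τ := by
  unfold F
  have h : HasDerivAt (fun τ => ∑ q ∈ S, w q * exp (-(rate σ q) * τ))
      (∑ q ∈ S, w q * (exp (-(rate σ q) * τ) * (-(rate σ q)))) τ := by
    apply HasDerivAt.fun_sum
    intro q _
    apply HasDerivAt.const_mul
    have := ((hasDerivAt_id τ).const_mul (-(rate σ q))).exp
    simpa using this
  have h2 := h.const_sub 1
  refine h2.congr_deriv ?_
  rw [← Finset.sum_neg_distrib]
  apply Finset.sum_congr rfl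
  intro q _
  ring

/-- The new coefficients after adding the pair `a`. -/
noncomputable def stepW (σ : ℝ) (S : Finset (ℕ × ℕ)) (w : ℕ × ℕ → ℝ) (a : ℕ × ℕ) : ℕ × ℕ → ℝ :=
  fun q => if q = a then 1 - ∑ q ∈ S, w q * (rate σ a / (rate σ a - rate σ q))
    else w q * (rate σ a / (rate σ a - rate σ q))

lemma F_step (σ : ℝ) (S : Finset (ℕ × ℕ)) (w : ℕ × ℕ → ℝ) (a : ℕ × ℕ) (ha : a ∉ S) (τ : ℝ) :
    F σ (insert a S) (stepW σ S w a) τ =
      1 - ∑ q ∈ S, w q * (rate σ a / (rate σ a - rate σ q)) * exp (-(rate σ q) * τ)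
        - (1 - ∑ q ∈ S, w q * (rate σ a / (rate σ a - rate σ q))) * exp (-(rate σ a) * τ) := by
  unfold F
  rw [Finset.sum_insert ha]
  have h1 : ∑ q ∈ S, stepW σ S w a q * exp (-(rate σ q) * τ) =
      ∑ q ∈ S, w q * (rate σ a / (rate σ a - rate σ q)) * exp (-(rate σ q) * τ) := by
    apply Finset.sum_congr rfl
    intro q hq
    have hqa : q ≠ a := fun h => ha (h ▸ hq)
    simp [stepW, hqa]
  rw [h1]
  simp only [stepW, if_true]
  ring

lemma F_step_zero (σ : ℝ) (S : Finset (ℕ × ℕ)) (w : ℕ × ℕ → ℝ) (a : ℕ × ℕ) (ha : a ∉ S) :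
    F σ (insert a S) (stepW σ S w a) 0 = 0 := by
  rw [F_step σ S w a ha]
  simp

/-- The differential equation `G' = μ (F - G)`. -/
lemma F_step_deriv (σ : ℝ) (S : Finset (ℕ × ℕ)) (w : ℕ × ℕ → ℝ) (a : ℕ × ℕ) (ha : a ∉ S)
    (hne : ∀ q ∈ S, rate σ a - rate σ q ≠ 0) (τ : ℝ) :
    HasDerivAt (F σ (insert a S) (stepW σ S w a))
      (rate σ a * (F σ S w τ - F σ (insert a S) (stepW σ S w a) τ)) τ := by
  refine (hasDerivAt_F σ (insert a S) (stepW σ S w a) τ).congr_deriv ?_
  rw [F_step σ S w a ha, Finset.sum_insert ha]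
  have h1 : ∑ q ∈ S, stepW σ S w a q * rate σ q * exp (-(rate σ q) * τ) =
      ∑ q ∈ S, (w q * (rate σ a / (rate σ a - rate σ q)) * rate σ a * exp (-(rate σ q) * τ)
        - rate σ a * (w q * exp (-(rate σ q) * τ))) := by
    apply Finset.sum_congr rfl
    intro q hq
    have hqa : q ≠ a := fun h => ha (h ▸ hq)
    have := hne q hq
    simp only [stepW, hqa, if_false]
    field_simp
    ring
  rw [h1, Finset.sum_sub_distrib, ← Finset.mul_sum]
  have h2 : ∑ q ∈ S, w q * (rate σ a / (rate σ a - rate σ q)) * rate σ a * exp (-(rate σ q) * τ) =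
      rate σ a * ∑ q ∈ S, w q * (rate σ a / (rate σ a - rate σ q)) * exp (-(rate σ q) * τ) := by
    rw [Finset.mul_sum]
    apply Finset.sum_congr rfl
    intro q _
    ring
  rw [h2]
  unfold F
  simp only [stepW, if_true]
  ring

/-- Comparison on the right: if `G' = μ (F - G)`, `F ≤ B` and `B' + ...`. -/
lemma compare_right {G F B B' : ℝ → ℝ} {μ : ℝ} (_hμ : 0 ≤ μ)
    (hG : ∀ τ, HasDerivAt G (μ * (F τ - G τ)) τ) (hB : ∀ τ, HasDerivAt B (B' τ) τ)
    (h0 : G 0 ≤ B 0) (hle : ∀ τ, 0 ≤ τ → μ * (F τ - B τ) ≤ B' τ) :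
    ∀ τ, 0 ≤ τ → G τ ≤ B τ := by
  intro τ hτ
  set D : ℝ → ℝ := fun s => exp (μ * s) * (B s - G s) with hD
  have hexp : ∀ s, HasDerivAt (fun s => exp (μ * s)) (exp (μ * s) * μ) s := by
    intro s
    have := ((hasDerivAt_id s).const_mul μ).exp
    simpa using this
  have hd : ∀ s, HasDerivAt D
      (exp (μ * s) * μ * (B s - G s) + exp (μ * s) * (B' s - μ * (F s - G s))) s := by
    intro s
    exact (hexp s).mul ((hB s).sub (hG s))
  have hmono : MonotoneOn D (Set.Ici 0) := by
    apply monotoneOn_of_deriv_nonneg (convex_Ici 0)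
    · exact fun s _ => (hd s).continuousAt.continuousWithinAt
    · exact fun s _ => (hd s).differentiableAt.differentiableWithinAt
    · intro s hs
      rw [interior_Ici] at hs
      rw [(hd s).deriv]
      have h1 := hle s (le_of_lt hs)
      have h2 : 0 < exp (μ * s) := exp_pos _
      have : exp (μ * s) * μ * (B s - G s) + exp (μ * s) * (B' s - μ * (F s - G s)) =
          exp (μ * s) * (B' s - μ * (F s - B s)) := by ring
      rw [this]
      apply mul_nonneg h2.le
      linarith
  have h1 := hmono (Set.mem_Ici.2 le_rfl) (Set.mem_Ici.2 hτ) hτ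
  have h2 : 0 ≤ D 0 := by
    simp only [hD]
    apply mul_nonneg (exp_pos _).le
    linarith
  have h3 : 0 ≤ D τ := h2.trans h1
  simp only [hD] at h3
  have h4 : 0 < exp (μ * τ) := exp_pos _
  have : 0 ≤ B τ - G τ := by
    by_contra hneg
    push Not at hneg
    nlinarith
  linarith

/-- Comparison on the left: if `G' = μ (F - G)`, then a bound on `|F|` for `τ ≤ 0` gives one for
`|G|`. -/
lemma compare_left {G F : ℝ → ℝ} {μ β : ℝ} (hμ : 0 ≤ μ) (hβ : 2 * μ ≤ β)
    (hG : ∀ τ, HasDerivAt G (μ * (F τ - G τ)) τ)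
    (h0 : G 0 = 0) (hle : ∀ τ, τ ≤ 0 → |F τ| ≤ exp (-(β * τ))) :
    ∀ τ, τ ≤ 0 → |G τ| ≤ exp (-(β * τ)) := by
  -- work with `s = -τ`
  have key : ∀ (G F : ℝ → ℝ), (∀ τ, HasDerivAt G (μ * (F τ - G τ)) τ) → G 0 = 0 →
      (∀ τ, τ ≤ 0 → |F τ| ≤ exp (-(β * τ))) → ∀ τ, τ ≤ 0 → G τ ≤ exp (-(β * τ)) := by
    intro G F hG h0 hle τ hτ
    set D : ℝ → ℝ := fun s => exp (μ * s) * (exp (-(β * s)) - G s) with hD
    have hexp : ∀ s, HasDerivAt (fun s => exp (μ * s)) (exp (μ * s) * μ) s := by
      intro s
      have := ((hasDerivAt_id s).const_mul μ).exp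
      simpa using this
    have hexp2 : ∀ s, HasDerivAt (fun s => exp (-(β * s))) (exp (-(β * s)) * (-β)) s := by
      intro s
      have := ((hasDerivAt_id s).const_mul β).neg.exp
      simpa using this
    have hd : ∀ s, HasDerivAt D
        (exp (μ * s) * μ * (exp (-(β * s)) - G s) +
          exp (μ * s) * (exp (-(β * s)) * (-β) - μ * (F s - G s))) s := by
      intro s
      exact (hexp s).mul ((hexp2 s).sub (hG s))
    have hanti : AntitoneOn D (Set.Iic 0) := by
      apply antitoneOn_of_deriv_nonpos (convex_Iic 0)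
      · exact fun s _ => (hd s).continuousAt.continuousWithinAt
      · exact fun s _ => (hd s).differentiableAt.differentiableWithinAt
      · intro s hs
        rw [interior_Iic] at hs
        rw [(hd s).deriv]
        have h1 := hle s (le_of_lt hs)
        have h2 : 0 < exp (μ * s) := exp_pos _
        have h3 : 0 < exp (-(β * s)) := exp_pos _
        have h4 := (abs_le.1 h1).1
        have : exp (μ * s) * μ * (exp (-(β * s)) - G s) +
          exp (μ * s) * (exp (-(β * s)) * (-β) - μ * (F s - G s)) =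
            exp (μ * s) * ((μ - β) * exp (-(β * s)) - μ * F s) := by ring
        rw [this]
        apply mul_nonpos_of_nonneg_of_nonpos h2.le
        nlinarith
    have h1 := hanti (Set.mem_Iic.2 hτ) (Set.mem_Iic.2 le_rfl) hτ
    have h2 : 0 ≤ D 0 := by
      simp only [hD]
      apply mul_nonneg (exp_pos _).le
      rw [h0]
      simp
    have h3 : 0 ≤ D τ := h2.trans h1
    simp only [hD] at h3
    have h4 : 0 < exp (μ * τ) := exp_pos _
    have : 0 ≤ exp (-(β * τ)) - G τ := by
      by_contra hneg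
      push Not at hneg
      nlinarith
    linarith
  intro τ hτ
  rw [abs_le]
  constructor
  · have h1 := key (fun τ => - G τ) (fun τ => - F τ) (by
      intro τ
      refine ((hG τ).neg).congr_deriv ?_
      ring) (by simp [h0]) (by
      intro τ hτ
      rw [abs_neg]
      exact hle τ hτ) τ hτ
    linarith
  · exact key G F hG h0 hle τ hτ

/-- The main existence statement for the building blocks. -/
theorem exists_w {σ : ℝ} (hσ : Irrational σ) (θ β : ℝ) (hθ : 0 ≤ θ)
    (S : Finset (ℕ × ℕ)) :
    ((1, 0) ∉ S) → (∀ q ∈ S, 1 < rate σ q) → (∀ q ∈ S, 2 * rate σ q ≤ β) → 2 ≤ β →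
    ∃ w : ℕ × ℕ → ℝ,
      1 ≤ w (1, 0) ∧
      (∀ τ, 0 ≤ τ → 0 ≤ F σ (insert (1, 0) S) w τ) ∧
      (∀ τ, 0 ≤ τ → F σ (insert (1, 0) S) w τ ≤ 1 - exp (-τ)) ∧
      (∀ τ, 0 ≤ τ → F σ (insert (1, 0) S) w τ ≤
        (∏ q ∈ insert (1, 0) S, rate σ q / (rate σ q + θ)) * exp (θ * τ)) ∧
      (∀ τ, τ ≤ 0 → |F σ (insert (1, 0) S) w τ| ≤ exp (-(β * τ))) := by
  induction S using Finset.induction_on with
  | empty =>
    intro _ _ _ hβ
    have hr : rate σ (1, 0) = 1 := by simp [rate]
    have hF : ∀ τ, F σ (insert (1, 0) ∅) (fun _ => 1) τ = 1 - exp (-τ) := by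
      intro τ
      simp [F, hr]
    have hder : ∀ τ, HasDerivAt (fun τ : ℝ => 1 - exp (-τ)) (1 * (1 - (1 - exp (-τ)))) τ := by
      intro τ
      have := ((hasDerivAt_id τ).neg.exp).const_sub 1
      simpa using this
    refine ⟨fun _ => 1, le_rfl, ?_, ?_, ?_, ?_⟩
    · intro τ hτ
      rw [hF]
      have : exp (-τ) ≤ 1 := by
        rw [exp_le_one_iff]
        linarith
      linarith
    · intro τ _
      rw [hF]
    · intro τ hτ
      rw [hF]
      have hp : (∏ q ∈ insert (1, 0) (∅ : Finset (ℕ × ℕ)), rate σ q / (rate σ q + θ)) =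
          1 / (1 + θ) := by
        simp [hr]
      rw [hp]
      refine compare_right (G := fun τ => 1 - exp (-τ)) (F := fun _ => 1)
        (B := fun τ => 1 / (1 + θ) * exp (θ * τ)) (B' := fun τ => 1 / (1 + θ) * (exp (θ * τ) * θ))
        (μ := 1) zero_le_one hder ?_ ?_ ?_ τ hτ
      · intro τ
        have := (((hasDerivAt_id τ).const_mul θ).exp).const_mul (1 / (1 + θ))
        simpa using this
      · simp
        positivity
      · intro τ hτ
        have h1 : 1 ≤ exp (θ * τ) := by
          apply one_le_exp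
          positivity
        have h2 : 0 < 1 + θ := by linarith
        have h3 : 1 * (1 - 1 / (1 + θ) * exp (θ * τ)) = 1 - exp (θ * τ) / (1 + θ) := by ring
        rw [h3]
        have h4 : 1 / (1 + θ) * (exp (θ * τ) * θ) = exp (θ * τ) * θ / (1 + θ) := by ring
        rw [h4, sub_le_iff_le_add, ← add_div, le_div_iff₀ h2]
        nlinarith
    · intro τ hτ
      rw [hF]
      refine compare_left (G := fun τ => 1 - exp (-τ)) (F := fun _ => 1) (μ := 1) (β := β)
        zero_le_one (by linarith) hder (by simp) ?_ τ hτ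
      intro τ hτ
      simp only [abs_one]
      apply one_le_exp
      nlinarith
  | insert a S haS ih =>
    intro hS h1 h2 hβ
    obtain ⟨w, hw1, hA0, hA1, hB, hC⟩ := ih (fun h => hS (Finset.mem_insert_of_mem h))
      (fun q hq => h1 q (Finset.mem_insert_of_mem hq))
      (fun q hq => h2 q (Finset.mem_insert_of_mem hq)) hβ
    set S' : Finset (ℕ × ℕ) := insert (1, 0) S with hS'
    have ha1 : a ≠ (1, 0) := fun h => hS (h ▸ Finset.mem_insert_self _ _)
    have haS' : a ∉ S' := by
      rw [hS', Finset.mem_insert]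
      rintro (h | h)
      · exact ha1 h
      · exact haS h
    have hins : insert (1, 0) (insert a S) = insert a S' := by
      rw [hS', Finset.insert_comm]
    have hμ1 : 1 < rate σ a := h1 a (Finset.mem_insert_self _ _)
    have hμβ : 2 * rate σ a ≤ β := h2 a (Finset.mem_insert_self _ _)
    have hμ0 : 0 ≤ rate σ a := by linarith
    have hne : ∀ q ∈ S', rate σ a - rate σ q ≠ 0 := by
      intro q hq h
      have : rate σ a = rate σ q := by linarith
      exact haS' (rate_inj hσ this ▸ hq)
    have hder := F_step_deriv σ S' w a haS' hne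
    have hzero := F_step_zero σ S' w a haS'
    refine ⟨stepW σ S' w a, ?_, ?_, ?_, ?_, ?_⟩
    · simp only [stepW, ha1.symm, if_false]
      have hr : rate σ (1, 0) = 1 := by simp [rate]
      rw [hr]
      have h3 : 1 ≤ rate σ a / (rate σ a - 1) := by
        rw [le_div_iff₀ (by linarith)]
        linarith
      nlinarith
    · intro τ hτ
      rw [hins]
      have := compare_right (G := fun τ => - F σ (insert a S') (stepW σ S' w a) τ)
        (F := fun τ => - F σ S' w τ) (B := fun _ => 0) (B' := fun _ => 0) (μ := rate σ a) hμ0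
        (by
          intro τ
          refine ((hder τ).neg).congr_deriv ?_
          ring) (fun τ => hasDerivAt_const τ 0) (by simp [hzero]) (by
          intro τ hτ
          have := hA0 τ hτ
          nlinarith) τ hτ
      linarith
    · intro τ hτ
      rw [hins]
      refine compare_right (F := F σ S' w) (B := fun τ => 1 - exp (-τ))
        (B' := fun τ => exp (-τ)) (μ := rate σ a) hμ0 hder ?_ ?_ ?_ τ hτ
      · intro τ
        have := ((hasDerivAt_id τ).neg.exp).const_sub 1
        simpa using this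
      · simp [hzero]
      · intro τ hτ
        have := hA1 τ hτ
        have h3 : 0 < exp (-τ) := exp_pos _
        nlinarith
    · intro τ hτ
      rw [hins, Finset.prod_insert haS']
      set pr := ∏ q ∈ S', rate σ q / (rate σ q + θ) with hpr
      have hpr0 : 0 ≤ pr := by
        apply Finset.prod_nonneg
        intro q hq
        have : 1 ≤ rate σ q := by
          rw [hS', Finset.mem_insert] at hq
          rcases hq with rfl | hq
          · simp [rate]
          · exact (h1 q (Finset.mem_insert_of_mem hq)).le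
        positivity
      refine compare_right (F := F σ S' w)
        (B := fun τ => rate σ a / (rate σ a + θ) * pr * exp (θ * τ))
        (B' := fun τ => rate σ a / (rate σ a + θ) * pr * (exp (θ * τ) * θ)) (μ := rate σ a) hμ0
        hder ?_ ?_ ?_ τ hτ
      · intro τ
        have := (((hasDerivAt_id τ).const_mul θ).exp).const_mul (rate σ a / (rate σ a + θ) * pr)
        simpa using this
      · rw [hzero]
        positivity
      · intro τ hτ
        have h3 := hB τ hτ
        have h4 : 0 < rate σ a + θ := by linarith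
        have h5 : rate σ a * (F σ S' w τ - rate σ a / (rate σ a + θ) * pr * exp (θ * τ)) ≤
            rate σ a * (pr * exp (θ * τ) - rate σ a / (rate σ a + θ) * pr * exp (θ * τ)) := by
          apply mul_le_mul_of_nonneg_left _ hμ0
          linarith
        refine h5.trans (le_of_eq ?_)
        field_simp
        ring
    · intro τ hτ
      rw [hins]
      exact compare_left (F := F σ S' w) (μ := rate σ a) (β := β) hμ0 hμβ hder hzero hC τ hτ

end Pool.Agent.R257.Cusp
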