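import Pool.Agent.R257.CuspR

/-!
# Markov's inequality fails on the cusp with irrational exponent: the main construction
-/

set_option autoImplicit false

namespace Pool.Agent.R257.Cusp

open Finset Real MvPolynomial

/-- The box of pairs `(i, j)` with `i, j ≤ m`, without `(0, 0)` and `(1, 0)`. -/
def box (m : ℕ) : Finset (ℕ × ℕ) :=
  (Finset.range (m + 1) ×ˢ Finset.range (m + 1)) \ {(0, 0), (1, 0)}

lemma box_not_mem (m : ℕ) : (1, 0) ∉ box m := by simp [box]

lemma box_zero (m : ℕ) : (0, 0) ∉ insert (1, 0) (box m) := by simp [box]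

lemma box_le {m : ℕ} (hm : 1 ≤ m) {q : ℕ × ℕ} (hq : q ∈ insert (1, 0) (box m)) :
    q.1 ≤ m ∧ q.2 ≤ m := by
  rw [Finset.mem_insert] at hq
  rcases hq with rfl | hq
  · exact ⟨hm, Nat.zero_le _⟩
  · simp only [box, Finset.mem_sdiff, Finset.mem_product, Finset.mem_range] at hq
    omega

lemma box_card (m : ℕ) : m ^ 2 ≤ (insert (1, 0) (box m)).card := by
  rw [Finset.card_insert_of_notMem (box_not_mem m)]
  unfold box
  have h1 := Finset.le_card_sdiff ({(0, 0), (1, 0)} : Finset (ℕ × ℕ))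
    (Finset.range (m + 1) ×ˢ Finset.range (m + 1))
  rw [Finset.card_product, Finset.card_range] at h1
  have h2 : ({(0, 0), (1, 0)} : Finset (ℕ × ℕ)).card ≤ 2 := Finset.card_le_two
  rcases Nat.eq_zero_or_pos m with rfl | hm
  · simp
  · have h3 : (m + 1) * (m + 1) = m ^ 2 + 2 * m + 1 := by ring
    rw [h3] at h1
    omega

lemma box_rate {σ : ℝ} (h1 : 1 < σ) {m : ℕ} {q : ℕ × ℕ} (hq : q ∈ box m) : 1 < rate σ q := by
  unfold rate
  simp only [box, Finset.mem_sdiff, Finset.mem_product, Finset.mem_range, Finset.mem_insert,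
    Finset.mem_singleton, not_or] at hq
  obtain ⟨_, hq0, hq1⟩ := hq
  rcases Nat.eq_zero_or_pos q.2 with h | h
  · have h2 : 2 ≤ q.1 := by
      by_contra h3
      push Not at h3
      interval_cases h4 : q.1
      · exact hq0 (Prod.ext h4 h)
      · exact hq1 (Prod.ext h4 h)
    rw [h]
    have : (2 : ℝ) ≤ q.1 := by exact_mod_cast h2
    push_cast
    linarith
  · have h2 : (1 : ℝ) ≤ q.2 := by exact_mod_cast h
    have h3 : (0 : ℝ) ≤ q.1 := Nat.cast_nonneg _
    nlinarith

lemma box_rate_one_le {σ : ℝ} (h1 : 1 < σ) {m : ℕ} {q : ℕ × ℕ} (hq : q ∈ insert (1, 0) (box m)) :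
    1 ≤ rate σ q := by
  rw [Finset.mem_insert] at hq
  rcases hq with rfl | hq
  · simp [rate]
  · exact (box_rate h1 hq).le

lemma box_rate_le {σ : ℝ} (h1 : 1 < σ) {m : ℕ} (hm : 1 ≤ m) {q : ℕ × ℕ}
    (hq : q ∈ insert (1, 0) (box m)) : rate σ q ≤ (1 + σ) * m := by
  obtain ⟨h2, h3⟩ := box_le hm hq
  unfold rate
  have h4 : (q.1 : ℝ) ≤ m := by exact_mod_cast h2
  have h5 : (q.2 : ℝ) ≤ m := by exact_mod_cast h3
  nlinarith

/-- The building block at one scale, with all estimates that are needed later. -/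
theorem block {σ : ℝ} (hσ : Irrational σ) (h1 : 1 < σ) (B : ℝ) :
    ∃ (m : ℕ) (w : ℕ × ℕ → ℝ) (T β : ℝ),
      1 ≤ m ∧ B < T ∧ 0 < T ∧ 0 < β ∧ 1 ≤ w (1, 0) ∧
      (∀ q ∈ insert (1, 0) (box m), rate σ q ≤ β) ∧
      (∀ τ, 0 ≤ τ → 0 ≤ F σ (insert (1, 0) (box m)) w τ) ∧
      (∀ τ, 0 ≤ τ → F σ (insert (1, 0) (box m)) w τ ≤ 1 - exp (-τ)) ∧
      (∀ τ, 0 ≤ τ → τ ≤ T → F σ (insert (1, 0) (box m)) w τ ≤ 1 / 4 * exp (-(2 * β * T))) ∧
      (∀ τ, τ ≤ 0 → |F σ (insert (1, 0) (box m)) w τ| ≤ exp (-(β * τ))) := by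
  set κ : ℝ := (1 + σ) / (2 + σ) with hκ
  have hκ0 : 0 < κ := by positivity
  have hκ1 : κ < 1 := by
    rw [hκ, div_lt_one (by linarith)]
    linarith
  set L : ℝ := - Real.log κ with hL
  have hL0 : 0 < L := by
    rw [hL]
    have := Real.log_neg hκ0 hκ1
    linarith
  set c : ℝ := L / (2 * (5 + 4 * σ)) with hc
  have hc0 : 0 < c := by positivity
  obtain ⟨m, hm⟩ := exists_nat_gt (max 1 (max (B / c) (2 * Real.log 4 / L)))
  have hm1 : (1 : ℝ) < m := lt_of_le_of_lt (le_max_left _ _) hm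
  have hmB : B / c < m := lt_of_le_of_lt ((le_max_left _ _).trans (le_max_right _ _)) hm
  have hmL : 2 * Real.log 4 / L < m :=
    lt_of_le_of_lt ((le_max_right _ _).trans (le_max_right _ _)) hm
  have hmn : 1 ≤ m := by
    have : (1 : ℕ) < m := by exact_mod_cast hm1
    omega
  set β : ℝ := 2 * ((1 + σ) * m) with hβ
  have hm0 : (0 : ℝ) ≤ m := by linarith
  have hβ2 : 2 ≤ β := by
    rw [hβ]
    nlinarith
  obtain ⟨w, hw1, hA0, hA1, hB, hC⟩ := exists_w hσ (m : ℝ) β hm0 (box m) (box_not_mem m)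
    (fun q hq => box_rate h1 hq)
    (fun q hq => by
      have := box_rate_le h1 hmn (Finset.mem_insert_of_mem hq : q ∈ insert (1, 0) (box m))
      rw [hβ]
      linarith) hβ2
  refine ⟨m, w, c * m, β, hmn, ?_, ?_, by linarith, hw1, ?_, hA0, hA1, ?_, hC⟩
  · rw [div_lt_iff₀ hc0] at hmB
    linarith
  · exact mul_pos hc0 (by linarith)
  · intro q hq
    have := box_rate_le h1 hmn hq
    have h3 : 0 ≤ (1 + σ) * m := by positivity
    rw [hβ]
    linarith
  · intro τ hτ0 hτ
    refine (hB τ hτ0).trans ?_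
    have hprod : ∏ q ∈ insert (1, 0) (box m), rate σ q / (rate σ q + m) ≤ κ ^ (m ^ 2) := by
      calc ∏ q ∈ insert (1, 0) (box m), rate σ q / (rate σ q + m)
          ≤ ∏ q ∈ insert (1, 0) (box m), κ := by
            apply Finset.prod_le_prod
            · intro q hq
              have := box_rate_one_le h1 hq
              positivity
            · intro q hq
              have h3 := box_rate_one_le h1 hq
              have h4 := box_rate_le h1 hmn hq
              rw [hκ, div_le_div_iff₀ (by linarith) (by linarith)]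
              nlinarith
        _ = κ ^ (insert (1, 0) (box m)).card := by rw [Finset.prod_const]
        _ ≤ κ ^ (m ^ 2) := pow_le_pow_of_le_one hκ0.le hκ1.le (box_card m)
    have hκexp : κ ^ (m ^ 2) = exp (-(L * m ^ 2)) := by
      rw [← Real.exp_log (pow_pos hκ0 (m ^ 2)), Real.log_pow, hL]
      congr 1
      push_cast
      ring
    have hexp1 : exp ((m : ℝ) * τ) ≤ exp (c * m ^ 2) := by
      rw [exp_le_exp]
      nlinarith
    have h5 : (1 : ℝ) / 4 = exp (-Real.log 4) := by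
      rw [exp_neg, Real.exp_log (by norm_num)]
      norm_num
    calc (∏ q ∈ insert (1, 0) (box m), rate σ q / (rate σ q + m)) * exp (m * τ)
        ≤ exp (-(L * m ^ 2)) * exp (c * m ^ 2) := by
          apply mul_le_mul (hprod.trans_eq hκexp) hexp1 (exp_pos _).le (exp_pos _).le
      _ = exp (-(L * m ^ 2) + c * m ^ 2) := by rw [exp_add]
      _ ≤ exp (-Real.log 4 + -(2 * β * (c * m))) := by
          rw [exp_le_exp]
          have h6 : 2 * β * (c * m) + c * m ^ 2 = (5 + 4 * σ) * c * m ^ 2 := by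
            rw [hβ]
            ring
          have h7 : (5 + 4 * σ) * c = L / 2 := by
            rw [hc]
            field_simp
          rw [h7] at h6
          have h8 : 2 * Real.log 4 ≤ L * m ^ 2 := by
            rw [div_lt_iff₀ hL0] at hmL
            have : (m : ℝ) * L ≤ L * m ^ 2 := by
              have h9 : 0 ≤ L * m * (m - 1) :=
                mul_nonneg (mul_nonneg hL0.le hm0) (by linarith)
              nlinarith
            linarith
          linarith
      _ = 1 / 4 * exp (-(2 * β * (c * m))) := by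
          rw [exp_add, ← h5]

/-- The polynomials `P n`. -/
noncomputable def PP (σ : ℝ) (S : Finset (ℕ × ℕ)) (w : ℕ × ℕ → ℝ) (T : ℝ) (k₀ m₀ : ℕ) :
    ℕ → MvPolynomial (Fin 2) ℝ
  | 0 => (1 - X 0) ^ m₀ * Rp σ S w (k₀ * T)
  | n + 1 => PP σ S w T k₀ m₀ n ^ 2 * Rp σ S w ((k₀ + (n + 1 : ℕ)) * T)

lemma PP_zero_eval (σ : ℝ) (S : Finset (ℕ × ℕ)) (w : ℕ × ℕ → ℝ) (T : ℝ) (k₀ m₀ : ℕ)
    (hS : (0, 0) ∉ S) (n : ℕ) : eval ![0, 0] (PP σ S w T k₀ m₀ n) = 1 := by
  induction n with
  | zero =>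
    unfold PP
    rw [map_mul, eval_Rp_zero σ S w _ hS]
    simp
  | succ n ih =>
    unfold PP
    rw [map_mul, eval_Rp_zero σ S w _ hS, map_pow, ih]
    norm_num

lemma PP_deriv (σ : ℝ) (S : Finset (ℕ × ℕ)) (w : ℕ × ℕ → ℝ) {T : ℝ} (hT : 0 ≤ T) (k₀ m₀ : ℕ)
    (hS : (0, 0) ∉ S) (hS1 : (1, 0) ∈ S) (hw : 1 ≤ w (1, 0)) (n : ℕ) :
    eval ![0, 0] (pderiv 0 (PP σ S w T k₀ m₀ n)) ≤ - exp (n * T) := by
  induction n with
  | zero =>
    unfold PP
    rw [Derivation.leibniz, smul_eq_mul, smul_eq_mul, map_add, map_mul, map_mul,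
      eval_pderiv_Rp_zero σ S w _ hS1, eval_Rp_zero σ S w _ hS, Derivation.leibniz_pow]
    have h1 : eval ![0, 0] ((1 - X 0 : MvPolynomial (Fin 2) ℝ) ^ m₀) = 1 := by simp
    have h2 : pderiv (0 : Fin 2) (1 - X 0 : MvPolynomial (Fin 2) ℝ) = -1 := by
      simp
    rw [h1, h2]
    simp only [smul_eq_mul, map_mul, map_pow, map_neg, map_one, nsmul_eq_mul]
    have h3 : eval ![0, 0] (1 - X 0 : MvPolynomial (Fin 2) ℝ) = 1 := by simp
    rw [h3]
    have h4 : 1 ≤ exp ((k₀ : ℝ) * T) := one_le_exp (by positivity)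
    have h5 : (0 : ℝ) ≤ m₀ := Nat.cast_nonneg _
    simp
    nlinarith
  | succ n ih =>
    unfold PP
    rw [Derivation.leibniz, smul_eq_mul, smul_eq_mul, map_add, map_mul, map_mul,
      eval_pderiv_Rp_zero σ S w _ hS1, eval_Rp_zero σ S w _ hS, Derivation.leibniz_pow, map_pow,
      PP_zero_eval σ S w T k₀ m₀ hS n]
    simp only [smul_eq_mul, map_mul, map_pow, nsmul_eq_mul,
      PP_zero_eval σ S w T k₀ m₀ hS n]
    have h4 : exp (((n + 1 : ℕ) : ℝ) * T) ≤ exp (((k₀ : ℝ) + ((n + 1 : ℕ) : ℝ)) * T) := by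
      rw [exp_le_exp]
      apply mul_le_mul_of_nonneg_right _ hT
      have : (0 : ℝ) ≤ k₀ := Nat.cast_nonneg _
      linarith
    have h5 : 0 < exp (n * T) := exp_pos _
    have h6 : 0 < exp (((k₀ : ℝ) + ((n + 1 : ℕ) : ℝ)) * T) := exp_pos _
    have h7 : exp (((k₀ : ℝ) + ((n + 1 : ℕ) : ℝ)) * T) ≤
        w (1, 0) * exp (((k₀ : ℝ) + ((n + 1 : ℕ) : ℝ)) * T) := le_mul_of_one_le_left h6.le hw
    simp only [one_pow, one_mul, Nat.cast_ofNat]
    have h8 : eval ![0, 0] (2 : MvPolynomial (Fin 2) ℝ) = 2 := map_ofNat _ 2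
    rw [h8]
    linarith

lemma PP_degree (σ : ℝ) (S : Finset (ℕ × ℕ)) (w : ℕ × ℕ → ℝ) (T : ℝ) (k₀ m₀ : ℕ) (d : ℕ)
    (hd : ∀ q ∈ S, q.1 + q.2 ≤ d) (n : ℕ) :
    (PP σ S w T k₀ m₀ n).totalDegree + d ≤ (m₀ + 2 * d) * 2 ^ n := by
  induction n with
  | zero =>
    unfold PP
    have h1 := totalDegree_mul ((1 - X 0 : MvPolynomial (Fin 2) ℝ) ^ m₀) (Rp σ S w (k₀ * T))
    have h2 := totalDegree_Rp σ S w (k₀ * T) d hd
    have h3 := totalDegree_pow (1 - X 0 : MvPolynomial (Fin 2) ℝ) m₀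
    have h4 : (1 - X 0 : MvPolynomial (Fin 2) ℝ).totalDegree ≤ 1 := by
      refine (totalDegree_sub _ _).trans ?_
      rw [totalDegree_one, totalDegree_X]
      simp
    have h5 : m₀ * (1 - X 0 : MvPolynomial (Fin 2) ℝ).totalDegree ≤ m₀ * 1 :=
      Nat.mul_le_mul_left _ h4
    rw [pow_zero]
    omega
  | succ n ih =>
    unfold PP
    have h1 := totalDegree_mul (PP σ S w T k₀ m₀ n ^ 2) (Rp σ S w ((k₀ + (n + 1 : ℕ)) * T))
    have h2 := totalDegree_Rp σ S w ((k₀ + (n + 1 : ℕ)) * T) d hd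
    have h3 := totalDegree_pow (PP σ S w T k₀ m₀ n) 2
    have h6 : (m₀ + 2 * d) * 2 ^ (n + 1) = 2 * ((m₀ + 2 * d) * 2 ^ n) := by ring
    rw [h6]
    omega

/-- The bound `|P n| ≤ 1` on the cusp, away from the origin. -/
theorem PP_le_one {σ : ℝ} {p : ℝ} (hp : σ < p) (S : Finset (ℕ × ℕ))
    (w : ℕ × ℕ → ℝ) {T β : ℝ} (hT : 0 < T) (hβ : 0 < β) (hr1 : ∀ q ∈ S, 1 ≤ rate σ q)
    (hrβ : ∀ q ∈ S, rate σ q ≤ β)
    (hA0 : ∀ τ, 0 ≤ τ → 0 ≤ F σ S w τ) (hA1 : ∀ τ, 0 ≤ τ → F σ S w τ ≤ 1 - exp (-τ))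
    (hB : ∀ τ, 0 ≤ τ → τ ≤ T → F σ S w τ ≤ 1 / 4 * exp (-(2 * β * T)))
    (hC : ∀ τ, τ ≤ 0 → |F σ S w τ| ≤ exp (-(β * τ)))
    {k₀ m₀ : ℕ} (hk : exp (-((p - σ) * (k₀ * T))) * Wc S w ≤ 1 / 4 * exp (-(2 * β * T)))
    (hm : (1 - exp (-(k₀ * T))) ^ m₀ ≤ (Wc S w)⁻¹ ^ 2 * exp (-(β * ((2 * k₀ + 2) * T))))
    (n : ℕ) {t v : ℝ} (ht : 0 ≤ t) (hv0 : 0 ≤ v) (hv : v ≤ exp (-((p - σ) * t))) :
    |eval ![exp (-t), exp (-(σ * t)) * (1 + v)] (PP σ S w T k₀ m₀ n)| ≤ 1 := by
  have hW1 : 1 ≤ Wc S w := one_le_Wc S w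
  have hW0 : 0 < Wc S w := by linarith
  have hv1 : v ≤ 1 := by
    refine hv.trans ?_
    rw [exp_le_one_iff]
    have : 0 ≤ (p - σ) * t := mul_nonneg (by linarith) ht
    linarith
  have hbase : |eval ![exp (-t), exp (-(σ * t)) * (1 + v)] (PP σ S w T k₀ m₀ 0)| =
      (1 - exp (-t)) ^ m₀ * |RR σ S w (t - k₀ * T) v| := by
    unfold PP
    rw [map_mul, eval_Rp, abs_mul]
    congr 1
    have h2 : 0 ≤ 1 - exp (-t) := by
      have : exp (-t) ≤ 1 := by
        rw [exp_le_one_iff]
        linarith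
      linarith
    simp only [map_pow, map_sub, map_one, eval_X, Matrix.cons_val_zero]
    rw [abs_of_nonneg (pow_nonneg h2 _)]
  have hstep : ∀ n : ℕ, |eval ![exp (-t), exp (-(σ * t)) * (1 + v)] (PP σ S w T k₀ m₀ (n + 1))| =
      |eval ![exp (-t), exp (-(σ * t)) * (1 + v)] (PP σ S w T k₀ m₀ n)| ^ 2 *
        |RR σ S w (t - (k₀ + (n + 1 : ℕ)) * T) v| := by
    intro n
    rw [show PP σ S w T k₀ m₀ (n + 1) =
      PP σ S w T k₀ m₀ n ^ 2 * Rp σ S w ((k₀ + (n + 1 : ℕ)) * T) from rfl]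
    rw [map_mul, eval_Rp, abs_mul, map_pow, abs_pow]
  set b : ℕ → ℝ := fun n => |eval ![exp (-t), exp (-(σ * t)) * (1 + v)] (PP σ S w T k₀ m₀ n)|
    with hb
  have hb0 : ∀ n, 0 ≤ b n := fun n => abs_nonneg _
  have hexpneg : ∀ τ ≤ (0 : ℝ), ∀ q ∈ S, exp (-(rate σ q) * τ) ≤ exp (-(β * τ)) := by
    intro τ hτ q hq
    rw [exp_le_exp]
    have := hrβ q hq
    nlinarith
  have h1pow : (1 - exp (-t)) ^ m₀ ≤ 1 := by
    apply pow_le_one₀
    · have : exp (-t) ≤ 1 := by
        rw [exp_le_one_iff]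
        linarith
      linarith
    · have := exp_pos (-t)
      linarith
  have h1pow0 : 0 ≤ (1 - exp (-t)) ^ m₀ := by
    apply pow_nonneg
    have : exp (-t) ≤ 1 := by
      rw [exp_le_one_iff]
      linarith
    linarith
  show b n ≤ 1
  rcases lt_or_ge t (k₀ * T) with hlt | hge
  · -- far from the origin
    have key : ∀ n : ℕ, b n ≤ (Wc S w)⁻¹ * exp (-(β * ((k₀ + n + 2) * T))) := by
      intro n
      induction n with
      | zero =>
        rw [hb]
        simp only
        rw [hbase]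
        have h2 : |RR σ S w (t - k₀ * T) v| ≤ Wc S w * exp (-(β * (t - k₀ * T))) := by
          apply abs_RR_le S w hv0 hv1 (hexpneg _ (by linarith))
          apply one_le_exp
          nlinarith
        have h3 : exp (-(β * (t - k₀ * T))) ≤ exp (β * (k₀ * T)) := by
          rw [exp_le_exp]
          nlinarith
        have h4 : (1 - exp (-t)) ^ m₀ ≤ (1 - exp (-(k₀ * T))) ^ m₀ := by
          apply pow_le_pow_left₀
          · have : exp (-t) ≤ 1 := by
              rw [exp_le_one_iff]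
              linarith
            linarith
          · have : exp (-(k₀ * T)) ≤ exp (-t) := by
              rw [exp_le_exp]
              linarith
            linarith
        calc (1 - exp (-t)) ^ m₀ * |RR σ S w (t - k₀ * T) v|
            ≤ ((Wc S w)⁻¹ ^ 2 * exp (-(β * ((2 * k₀ + 2) * T)))) *
                (Wc S w * exp (β * (k₀ * T))) := by
              apply mul_le_mul (h4.trans hm) _ (abs_nonneg _) (by positivity)
              exact h2.trans (mul_le_mul_of_nonneg_left h3 hW0.le)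
          _ = (Wc S w)⁻¹ * (exp (-(β * ((2 * k₀ + 2) * T))) * exp (β * (k₀ * T))) := by
              field_simp
          _ = (Wc S w)⁻¹ * exp (-(β * ((k₀ + (0 : ℕ) + 2) * T))) := by
              rw [← exp_add]
              congr 2
              push_cast
              ring
      | succ n ih =>
        have h5 : b (n + 1) = b n ^ 2 * |RR σ S w (t - (k₀ + (n + 1 : ℕ)) * T) v| := hstep n
        rw [h5]
        have hneg : t - (k₀ + (n + 1 : ℕ)) * T ≤ 0 := by
          have : (0 : ℝ) ≤ ((n + 1 : ℕ) : ℝ) * T := by positivity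
          nlinarith
        have h2 : |RR σ S w (t - (k₀ + (n + 1 : ℕ)) * T) v| ≤
            Wc S w * exp (β * ((k₀ + (n + 1 : ℕ)) * T)) := by
          refine (abs_RR_le S w hv0 hv1 (hexpneg _ hneg) ?_).trans ?_
          · apply one_le_exp
            nlinarith
          · apply mul_le_mul_of_nonneg_left _ hW0.le
            rw [exp_le_exp]
            nlinarith
        calc b n ^ 2 * |RR σ S w (t - (k₀ + (n + 1 : ℕ)) * T) v|
            ≤ ((Wc S w)⁻¹ * exp (-(β * ((k₀ + n + 2) * T)))) ^ 2 *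
                (Wc S w * exp (β * ((k₀ + (n + 1 : ℕ)) * T))) := by
              apply mul_le_mul _ h2 (abs_nonneg _) (by positivity)
              exact pow_le_pow_left₀ (hb0 n) ih 2
          _ = (Wc S w)⁻¹ * ((exp (-(β * ((k₀ + n + 2) * T))) * exp (-(β * ((k₀ + n + 2) * T)))) *
                exp (β * ((k₀ + (n + 1 : ℕ)) * T))) := by
              field_simp
          _ = (Wc S w)⁻¹ * exp (-(β * ((k₀ + (n + 1 : ℕ) + 2) * T))) := by
              rw [← exp_add, ← exp_add]
              congr 2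
              push_cast
              ring
    refine (key n).trans ?_
    have h6 : (Wc S w)⁻¹ ≤ 1 := inv_le_one_of_one_le₀ hW1
    have h7 : exp (-(β * ((k₀ + n + 2) * T))) ≤ 1 := by
      rw [exp_le_one_iff]
      have : 0 ≤ β * ((k₀ + n + 2) * T) := by positivity
      linarith
    calc (Wc S w)⁻¹ * exp (-(β * ((k₀ + n + 2) * T))) ≤ 1 * 1 :=
          mul_le_mul h6 h7 (exp_pos _).le zero_le_one
      _ = 1 := one_mul 1
  · -- close to the origin
    have hvk : v * Wc S w ≤ 1 / 4 * exp (-(2 * β * T)) := by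
      refine le_trans ?_ hk
      apply mul_le_mul_of_nonneg_right _ hW0.le
      refine hv.trans ?_
      rw [exp_le_exp]
      have : (p - σ) * (k₀ * T) ≤ (p - σ) * t := mul_le_mul_of_nonneg_left hge (by linarith)
      linarith
    have hq1 : exp (-(2 * β * T)) ≤ 1 := by
      rw [exp_le_one_iff]
      have : 0 ≤ 2 * β * T := by positivity
      linarith
    have hexppos : ∀ τ, 0 ≤ τ → ∀ q ∈ S, exp (-(rate σ q) * τ) ≤ exp (-τ) := by
      intro τ hτ q hq
      rw [exp_le_exp]
      have := hr1 q hq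
      nlinarith
    -- the three bounds for one factor
    have ha1 : ∀ τ, 0 ≤ τ → |RR σ S w τ v| ≤ 1 := by
      intro τ hτ
      have h2 := RR_sub_F (τ := τ) S w hv0 hv1 (hexppos τ hτ) (exp_pos _).le
      have h3 : v * Wc S w * exp (-τ) ≤ 1 * exp (-τ) := by
        apply mul_le_mul_of_nonneg_right _ (exp_pos _).le
        linarith
      have h4 := abs_le.1 (h2.trans h3)
      have h5 := hA0 τ hτ
      have h6 := hA1 τ hτ
      have h7 : exp (-τ) ≤ 1 := by
        rw [exp_le_one_iff]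
        linarith
      rw [abs_le]
      constructor <;> linarith [h4.1, h4.2]
    have ha2 : ∀ τ, 0 ≤ τ → τ ≤ T → |RR σ S w τ v| ≤ 1 / 2 * exp (-(2 * β * T)) := by
      intro τ hτ hτT
      have h2 := RR_sub_F (τ := τ) S w hv0 hv1 (hexppos τ hτ) (exp_pos _).le
      have h7 : exp (-τ) ≤ 1 := by
        rw [exp_le_one_iff]
        linarith
      have h3 : v * Wc S w * exp (-τ) ≤ 1 / 4 * exp (-(2 * β * T)) := by
        refine le_trans ?_ hvk
        exact mul_le_of_le_one_right (mul_nonneg hv0 hW0.le) h7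
      have h4 := abs_le.1 (h2.trans h3)
      have h5 := hA0 τ hτ
      have h6 := hB τ hτ hτT
      have h8 := exp_pos (-(2 * β * T))
      rw [abs_le]
      constructor <;> linarith [h4.1, h4.2]
    have ha3 : ∀ τ, τ ≤ 0 → |RR σ S w τ v| ≤ 2 * exp (-(β * τ)) := by
      intro τ hτ
      have h2 := RR_sub_F (τ := τ) S w hv0 hv1 (hexpneg τ hτ) (exp_pos _).le
      have h3 : v * Wc S w * exp (-(β * τ)) ≤ 1 * exp (-(β * τ)) := by
        apply mul_le_mul_of_nonneg_right _ (exp_pos _).le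
        linarith
      have h4 := abs_le.1 (h2.trans h3)
      have h5 := abs_le.1 (hC τ hτ)
      rw [abs_le]
      constructor <;> linarith [h4.1, h4.2, h5.1, h5.2]
    -- the induction
    have key : ∀ n : ℕ, (T ≤ t - (k₀ + n) * T → b n ≤ 1) ∧
        (t - (k₀ + n) * T < T → b n ≤ 1 / 2 * exp (β * (t - (k₀ + n) * T - 2 * T))) := by
      intro n
      induction n with
      | zero =>
        have h0 : b 0 ≤ |RR σ S w (t - k₀ * T) v| := by
          rw [hb]
          simp only
          rw [hbase]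
          exact mul_le_of_le_one_left (abs_nonneg _) h1pow
        have hcast : t - (k₀ + (0 : ℕ)) * T = t - k₀ * T := by
          push_cast
          ring
        rw [hcast]
        constructor
        · intro _
          exact h0.trans (ha1 _ (by linarith))
        · intro h2
          refine h0.trans ((ha2 _ (by linarith) h2.le).trans ?_)
          apply mul_le_mul_of_nonneg_left _ (by norm_num)
          rw [exp_le_exp]
          nlinarith
      | succ n ih =>
        have h5 : b (n + 1) = b n ^ 2 * |RR σ S w (t - (k₀ + (n + 1 : ℕ)) * T) v| := hstep n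
        have hτ : t - (k₀ + (n + 1 : ℕ)) * T = t - (k₀ + n) * T - T := by
          push_cast
          ring
        rw [h5, hτ]
        set τ := t - (k₀ + n) * T with hτdef
        rcases le_or_gt T τ with h6 | h6
        · have h7 := ih.1 h6
          have h8 : b n ^ 2 ≤ 1 := pow_le_one₀ (hb0 n) h7
          constructor
          · intro _
            calc b n ^ 2 * |RR σ S w (τ - T) v| ≤ 1 * 1 :=
                  mul_le_mul h8 (ha1 _ (by linarith)) (abs_nonneg _) zero_le_one
              _ = 1 := one_mul 1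
          · intro h9
            calc b n ^ 2 * |RR σ S w (τ - T) v| ≤ 1 * (1 / 2 * exp (-(2 * β * T))) :=
                  mul_le_mul h8 (ha2 _ (by linarith) h9.le) (abs_nonneg _) zero_le_one
              _ ≤ 1 / 2 * exp (β * (τ - T - 2 * T)) := by
                  rw [one_mul]
                  apply mul_le_mul_of_nonneg_left _ (by norm_num)
                  rw [exp_le_exp]
                  nlinarith
        · have h7 := ih.2 h6
          constructor
          · intro h9
            linarith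
          · intro _
            calc b n ^ 2 * |RR σ S w (τ - T) v|
                ≤ (1 / 2 * exp (β * (τ - 2 * T))) ^ 2 * (2 * exp (-(β * (τ - T)))) := by
                  apply mul_le_mul _ (ha3 _ (by linarith)) (abs_nonneg _) (by positivity)
                  exact pow_le_pow_left₀ (hb0 n) h7 2
              _ = 1 / 2 * (exp (β * (τ - 2 * T)) * exp (β * (τ - 2 * T)) *
                    exp (-(β * (τ - T)))) := by ring
              _ = 1 / 2 * exp (β * (τ - T - 2 * T)) := by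
                  rw [← exp_add, ← exp_add]
                  congr 2
                  ring
    obtain ⟨h1, h2⟩ := key n
    rcases le_or_gt T (t - (k₀ + n) * T) with h3 | h3
    · exact h1 h3
    · refine (h2 h3).trans ?_
      have h4 : exp (β * (t - (k₀ + n) * T - 2 * T)) ≤ 1 := by
        rw [exp_le_one_iff]
        nlinarith
      linarith

/-- For every `B` there are `T > B`, a natural number `D` and polynomials `P n` of degree at most
`D 2 ^ n` with `|P n| ≤ 1` on the cusp and `|∂P n / ∂x (0, 0)| ≥ exp (n T)`. -/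
theorem exists_polys {σ : ℝ} (hσ : Irrational σ) (h1 : 1 < σ) {p : ℕ} (hp : σ < p) (B : ℝ) :
    ∃ (T : ℝ) (D : ℕ) (P : ℕ → MvPolynomial (Fin 2) ℝ), B < T ∧ 0 < T ∧ 0 < D ∧
      (∀ n, (P n).totalDegree ≤ D * 2 ^ n) ∧
      (∀ (n : ℕ) (x y : ℝ), 0 ≤ x → x ≤ 1 → x ^ σ ≤ y → y ≤ x ^ σ + x ^ p →
        |eval ![x, y] (P n)| ≤ 1) ∧
      (∀ n : ℕ, exp (n * T) ≤ |eval ![0, 0] (pderiv 0 (P n))|) := by
  obtain ⟨m, w, T, β, hm1, hBT, hT, hβ, hw1, hrβ, hA0, hA1, hB, hC⟩ := block hσ h1 B
  set S := insert (1, 0) (box m) with hS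
  have hW1 : 1 ≤ Wc S w := one_le_Wc S w
  have hW0 : 0 < Wc S w := by linarith
  have hps : 0 < (p : ℝ) - σ := by linarith
  -- the scale `k₀`
  have hlim1 : Filter.Tendsto (fun k : ℕ => exp (-(((p : ℝ) - σ) * (k * T))) * Wc S w)
      Filter.atTop (nhds 0) := by
    have h2 : Filter.Tendsto (fun k : ℕ => ((p : ℝ) - σ) * ((k : ℝ) * T)) Filter.atTop
        Filter.atTop := by
      apply Filter.Tendsto.const_mul_atTop hps
      apply Filter.Tendsto.atTop_mul_const hT
      exact tendsto_natCast_atTop_atTop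
    have h3 := (Real.tendsto_exp_neg_atTop_nhds_zero.comp h2).mul_const (Wc S w)
    simpa using h3
  have hpos : 0 < 1 / 4 * exp (-(2 * β * T)) := by positivity
  obtain ⟨k₀, hk⟩ := (hlim1.eventually (ge_mem_nhds hpos)).exists
  have hk1 : 1 ≤ k₀ := by
    by_contra h
    have h0 : k₀ = 0 := by omega
    rw [h0] at hk
    have h2 : exp (-(2 * β * T)) ≤ 1 := by
      rw [exp_le_one_iff]
      have : 0 ≤ 2 * β * T := by positivity
      linarith
    simp at hk
    linarith
  -- the exponent `m₀`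
  have hb1 : 0 ≤ 1 - exp (-((k₀ : ℝ) * T)) := by
    have : exp (-((k₀ : ℝ) * T)) ≤ 1 := by
      rw [exp_le_one_iff]
      have : 0 ≤ (k₀ : ℝ) * T := by positivity
      linarith
    linarith
  have hb2 : 1 - exp (-((k₀ : ℝ) * T)) < 1 := by
    have := exp_pos (-((k₀ : ℝ) * T))
    linarith
  have hlim2 := tendsto_pow_atTop_nhds_zero_of_lt_one hb1 hb2
  have hpos2 : 0 < (Wc S w)⁻¹ ^ 2 * exp (-(β * ((2 * k₀ + 2) * T))) := by positivity
  obtain ⟨m₀, hm₀⟩ := (hlim2.eventually (ge_mem_nhds hpos2)).exists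
  have hd : ∀ q ∈ S, q.1 + q.2 ≤ 2 * m := by
    intro q hq
    have := box_le hm1 hq
    omega
  refine ⟨T, m₀ + 2 * (2 * m), PP σ S w T k₀ m₀, hBT, hT, by omega, ?_, ?_, ?_⟩
  · intro n
    have := PP_degree σ S w T k₀ m₀ (2 * m) hd n
    omega
  · intro n x y hx0 hx1 hy1 hy2
    rcases hx0.eq_or_lt with h0 | h0
    · subst h0
      have hσ0 : σ ≠ 0 := by linarith
      have hp0 : p ≠ 0 := by
        rintro rfl
        simp at hp
        linarith
      rw [Real.zero_rpow hσ0] at hy1 hy2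
      rw [zero_pow hp0] at hy2
      have hy : y = 0 := by linarith
      rw [hy, PP_zero_eval σ S w T k₀ m₀ (box_zero m) n]
      simp
    · set t := - Real.log x with ht
      have hxt : x = exp (-t) := by
        rw [ht, neg_neg, Real.exp_log h0]
      have ht0 : 0 ≤ t := by
        rw [ht]
        have := Real.log_nonpos h0.le hx1
        linarith
      have hxσ : x ^ σ = exp (-(σ * t)) := by
        rw [hxt, ← Real.exp_mul]
        congr 1
        ring
      have hxp : x ^ p = exp (-(p * t)) := by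
        rw [hxt, ← Real.exp_nat_mul]
        congr 1
        ring
      set v := y * exp (σ * t) - 1 with hv
      have hee : exp (-(σ * t)) * exp (σ * t) = 1 := by
        rw [← exp_add]
        simp
      have hyv : y = exp (-(σ * t)) * (1 + v) := by
        rw [hv]
        have : exp (-(σ * t)) * (1 + (y * exp (σ * t) - 1)) =
            y * (exp (-(σ * t)) * exp (σ * t)) := by ring
        rw [this, hee, mul_one]
      have hv0 : 0 ≤ v := by
        rw [hxσ] at hy1
        have h2 : exp (-(σ * t)) * exp (σ * t) ≤ y * exp (σ * t) :=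
          mul_le_mul_of_nonneg_right hy1 (exp_pos _).le
        rw [hee] at h2
        linarith
      have hv1 : v ≤ exp (-(((p : ℝ) - σ) * t)) := by
        rw [hxσ, hxp] at hy2
        have h2 : y * exp (σ * t) ≤ (exp (-(σ * t)) + exp (-(p * t))) * exp (σ * t) :=
          mul_le_mul_of_nonneg_right hy2 (exp_pos _).le
        rw [add_mul, hee, ← exp_add] at h2
        have h3 : -(p * t) + σ * t = -(((p : ℝ) - σ) * t) := by ring
        rw [h3] at h2
        linarith
      rw [hyv, hxt]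
      have h5 := PP_le_one hp S w hT hβ (fun q hq => box_rate_one_le h1 hq) hrβ hA0 hA1 hB hC
        hk hm₀ n ht0 hv0 hv1
      exact h5
  · intro n
    have h2 := PP_deriv σ S w hT.le k₀ m₀ (box_zero m) (Finset.mem_insert_self _ _) hw1 n
    rw [abs_of_nonpos (h2.trans (neg_nonpos.2 (exp_pos _).le))]
    linarith

end Pool.Agent.R257.Cusp
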