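import Pool.Agent.R257.CuspF

/-!
# The polynomials for the cusp with irrational exponent
-/

set_option autoImplicit false

namespace Pool.Agent.R257.Cusp

open Finset Real MvPolynomial

/-- The value of the building block on the thickened curve. -/
noncomputable def RR (σ : ℝ) (S : Finset (ℕ × ℕ)) (w : ℕ × ℕ → ℝ) (τ v : ℝ) : ℝ :=
  1 - ∑ q ∈ S, w q * exp (-(rate σ q) * τ) * (1 + v) ^ q.2

/-- The building block as a polynomial, at scale `exp (-s)`. -/
noncomputable def Rp (σ : ℝ) (S : Finset (ℕ × ℕ)) (w : ℕ × ℕ → ℝ) (s : ℝ) :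
    MvPolynomial (Fin 2) ℝ :=
  1 - ∑ q ∈ S, C (w q * exp (s * rate σ q)) * X 0 ^ q.1 * X 1 ^ q.2

lemma eval_Rp (σ : ℝ) (S : Finset (ℕ × ℕ)) (w : ℕ × ℕ → ℝ) (s t v : ℝ) :
    eval ![exp (-t), exp (-(σ * t)) * (1 + v)] (Rp σ S w s) = RR σ S w (t - s) v := by
  unfold Rp RR
  rw [map_sub, map_one, map_sum]
  congr 1
  apply Finset.sum_congr rfl
  intro q _
  simp only [map_mul, eval_C, map_pow, eval_X, Matrix.cons_val_zero, Matrix.cons_val_one]
  rw [mul_pow, ← exp_nat_mul, ← exp_nat_mul]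
  have : exp (-(rate σ q) * (t - s)) =
      exp (s * rate σ q) * (exp (q.1 * -t) * exp (q.2 * -(σ * t))) := by
    rw [← exp_add, ← exp_add]
    congr 1
    unfold rate
    ring
  rw [this]
  ring

lemma eval_Rp_zero (σ : ℝ) (S : Finset (ℕ × ℕ)) (w : ℕ × ℕ → ℝ) (s : ℝ) (hS : (0, 0) ∉ S) :
    eval ![0, 0] (Rp σ S w s) = 1 := by
  unfold Rp
  rw [map_sub, map_one, map_sum, sub_eq_self]
  apply Finset.sum_eq_zero
  intro q hq
  simp only [map_mul, eval_C, map_pow, eval_X, Matrix.cons_val_zero, Matrix.cons_val_one]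
  by_cases h : q.1 = 0
  · have h2 : q.2 ≠ 0 := by
      intro h2
      exact hS (by rwa [show q = (0, 0) from Prod.ext h h2] at hq)
    rw [zero_pow h2]
    ring
  · rw [zero_pow h]
    ring

lemma eval_pderiv_Rp_zero (σ : ℝ) (S : Finset (ℕ × ℕ)) (w : ℕ × ℕ → ℝ) (s : ℝ)
    (hS : (1, 0) ∈ S) :
    eval ![0, 0] (pderiv 0 (Rp σ S w s)) = -(w (1, 0) * exp s) := by
  unfold Rp
  rw [map_sub, map_sum, map_sub, map_sum]
  have h1 : pderiv (0 : Fin 2) (1 : MvPolynomial (Fin 2) ℝ) = 0 := by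
    simp
  rw [h1, map_zero, zero_sub, neg_inj]
  rw [Finset.sum_eq_single_of_mem (1, 0) hS]
  · have hr : rate σ (1, 0) = 1 := by simp [rate]
    simp [hr]
  · intro q _ hq
    have h2 : pderiv (0 : Fin 2) (C (w q * exp (s * rate σ q)) * X 0 ^ q.1 * X 1 ^ q.2 :
        MvPolynomial (Fin 2) ℝ) =
        C (w q * exp (s * rate σ q)) * ((q.1 : MvPolynomial (Fin 2) ℝ) * X 0 ^ (q.1 - 1)) *
          X 1 ^ q.2 := by
      simp [Derivation.leibniz, pderiv_X, smul_eq_mul]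
      ring
    rw [h2]
    simp only [map_mul, eval_C, map_pow, eval_X, Matrix.cons_val_zero, Matrix.cons_val_one,
      map_natCast]
    by_cases h3 : q.2 = 0
    · by_cases h4 : q.1 = 0
      · simp [h4]
      · have h5 : q.1 - 1 ≠ 0 := by
          intro h6
          apply hq
          have : q.1 = 1 := by omega
          exact Prod.ext this h3
        rw [zero_pow h5]
        ring
    · rw [zero_pow h3]
      ring

lemma totalDegree_Rp (σ : ℝ) (S : Finset (ℕ × ℕ)) (w : ℕ × ℕ → ℝ) (s : ℝ) (d : ℕ)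
    (hd : ∀ q ∈ S, q.1 + q.2 ≤ d) : (Rp σ S w s).totalDegree ≤ d := by
  unfold Rp
  refine (totalDegree_sub _ _).trans ?_
  rw [totalDegree_one]
  apply max_le (Nat.zero_le _)
  refine (totalDegree_finset_sum _ _).trans ?_
  apply Finset.sup_le
  intro q hq
  refine (totalDegree_mul _ _).trans ?_
  have h1 := totalDegree_mul (C (w q * exp (s * rate σ q)) : MvPolynomial (Fin 2) ℝ) (X 0 ^ q.1)
  rw [totalDegree_C, totalDegree_X_pow] at h1
  rw [totalDegree_X_pow]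
  have := hd q hq
  omega

/-- The constant `W = 1 + ∑ |w q| 2^j`. -/
noncomputable def Wc (S : Finset (ℕ × ℕ)) (w : ℕ × ℕ → ℝ) : ℝ := 1 + ∑ q ∈ S, |w q| * 2 ^ q.2

lemma one_le_Wc (S : Finset (ℕ × ℕ)) (w : ℕ × ℕ → ℝ) : 1 ≤ Wc S w := by
  unfold Wc
  have : 0 ≤ ∑ q ∈ S, |w q| * 2 ^ q.2 := by
    apply Finset.sum_nonneg
    intro q _
    positivity
  linarith

lemma pow_bound {v : ℝ} (hv0 : 0 ≤ v) (hv1 : v ≤ 1) (j : ℕ) : (1 + v) ^ j ≤ 1 + v * 2 ^ j := by
  have key : (1 + v) ^ j ≤ 1 + v * (2 ^ j - 1) := by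
    induction j with
    | zero => simp
    | succ j ih =>
      rw [pow_succ]
      have h2 : (1 : ℝ) ≤ 2 ^ j := one_le_pow₀ (by norm_num)
      calc (1 + v) ^ j * (1 + v) ≤ (1 + v * (2 ^ j - 1)) * (1 + v) := by
            apply mul_le_mul_of_nonneg_right ih
            linarith
        _ ≤ 1 + v * (2 ^ (j + 1) - 1) := by
            rw [pow_succ]
            nlinarith [mul_nonneg hv0 (sub_nonneg.2 h2), mul_nonneg (mul_nonneg hv0 (sub_nonneg.2 hv1)) (sub_nonneg.2 h2)]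
  nlinarith

lemma RR_sub_F {σ : ℝ} (S : Finset (ℕ × ℕ)) (w : ℕ × ℕ → ℝ) {τ v E : ℝ} (hv0 : 0 ≤ v)
    (hv1 : v ≤ 1) (hE : ∀ q ∈ S, exp (-(rate σ q) * τ) ≤ E) (hE0 : 0 ≤ E) :
    |RR σ S w τ v - F σ S w τ| ≤ v * Wc S w * E := by
  have h1 : RR σ S w τ v - F σ S w τ =
      - ∑ q ∈ S, w q * exp (-(rate σ q) * τ) * ((1 + v) ^ q.2 - 1) := by
    unfold RR F
    have : ∑ q ∈ S, w q * exp (-(rate σ q) * τ) * ((1 + v) ^ q.2 - 1) =
        ∑ q ∈ S, w q * exp (-(rate σ q) * τ) * (1 + v) ^ q.2 -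
          ∑ q ∈ S, w q * exp (-(rate σ q) * τ) := by
      rw [← Finset.sum_sub_distrib]
      apply Finset.sum_congr rfl
      intro q _
      ring
    rw [this]
    ring
  rw [h1, abs_neg]
  calc |∑ q ∈ S, w q * exp (-(rate σ q) * τ) * ((1 + v) ^ q.2 - 1)|
      ≤ ∑ q ∈ S, |w q * exp (-(rate σ q) * τ) * ((1 + v) ^ q.2 - 1)| :=
        Finset.abs_sum_le_sum_abs _ _
    _ ≤ ∑ q ∈ S, v * (|w q| * 2 ^ q.2) * E := by
        apply Finset.sum_le_sum
        intro q hq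
        have h2 : 0 ≤ (1 + v) ^ q.2 - 1 := by
          have : (1 : ℝ) ≤ (1 + v) ^ q.2 := one_le_pow₀ (by linarith)
          linarith
        have h3 : (1 + v) ^ q.2 - 1 ≤ v * 2 ^ q.2 := by
          have := pow_bound hv0 hv1 q.2
          linarith
        rw [abs_mul, abs_mul, abs_of_nonneg h2, abs_of_pos (exp_pos _)]
        calc |w q| * exp (-(rate σ q) * τ) * ((1 + v) ^ q.2 - 1)
            ≤ |w q| * E * (v * 2 ^ q.2) := by
              apply mul_le_mul _ h3 h2 (by positivity)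
              exact mul_le_mul_of_nonneg_left (hE q hq) (abs_nonneg _)
          _ = v * (|w q| * 2 ^ q.2) * E := by ring
    _ = v * (∑ q ∈ S, |w q| * 2 ^ q.2) * E := by
        rw [Finset.mul_sum, Finset.sum_mul]
    _ ≤ v * Wc S w * E := by
        apply mul_le_mul_of_nonneg_right _ hE0
        apply mul_le_mul_of_nonneg_left _ hv0
        unfold Wc
        linarith

lemma abs_RR_le {σ : ℝ} (S : Finset (ℕ × ℕ)) (w : ℕ × ℕ → ℝ) {τ v E : ℝ} (hv0 : 0 ≤ v)
    (hv1 : v ≤ 1) (hE : ∀ q ∈ S, exp (-(rate σ q) * τ) ≤ E) (hE1 : 1 ≤ E) :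
    |RR σ S w τ v| ≤ Wc S w * E := by
  unfold RR
  have h1 : |∑ q ∈ S, w q * exp (-(rate σ q) * τ) * (1 + v) ^ q.2| ≤
      (∑ q ∈ S, |w q| * 2 ^ q.2) * E := by
    calc |∑ q ∈ S, w q * exp (-(rate σ q) * τ) * (1 + v) ^ q.2|
        ≤ ∑ q ∈ S, |w q * exp (-(rate σ q) * τ) * (1 + v) ^ q.2| :=
          Finset.abs_sum_le_sum_abs _ _
      _ ≤ ∑ q ∈ S, |w q| * 2 ^ q.2 * E := by
          apply Finset.sum_le_sum
          intro q hq
          have h2 : (1 + v) ^ q.2 ≤ 2 ^ q.2 := by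
            apply pow_le_pow_left₀ (by linarith)
            linarith
          have h3 : 0 ≤ (1 + v) ^ q.2 := by positivity
          rw [abs_mul, abs_mul, abs_of_nonneg h3, abs_of_pos (exp_pos _)]
          calc |w q| * exp (-(rate σ q) * τ) * (1 + v) ^ q.2 ≤ |w q| * E * 2 ^ q.2 := by
                apply mul_le_mul _ h2 h3 (by positivity)
                exact mul_le_mul_of_nonneg_left (hE q hq) (abs_nonneg _)
            _ = |w q| * 2 ^ q.2 * E := by ring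
      _ = _ := by rw [Finset.sum_mul]
  calc |1 - ∑ q ∈ S, w q * exp (-(rate σ q) * τ) * (1 + v) ^ q.2|
      ≤ |1| + |∑ q ∈ S, w q * exp (-(rate σ q) * τ) * (1 + v) ^ q.2| := abs_sub _ _
    _ ≤ 1 * E + (∑ q ∈ S, |w q| * 2 ^ q.2) * E := by
        rw [abs_one]
        linarith
    _ = Wc S w * E := by
        unfold Wc
        ring

end Pool.Agent.R257.Cusp
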