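import Pool.Agent.R257.TorusDefs

set_option autoImplicit false

open MeasureTheory Set Metric

namespace Pool.Agent.R257.Torus

theorem exists_lift (z : UnitAddCircle) :
    ∃ a : ℝ, |a| ≤ 1 / 2 ∧ (a : UnitAddCircle) = z ∧ ‖z‖ = |a| := by
  obtain ⟨x, rfl⟩ := QuotientAddGroup.mk_surjective z
  refine ⟨x - round x, abs_sub_round x, ?_, ?_⟩
  · rw [AddCircle.coe_sub]
    have : ((round x : ℝ) : UnitAddCircle) = 0 := by
      rw [AddCircle.coe_eq_zero_iff]
      exact ⟨round x, by simp⟩
    rw [this, sub_zero]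
  · exact UnitAddCircle.norm_eq

theorem norm_le_abs (x : ℝ) : ‖(x : UnitAddCircle)‖ ≤ |x| := by
  rw [UnitAddCircle.norm_eq]
  simpa using round_le x 0

theorem norm_le_half (z : UnitAddCircle) : ‖z‖ ≤ 1 / 2 := by
  obtain ⟨a, ha, -, h⟩ := exists_lift z
  rw [h]; exact ha

theorem norm_coe_of_abs_le {x : ℝ} (h : |x| ≤ 1 / 2) : ‖(x : UnitAddCircle)‖ = |x| := by
  have := (AddCircle.norm_coe_eq_abs_iff (p := 1) (x := x) one_ne_zero).2 (by simpa using h)
  exact this

theorem norm_coe_lt_iff {x : ℝ} (hx : |x| ≤ 3 / 4) : ‖(x : UnitAddCircle)‖ < 1 / 4 ↔ |x| < 1 / 4 := by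
  constructor
  · intro h
    rw [UnitAddCircle.norm_eq] at h
    have h1 : |(round x : ℝ)| < 1 := by
      have : (round x : ℝ) = x - (x - round x) := by ring
      rw [this]
      calc |x - (x - round x)| ≤ |x| + |x - round x| := abs_sub _ _
        _ < 3 / 4 + 1 / 4 := by linarith
        _ = 1 := by norm_num
    have h2 : round x = 0 := by
      have : |round x| < 1 := by exact_mod_cast h1
      exact Int.abs_lt_one_iff.1 this
    rw [h2] at h
    simpa using h
  · intro h
    exact lt_of_le_of_lt (norm_le_abs x) h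

theorem ball_inter (s t : UnitAddCircle) :
    ∃ m, ball s (1 / 4) ∩ ball t (1 / 4) = ball m (1 / 4 - ‖s - t‖ / 2) := by
  obtain ⟨a, ha, hat, hn⟩ := exists_lift (s - t)
  refine ⟨t + ((a / 2 : ℝ) : UnitAddCircle), ?_⟩
  ext z
  obtain ⟨y, hy, hyz, hyn⟩ := exists_lift (z - (t + ((a / 2 : ℝ) : UnitAddCircle)))
  have h1 : z - t = ((y + a / 2 : ℝ) : UnitAddCircle) := by
    rw [AddCircle.coe_add, hyz]; abel
  have h2 : z - s = ((y - a / 2 : ℝ) : UnitAddCircle) := by
    have h3 : (y - a / 2 : ℝ) = y + a / 2 - a := by ring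
    rw [h3, AddCircle.coe_sub, ← h1, hat]; abel
  have e1 : |y + a / 2| ≤ 3 / 4 := by
    calc |y + a / 2| ≤ |y| + |a / 2| := abs_add_le _ _
      _ = |y| + |a| / 2 := by rw [abs_div, abs_two]
      _ ≤ 3 / 4 := by linarith
  have e2 : |y - a / 2| ≤ 3 / 4 := by
    calc |y - a / 2| ≤ |y| + |a / 2| := abs_sub _ _
      _ = |y| + |a| / 2 := by rw [abs_div, abs_two]
      _ ≤ 3 / 4 := by linarith
  simp only [mem_inter_iff, mem_ball, dist_eq_norm, h1, h2, hyn, hn, norm_coe_lt_iff e1,
    norm_coe_lt_iff e2]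
  constructor
  · rintro ⟨h3, h4⟩
    rw [abs_lt] at h3 h4
    rcases abs_cases y with ⟨h, -⟩ | ⟨h, -⟩ <;> rcases abs_cases a with ⟨h', -⟩ | ⟨h', -⟩ <;>
      rw [h, h'] <;> linarith
  · intro h
    constructor
    · calc |y - a / 2| ≤ |y| + |a / 2| := abs_sub _ _
        _ = |y| + |a| / 2 := by rw [abs_div, abs_two]
        _ < 1 / 4 := by linarith
    · calc |y + a / 2| ≤ |y| + |a / 2| := abs_add_le _ _
        _ = |y| + |a| / 2 := by rw [abs_div, abs_two]
        _ < 1 / 4 := by linarith

theorem volume_real_ball (x : UnitAddCircle) {r : ℝ} (h0 : 0 ≤ r) (h1 : r ≤ 1 / 2) :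
    volume.real (ball x r) = 2 * r := by
  have h := measure_congr (AddCircle.closedBall_ae_eq_ball (x := x) (ε := r))
  rw [Measure.real, ← h, AddCircle.volume_closedBall, min_eq_right (by linarith),
    ENNReal.toReal_ofReal (by linarith)]

/-- The half circle function. -/
noncomputable def hh (z s : UnitAddCircle) : ℝ := (ball s (1 / 4)).indicator (fun _ => (1 : ℝ)) z - 1 / 2

theorem hh_abs_le (z s : UnitAddCircle) : |hh z s| ≤ 1 := by
  unfold hh
  by_cases h : z ∈ ball s (1 / 4)
  · rw [indicator_of_mem h]; rw [abs_le]; constructor <;> norm_num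
  · rw [indicator_of_notMem h]; rw [abs_le]; constructor <;> norm_num

theorem measurable_hh : Measurable (fun p : UnitAddCircle × UnitAddCircle => hh p.1 p.2) := by
  have : (fun p : UnitAddCircle × UnitAddCircle => hh p.1 p.2) =
      fun p => ({q : UnitAddCircle × UnitAddCircle | dist q.1 q.2 < 1 / 4}).indicator
        (fun _ => (1 : ℝ)) p - 1 / 2 := by
    funext p
    simp [hh, indicator, mem_ball]
  rw [this]
  apply Measurable.sub_const
  apply measurable_const.indicator
  exact (isOpen_lt (continuous_fst.dist continuous_snd) continuous_const).measurableSet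

theorem integral_hh_mul (s t : UnitAddCircle) :
    ∫ z, hh z s * hh z t = 1 / 4 - ‖s - t‖ := by
  obtain ⟨m, hm⟩ := ball_inter s t
  have hs : MeasurableSet (ball s (1 / 4)) := measurableSet_ball
  have ht : MeasurableSet (ball t (1 / 4)) := measurableSet_ball
  have hst : MeasurableSet (ball s (1 / 4) ∩ ball t (1 / 4)) := hs.inter ht
  have e : ∀ z, hh z s * hh z t = (ball s (1 / 4) ∩ ball t (1 / 4)).indicator (fun _ => (1 : ℝ)) z
      - 1 / 2 * (ball s (1 / 4)).indicator (fun _ => (1 : ℝ)) z
      - 1 / 2 * (ball t (1 / 4)).indicator (fun _ => (1 : ℝ)) z + 1 / 4 := by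
    intro z
    unfold hh
    by_cases h1 : z ∈ ball s (1 / 4) <;> by_cases h2 : z ∈ ball t (1 / 4)
    · rw [indicator_of_mem h1, indicator_of_mem h2, indicator_of_mem (mem_inter h1 h2)]; norm_num
    · rw [indicator_of_mem h1, indicator_of_notMem h2, indicator_of_notMem (fun h => h2 h.2)]
      norm_num
    · rw [indicator_of_notMem h1, indicator_of_mem h2, indicator_of_notMem (fun h => h1 h.1)]
      norm_num
    · rw [indicator_of_notMem h1, indicator_of_notMem h2, indicator_of_notMem (fun h => h2 h.2)]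
      norm_num
  have i1 : ∀ A : Set UnitAddCircle, MeasurableSet A →
      Integrable (A.indicator (fun _ => (1 : ℝ))) volume := fun A hA =>
    (integrable_const (1 : ℝ)).indicator hA
  have v1 : ∀ A : Set UnitAddCircle, MeasurableSet A →
      ∫ z, A.indicator (fun _ => (1 : ℝ)) z = volume.real A := by
    intro A hA
    rw [integral_indicator hA]
    simp
  have hu : volume.real (univ : Set UnitAddCircle) = 1 := by
    simp [Measure.real, UnitAddCircle.measure_univ]
  have n1 := norm_le_half (s - t)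
  have n2 := norm_nonneg (s - t)
  simp_rw [e]
  rw [integral_add, integral_sub, integral_sub, integral_const_mul, integral_const_mul, v1 _ hs,
    v1 _ ht, v1 _ hst, hm, volume_real_ball s (by norm_num) (by norm_num),
    volume_real_ball t (by norm_num) (by norm_num), volume_real_ball m (by linarith) (by linarith)]
  · rw [integral_const, hu]
    simp
    ring
  · exact i1 _ hst
  · exact (i1 _ hs).const_mul _
  · exact (i1 _ hst).sub ((i1 _ hs).const_mul _)
  · exact (i1 _ ht).const_mul _
  · exact ((i1 _ hst).sub ((i1 _ hs).const_mul _)).sub ((i1 _ ht).const_mul _)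
  · exact integrable_const _

/-- Positive definiteness of kernels `∫ k (x, z) k (y, z) dζ (z)`. -/
theorem psd_kernel {X Z : Type*} [MeasurableSpace X] [MeasurableSpace Z] (μ : Measure X)
    [IsFiniteMeasure μ] (ζ : Measure Z) [IsFiniteMeasure ζ] (k : X → Z → ℝ)
    (hk : Measurable (fun q : X × Z => k q.1 q.2)) (C : ℝ) (hC : ∀ x z, |k x z| ≤ C) :
    0 ≤ ∫ p : X × X, (∫ z, k p.1 z * k p.2 z ∂ζ) ∂(μ.prod μ) := by
  have hint : Integrable (fun q : (X × X) × Z => k q.1.1 q.2 * k q.1.2 q.2) ((μ.prod μ).prod ζ) := by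
    apply Integrable.of_bound (C := C * C)
    · apply Measurable.aestronglyMeasurable
      have m1 : Measurable (fun q : (X × X) × Z => k q.1.1 q.2) :=
        hk.comp ((measurable_fst.comp measurable_fst).prodMk measurable_snd)
      have m2 : Measurable (fun q : (X × X) × Z => k q.1.2 q.2) :=
        hk.comp ((measurable_snd.comp measurable_fst).prodMk measurable_snd)
      exact m1.mul m2
    · refine Filter.Eventually.of_forall fun q => ?_
      rw [norm_mul]
      have h0 : 0 ≤ C := le_trans (abs_nonneg _) (hC q.1.1 q.2)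
      exact mul_le_mul (hC _ _) (hC _ _) (norm_nonneg _) h0
  rw [← integral_prod _ hint, integral_prod_symm _ hint]
  apply integral_nonneg
  intro z
  simp only
  rw [integral_prod_mul (fun x => k x z) (fun y => k y z)]
  exact mul_self_nonneg _

end Pool.Agent.R257.Torus
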