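import Pool.Agent.R257.TorusDefs

set_option autoImplicit false

open MeasureTheory Set

namespace Pool.Agent.R257.Torus

theorem sqrt_two_rpow (α : ℝ) : (Real.sqrt 2) ^ α = (2 : ℝ) ^ (α / 2) := by
  rw [Real.sqrt_eq_rpow, ← Real.rpow_mul (by norm_num)]
  congr 1; ring

theorem conv2 {α : ℝ} (hα : 1 ≤ α) {x y t : ℝ} (hx : 0 ≤ x) (hy : 0 ≤ y) (h0 : 0 ≤ t)
    (h1 : t ≤ 1) : ((1 - t) * x + t * y) ^ α ≤ (1 - t) * x ^ α + t * y ^ α := by
  have := (convexOn_rpow hα).2 (mem_Ici.2 hx) (mem_Ici.2 hy) (by linarith : 0 ≤ 1 - t) h0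
    (by ring)
  simpa [smul_eq_mul] using this

/-- The upper bound for the rescaled kernel. -/
noncomputable def Fst (α S T : ℝ) : ℝ := S + T - (2 - 2 ^ (α / 2)) * S * T

theorem step2 {α : ℝ} (hα : 1 ≤ α) {T : ℝ} (h0 : 0 ≤ T) (h1 : T ≤ 1) :
    (Real.sqrt (1 + T ^ 2)) ^ α ≤ (1 - T) + T * 2 ^ (α / 2) := by
  have h4 : Real.sqrt (1 + T ^ 2) ≤ (1 - T) * 1 + T * Real.sqrt 2 := by
    apply Real.sqrt_le_iff.2
    have h2 : 1 ≤ Real.sqrt 2 := by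
      rw [Real.one_le_sqrt]; norm_num
    have h3 : Real.sqrt 2 ^ 2 = 2 := Real.sq_sqrt (by norm_num)
    constructor
    · have : 0 ≤ T * Real.sqrt 2 := by positivity
      linarith
    · have h5 : 0 ≤ T * (1 - T) * (Real.sqrt 2 - 1) :=
        mul_nonneg (mul_nonneg h0 (by linarith)) (by linarith)
      nlinarith [h5, h3]
  calc (Real.sqrt (1 + T ^ 2)) ^ α ≤ ((1 - T) * 1 + T * Real.sqrt 2) ^ α :=
        Real.rpow_le_rpow (Real.sqrt_nonneg _) h4 (by linarith)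
    _ ≤ (1 - T) * 1 ^ α + T * (Real.sqrt 2) ^ α := conv2 hα zero_le_one (Real.sqrt_nonneg _) h0 h1
    _ = (1 - T) + T * 2 ^ (α / 2) := by rw [Real.one_rpow, sqrt_two_rpow, mul_one]

theorem step3 {α : ℝ} (hα : 1 ≤ α) {S T : ℝ} (hS0 : 0 ≤ S) (hS1 : S ≤ 1) (h0 : 0 ≤ T)
    (h1 : T ≤ 1) : ((1 - S) * T + S * Real.sqrt (1 + T ^ 2)) ^ α ≤ Fst α S T := by
  have e1 : T ^ α ≤ T := by
    calc T ^ α ≤ T ^ (1 : ℝ) := by
          apply Real.rpow_le_rpow_of_exponent_ge' h0 h1 (by norm_num) hα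
      _ = T := Real.rpow_one T
  calc ((1 - S) * T + S * Real.sqrt (1 + T ^ 2)) ^ α
      ≤ (1 - S) * T ^ α + S * (Real.sqrt (1 + T ^ 2)) ^ α :=
        conv2 hα h0 (Real.sqrt_nonneg _) hS0 hS1
    _ ≤ (1 - S) * T + S * ((1 - T) + T * 2 ^ (α / 2)) := by
        apply add_le_add
        · exact mul_le_mul_of_nonneg_left e1 (by linarith)
        · exact mul_le_mul_of_nonneg_left (step2 hα h0 h1) hS0
    _ = Fst α S T := by unfold Fst; ring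

theorem step1 {S T : ℝ} (hS0 : 0 ≤ S) (hS1 : S ≤ 1) (h0 : 0 ≤ T) :
    Real.sqrt (S ^ 2 + T ^ 2) ≤ (1 - S) * T + S * Real.sqrt (1 + T ^ 2) := by
  have h2 : T ≤ Real.sqrt (1 + T ^ 2) := by
    apply Real.le_sqrt_of_sq_le; linarith
  have h3 : Real.sqrt (1 + T ^ 2) ^ 2 = 1 + T ^ 2 := Real.sq_sqrt (by positivity)
  apply Real.sqrt_le_iff.2
  constructor
  · have := mul_nonneg (by linarith : 0 ≤ 1 - S) h0
    have := mul_nonneg hS0 (Real.sqrt_nonneg (1 + T ^ 2))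
    linarith
  · have h5 : 0 ≤ S * (1 - S) * (T * (Real.sqrt (1 + T ^ 2) - T)) :=
      mul_nonneg (mul_nonneg hS0 (by linarith)) (mul_nonneg h0 (by linarith))
    nlinarith [h5, h3]

theorem step1' {S T : ℝ} (hS0 : 0 < S) (hS1 : S < 1) (h0 : 0 < T) :
    Real.sqrt (S ^ 2 + T ^ 2) < (1 - S) * T + S * Real.sqrt (1 + T ^ 2) := by
  have h2 : T < Real.sqrt (1 + T ^ 2) := by
    apply Real.lt_sqrt_of_sq_lt; linarith
  have h3 : Real.sqrt (1 + T ^ 2) ^ 2 = 1 + T ^ 2 := Real.sq_sqrt (by positivity)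
  have h6 := mul_pos (by linarith : 0 < 1 - S) h0
  have h7 := mul_nonneg hS0.le (Real.sqrt_nonneg (1 + T ^ 2))
  apply (Real.sqrt_lt' (by linarith)).2
  have h5 : 0 < S * (1 - S) * (T * (Real.sqrt (1 + T ^ 2) - T)) :=
    mul_pos (mul_pos hS0 (by linarith)) (mul_pos h0 (by linarith))
  nlinarith [h5, h3]

theorem kernel_le {α : ℝ} (hα : 1 ≤ α) {S T : ℝ} (hS0 : 0 ≤ S) (hS1 : S ≤ 1) (h0 : 0 ≤ T)
    (h1 : T ≤ 1) : (Real.sqrt (S ^ 2 + T ^ 2)) ^ α ≤ Fst α S T :=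
  (Real.rpow_le_rpow (Real.sqrt_nonneg _) (step1 hS0 hS1 h0) (by linarith)).trans
    (step3 hα hS0 hS1 h0 h1)

theorem kernel_lt {α : ℝ} (hα : 1 ≤ α) {S T : ℝ} (hS0 : 0 < S) (hS1 : S < 1) (h0 : 0 < T)
    (h1 : T ≤ 1) : (Real.sqrt (S ^ 2 + T ^ 2)) ^ α < Fst α S T :=
  (Real.rpow_lt_rpow (Real.sqrt_nonneg _) (step1' hS0 hS1 h0) (by linarith)).trans_le
    (step3 hα hS0.le hS1.le h0.le h1)

theorem Fst_comm (α S T : ℝ) : Fst α S T = Fst α T S := by unfold Fst; ring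

/-- Equality forces that if one of the coordinates is strictly inside, the other one vanishes. -/
theorem eq_case {α : ℝ} (hα : 1 ≤ α) {S T : ℝ} (hS0 : 0 ≤ S) (hS1 : S ≤ 1) (h0 : 0 ≤ T)
    (h1 : T ≤ 1) (h : (Real.sqrt (S ^ 2 + T ^ 2)) ^ α = Fst α S T) :
    (S = 0 ∨ S = 1 ∨ T = 0) ∧ (T = 0 ∨ T = 1 ∨ S = 0) := by
  constructor
  · by_contra hc
    push Not at hc
    have := kernel_lt hα (lt_of_le_of_ne hS0 (Ne.symm hc.1)) (lt_of_le_of_ne hS1 hc.2.1)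
      (lt_of_le_of_ne h0 (Ne.symm hc.2.2)) h1
    linarith
  · by_contra hc
    push Not at hc
    have := kernel_lt hα (lt_of_le_of_ne h0 (Ne.symm hc.1)) (lt_of_le_of_ne h1 hc.2.1)
      (lt_of_le_of_ne hS0 (Ne.symm hc.2.2)) hS1
    rw [add_comm, Fst_comm α T S] at this
    linarith

theorem eq_case_strict {α : ℝ} (hα : 1 < α) {S T : ℝ} (hS0 : 0 ≤ S) (hS1 : S ≤ 1) (h0 : 0 ≤ T)
    (h1 : T ≤ 1) (h : (Real.sqrt (S ^ 2 + T ^ 2)) ^ α = Fst α S T) :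
    (S = 0 ∨ S = 1) ∧ (T = 0 ∨ T = 1) := by
  have hz : ∀ x : ℝ, 0 ≤ x → x ≤ 1 → x ^ α = x → x = 0 ∨ x = 1 := by
    intro x hx0 hx1 hx
    by_contra hc
    push Not at hc
    have hx0' : 0 < x := lt_of_le_of_ne hx0 (Ne.symm hc.1)
    have hx1' : x < 1 := lt_of_le_of_ne hx1 hc.2
    have := Real.rpow_lt_rpow_of_exponent_gt hx0' hx1' hα
    rw [Real.rpow_one] at this
    linarith
  obtain ⟨c1, c2⟩ := eq_case hα.le hS0 hS1 h0 h1 h
  constructor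
  · rcases c1 with c | c | c
    · exact Or.inl c
    · exact Or.inr c
    · apply hz S hS0 hS1
      subst c
      have e : Real.sqrt (S ^ 2 + 0 ^ 2) = S := by
        rw [zero_pow two_ne_zero, add_zero, Real.sqrt_sq hS0]
      rw [e] at h
      rw [h]; unfold Fst; ring
  · rcases c2 with c | c | c
    · exact Or.inl c
    · exact Or.inr c
    · apply hz T h0 h1
      subst c
      have e : Real.sqrt (0 ^ 2 + T ^ 2) = T := by
        rw [zero_pow two_ne_zero, zero_add, Real.sqrt_sq h0]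
      rw [e] at h
      rw [h]; unfold Fst; ring

/-- The majorant of the kernel in terms of the coordinate distances `u, v ∈ [0, 1/2]`. -/
noncomputable def Fuv (α u v : ℝ) : ℝ :=
  2 ^ (1 - α) * (u + v) - 4 * (2 ^ (1 - α) - 2 ^ (-α / 2)) * (u * v)

theorem Fuv_eq (α u v : ℝ) : Fuv α u v = 2 ^ (-α) * Fst α (2 * u) (2 * v) := by
  unfold Fuv Fst
  have e1 : (2 : ℝ) ^ (1 - α) = 2 * 2 ^ (-α) := by
    rw [sub_eq_add_neg, Real.rpow_add (by norm_num), Real.rpow_one]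
  have e2 : (2 : ℝ) ^ (-α / 2) = 2 ^ (-α) * 2 ^ (α / 2) := by
    rw [← Real.rpow_add (by norm_num)]; congr 1; ring
  rw [e1, e2]
  ring

theorem kuv_eq (α : ℝ) {u v : ℝ} : (Real.sqrt (u ^ 2 + v ^ 2)) ^ α =
    2 ^ (-α) * (Real.sqrt ((2 * u) ^ 2 + (2 * v) ^ 2)) ^ α := by
  have e : Real.sqrt ((2 * u) ^ 2 + (2 * v) ^ 2) = 2 * Real.sqrt (u ^ 2 + v ^ 2) := by
    have : (2 * u) ^ 2 + (2 * v) ^ 2 = 2 ^ 2 * (u ^ 2 + v ^ 2) := by ring
    rw [this, Real.sqrt_mul (by norm_num), Real.sqrt_sq (by norm_num)]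
  rw [e, Real.mul_rpow (by norm_num) (Real.sqrt_nonneg _), ← mul_assoc,
    ← Real.rpow_add (by norm_num)]
  simp

theorem kuv_le {α : ℝ} (hα : 1 ≤ α) {u v : ℝ} (hu0 : 0 ≤ u) (hu1 : u ≤ 1 / 2) (hv0 : 0 ≤ v)
    (hv1 : v ≤ 1 / 2) : (Real.sqrt (u ^ 2 + v ^ 2)) ^ α ≤ Fuv α u v := by
  rw [kuv_eq, Fuv_eq]
  exact mul_le_mul_of_nonneg_left (kernel_le hα (by linarith) (by linarith) (by linarith)
    (by linarith)) (Real.rpow_nonneg (by norm_num) _)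

theorem kuv_eq_case {α : ℝ} (hα : 1 ≤ α) {u v : ℝ} (hu0 : 0 ≤ u) (hu1 : u ≤ 1 / 2) (hv0 : 0 ≤ v)
    (hv1 : v ≤ 1 / 2) (h : (Real.sqrt (u ^ 2 + v ^ 2)) ^ α = Fuv α u v) :
    (u = 0 ∨ u = 1 / 2 ∨ v = 0) ∧ (v = 0 ∨ v = 1 / 2 ∨ u = 0) := by
  rw [kuv_eq, Fuv_eq] at h
  have h' := mul_left_cancel₀ (Real.rpow_pos_of_pos (by norm_num) _).ne' h
  obtain ⟨c1, c2⟩ := eq_case hα (by linarith) (by linarith) (by linarith) (by linarith) h'
  constructor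
  · rcases c1 with c | c | c
    · left; linarith
    · right; left; linarith
    · right; right; linarith
  · rcases c2 with c | c | c
    · left; linarith
    · right; left; linarith
    · right; right; linarith

theorem kuv_eq_case_strict {α : ℝ} (hα : 1 < α) {u v : ℝ} (hu0 : 0 ≤ u) (hu1 : u ≤ 1 / 2)
    (hv0 : 0 ≤ v) (hv1 : v ≤ 1 / 2) (h : (Real.sqrt (u ^ 2 + v ^ 2)) ^ α = Fuv α u v) :
    (u = 0 ∨ u = 1 / 2) ∧ (v = 0 ∨ v = 1 / 2) := by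
  rw [kuv_eq, Fuv_eq] at h
  have h' := mul_left_cancel₀ (Real.rpow_pos_of_pos (by norm_num) _).ne' h
  obtain ⟨c1, c2⟩ := eq_case_strict hα (by linarith) (by linarith) (by linarith) (by linarith) h'
  constructor
  · rcases c1 with c | c
    · left; linarith
    · right; linarith
  · rcases c2 with c | c
    · left; linarith
    · right; linarith

theorem Fuv_decomp (α u v : ℝ) : Fuv α u v = (2 ^ (1 - α) + 2 ^ (-α / 2)) / 4
    - 2 ^ (-α / 2) * ((1 / 4 - u) + (1 / 4 - v))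
    - 4 * (2 ^ (1 - α) - 2 ^ (-α / 2)) * ((1 / 4 - u) * (1 / 4 - v)) := by
  unfold Fuv; ring

theorem coef_nonneg {α : ℝ} (hα : α ≤ 2) : (0 : ℝ) ≤ 2 ^ (1 - α) - 2 ^ (-α / 2) := by
  have : (2 : ℝ) ^ (-α / 2) ≤ 2 ^ (1 - α) :=
    Real.rpow_le_rpow_of_exponent_le (by norm_num) (by linarith)
  linarith

theorem coef_pos {α : ℝ} (hα : α < 2) : (0 : ℝ) < 2 ^ (1 - α) - 2 ^ (-α / 2) := by
  have : (2 : ℝ) ^ (-α / 2) < 2 ^ (1 - α) :=
    Real.rpow_lt_rpow_of_exponent_lt (by norm_num) (by linarith)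
  linarith

theorem coef_neg {α : ℝ} (hα : 2 < α) : (2 : ℝ) ^ (1 - α) - 2 ^ (-α / 2) < 0 := by
  have : (2 : ℝ) ^ (1 - α) < 2 ^ (-α / 2) :=
    Real.rpow_lt_rpow_of_exponent_lt (by norm_num) (by linarith)
  linarith

end Pool.Agent.R257.Torus
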