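import Pool.Agent.R257.Torus1
import Pool.Agent.R257.Torus2

set_option autoImplicit false

open MeasureTheory Set

namespace Pool.Agent.R257.Torus

theorem continuous_rho : Continuous (fun p : Torus × Torus => rho p.1 p.2) := by
  unfold rho
  fun_prop

theorem rho_nonneg (x y : Torus) : 0 ≤ rho x y := Real.sqrt_nonneg _

theorem rho_le_one (x y : Torus) : rho x y ≤ 1 := by
  unfold rho
  apply Real.sqrt_le_iff.2
  have h1 := norm_le_half (x.1 - y.1)
  have h2 := norm_le_half (x.2 - y.2)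
  have h3 := norm_nonneg (x.1 - y.1)
  have h4 := norm_nonneg (x.2 - y.2)
  constructor
  · norm_num
  · nlinarith

theorem rho_comm (x y : Torus) : rho x y = rho y x := by
  unfold rho
  rw [← norm_neg (x.1 - y.1), ← norm_neg (x.2 - y.2), neg_sub, neg_sub]

theorem measurable_K (α : ℝ) : Measurable (fun p : Torus × Torus => rho p.1 p.2 ^ α) :=
  continuous_rho.measurable.pow_const α

theorem K_nonneg (α : ℝ) (x y : Torus) : 0 ≤ rho x y ^ α := Real.rpow_nonneg (rho_nonneg _ _) _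

theorem K_le_one {α : ℝ} (hα : 0 ≤ α) (x y : Torus) : rho x y ^ α ≤ 1 :=
  Real.rpow_le_one (rho_nonneg _ _) (rho_le_one _ _) hα

theorem integrable_K {α : ℝ} (hα : 0 ≤ α) (μ : Measure (Torus × Torus)) [IsFiniteMeasure μ] :
    Integrable (fun p : Torus × Torus => rho p.1 p.2 ^ α) μ := by
  apply Integrable.of_bound (C := 1) (measurable_K α).aestronglyMeasurable
  refine Filter.Eventually.of_forall fun q => ?_
  rw [Real.norm_eq_abs, abs_of_nonneg (K_nonneg _ _ _)]
  exact K_le_one hα _ _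

theorem energy_eq {α : ℝ} (hα : 0 ≤ α) (μ : Measure Torus) [IsFiniteMeasure μ] :
    energy α μ = ∫ p : Torus × Torus, rho p.1 p.2 ^ α ∂(μ.prod μ) := by
  unfold energy
  rw [← integral_prod _ (integrable_K hα (μ.prod μ))]

/-- First and second coordinate distances. -/
noncomputable def uu (p : Torus × Torus) : ℝ := ‖p.1.1 - p.2.1‖
noncomputable def vv (p : Torus × Torus) : ℝ := ‖p.1.2 - p.2.2‖

theorem continuous_uu : Continuous uu := by unfold uu; fun_prop
theorem continuous_vv : Continuous vv := by unfold vv; fun_prop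

theorem uu_nonneg (p) : 0 ≤ uu p := norm_nonneg _
theorem vv_nonneg (p) : 0 ≤ vv p := norm_nonneg _
theorem uu_le (p) : uu p ≤ 1 / 2 := norm_le_half _
theorem vv_le (p) : vv p ≤ 1 / 2 := norm_le_half _

theorem rho_eq (p : Torus × Torus) : rho p.1 p.2 = Real.sqrt (uu p ^ 2 + vv p ^ 2) := rfl

theorem integrable_cont_bdd {f : Torus × Torus → ℝ} (hf : Continuous f) {C : ℝ}
    (hC : ∀ p, |f p| ≤ C) (μ : Measure (Torus × Torus)) [IsFiniteMeasure μ] : Integrable f μ :=
  Integrable.of_bound (C := C) hf.measurable.aestronglyMeasurable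
    (Filter.Eventually.of_forall hC)

theorem integrable_a (μ : Measure (Torus × Torus)) [IsFiniteMeasure μ] :
    Integrable (fun p => 1 / 4 - uu p) μ := by
  apply integrable_cont_bdd (C := 1) (continuous_const.sub continuous_uu)
  intro p
  have := uu_nonneg p
  have := uu_le p
  change |1 / 4 - uu p| ≤ 1
  rw [abs_le]; constructor <;> linarith

theorem integrable_b (μ : Measure (Torus × Torus)) [IsFiniteMeasure μ] :
    Integrable (fun p => 1 / 4 - vv p) μ := by
  apply integrable_cont_bdd (C := 1) (continuous_const.sub continuous_vv)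
  intro p
  have := vv_nonneg p
  have := vv_le p
  change |1 / 4 - vv p| ≤ 1
  rw [abs_le]; constructor <;> linarith

theorem integrable_ab (μ : Measure (Torus × Torus)) [IsFiniteMeasure μ] :
    Integrable (fun p => (1 / 4 - uu p) * (1 / 4 - vv p)) μ := by
  apply integrable_cont_bdd (C := 1) ((continuous_const.sub continuous_uu).mul
    (continuous_const.sub continuous_vv))
  intro p
  have h1 := uu_nonneg p
  have h2 := uu_le p
  have h3 := vv_nonneg p
  have h4 := vv_le p
  have e1 : |1 / 4 - uu p| ≤ 1 := by rw [abs_le]; constructor <;> linarith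
  have e2 : |1 / 4 - vv p| ≤ 1 := by rw [abs_le]; constructor <;> linarith
  change |(1 / 4 - uu p) * (1 / 4 - vv p)| ≤ 1
  rw [abs_mul]
  calc |1 / 4 - uu p| * |1 / 4 - vv p| ≤ 1 * 1 := mul_le_mul e1 e2 (abs_nonneg _) zero_le_one
    _ = 1 := by norm_num

theorem meas_gen {X : Type*} [MeasurableSpace X] {f g : X → UnitAddCircle} (hf : Measurable f)
    (hg : Measurable g) : Measurable (fun x => hh (f x) (g x)) := by
  have h : Measurable (fun x => (f x, g x)) := hf.prodMk hg
  have h2 := Measurable.comp measurable_hh h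
  simpa only [Function.comp_def] using h2

theorem meas1 : Measurable (fun q : Torus × UnitAddCircle => hh q.2 q.1.1) :=
  meas_gen measurable_snd (measurable_fst.comp measurable_fst)

theorem meas2 : Measurable (fun q : Torus × UnitAddCircle => hh q.2 q.1.2) :=
  meas_gen measurable_snd (measurable_snd.comp measurable_fst)

theorem meas12 : Measurable (fun q : Torus × (UnitAddCircle × UnitAddCircle) =>
    hh q.2.1 q.1.1 * hh q.2.2 q.1.2) :=
  (meas_gen (measurable_fst.comp measurable_snd) (measurable_fst.comp measurable_fst)).mul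
    (meas_gen (measurable_snd.comp measurable_snd) (measurable_snd.comp measurable_fst))

theorem Ea_nonneg (μ : Measure Torus) [IsFiniteMeasure μ] :
    0 ≤ ∫ p, (1 / 4 - uu p) ∂(μ.prod μ) := by
  have h := psd_kernel μ (volume : Measure UnitAddCircle) (fun x z => hh z x.1)
    meas1 1 (fun x z => hh_abs_le _ _)
  simpa only [integral_hh_mul, uu] using h

theorem Eb_nonneg (μ : Measure Torus) [IsFiniteMeasure μ] :
    0 ≤ ∫ p, (1 / 4 - vv p) ∂(μ.prod μ) := by
  have h := psd_kernel μ (volume : Measure UnitAddCircle) (fun x z => hh z x.2)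
    meas2 1 (fun x z => hh_abs_le _ _)
  simpa only [integral_hh_mul, vv] using h

theorem Eab_nonneg (μ : Measure Torus) [IsFiniteMeasure μ] :
    0 ≤ ∫ p, (1 / 4 - uu p) * (1 / 4 - vv p) ∂(μ.prod μ) := by
  have h := psd_kernel μ (volume : Measure (UnitAddCircle × UnitAddCircle))
    (fun x z => hh z.1 x.1 * hh z.2 x.2) meas12 1
    (fun x z => by
      rw [abs_mul]
      calc |hh z.1 x.1| * |hh z.2 x.2| ≤ 1 * 1 :=
            mul_le_mul (hh_abs_le _ _) (hh_abs_le _ _) (abs_nonneg _) zero_le_one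
        _ = 1 := by norm_num)
  have e : ∀ p : Torus × Torus, ∫ z : UnitAddCircle × UnitAddCircle,
      hh z.1 p.1.1 * hh z.2 p.1.2 * (hh z.1 p.2.1 * hh z.2 p.2.2) =
      (1 / 4 - uu p) * (1 / 4 - vv p) := by
    intro p
    have e1 : ∀ z : UnitAddCircle × UnitAddCircle,
        hh z.1 p.1.1 * hh z.2 p.1.2 * (hh z.1 p.2.1 * hh z.2 p.2.2) =
        (hh z.1 p.1.1 * hh z.1 p.2.1) * (hh z.2 p.1.2 * hh z.2 p.2.2) := fun z => by ring
    simp_rw [e1]
    rw [Measure.volume_eq_prod,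
      integral_prod_mul (fun z => hh z p.1.1 * hh z p.2.1) (fun z => hh z p.1.2 * hh z p.2.2),
      integral_hh_mul, integral_hh_mul]
    rfl
  simpa only [e] using h

/-- The maximal value for `1 ≤ α ≤ 2`. -/
noncomputable def c0 (α : ℝ) : ℝ := (2 ^ (1 - α) + 2 ^ (-α / 2)) / 4

theorem integral_F (α : ℝ) (μ : Measure Torus) [IsProbabilityMeasure μ] :
    ∫ p, Fuv α (uu p) (vv p) ∂(μ.prod μ) = c0 α
      - 2 ^ (-α / 2) * (∫ p, (1 / 4 - uu p) ∂(μ.prod μ) + ∫ p, (1 / 4 - vv p) ∂(μ.prod μ))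
      - 4 * (2 ^ (1 - α) - 2 ^ (-α / 2)) *
        ∫ p, (1 / 4 - uu p) * (1 / 4 - vv p) ∂(μ.prod μ) := by
  have ia := integrable_a (μ.prod μ)
  have ib := integrable_b (μ.prod μ)
  have iab := integrable_ab (μ.prod μ)
  simp_rw [Fuv_decomp]
  rw [integral_sub, integral_sub, integral_const_mul, integral_const_mul, integral_add ia ib]
  · simp [c0]
  · exact integrable_const _
  · exact (ia.add ib).const_mul _
  · exact (integrable_const _).sub ((ia.add ib).const_mul _)
  · exact iab.const_mul _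

theorem integrable_F (α : ℝ) (μ : Measure (Torus × Torus)) [IsFiniteMeasure μ] :
    Integrable (fun p => Fuv α (uu p) (vv p)) μ := by
  simp_rw [Fuv_decomp]
  exact ((integrable_const _).sub (((integrable_a μ).add (integrable_b μ)).const_mul _)).sub
    ((integrable_ab μ).const_mul _)

theorem energy_le {α : ℝ} (h1 : 1 ≤ α) (h2 : α ≤ 2) (μ : Measure Torus) [IsProbabilityMeasure μ] :
    energy α μ ≤ c0 α := by
  rw [energy_eq (by linarith)]
  calc ∫ p : Torus × Torus, rho p.1 p.2 ^ α ∂(μ.prod μ)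
      ≤ ∫ p, Fuv α (uu p) (vv p) ∂(μ.prod μ) := by
        apply integral_mono (integrable_K (by linarith) _) (integrable_F α _)
        intro p
        simp only
        rw [rho_eq]
        exact kuv_le h1 (uu_nonneg _) (uu_le _) (vv_nonneg _) (vv_le _)
    _ ≤ c0 α := by
        rw [integral_F]
        have e1 := Ea_nonneg μ
        have e2 := Eb_nonneg μ
        have e3 := Eab_nonneg μ
        have e4 := mul_nonneg (Real.rpow_nonneg (by norm_num : (0 : ℝ) ≤ 2) (-α / 2))
          (add_nonneg e1 e2)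
        have e5 := mul_nonneg (mul_nonneg (by norm_num : (0 : ℝ) ≤ 4) (coef_nonneg h2)) e3
        linarith

theorem energy_eq_case {α : ℝ} (h1 : 1 ≤ α) (h2 : α ≤ 2) (μ : Measure Torus)
    [IsProbabilityMeasure μ] (h : energy α μ = c0 α) :
    (∀ᵐ p ∂(μ.prod μ), (Real.sqrt (uu p ^ 2 + vv p ^ 2)) ^ α = Fuv α (uu p) (vv p)) ∧
    ∫ p, (1 / 4 - uu p) ∂(μ.prod μ) = 0 ∧ ∫ p, (1 / 4 - vv p) ∂(μ.prod μ) = 0 := by
  rw [energy_eq (by linarith)] at h
  have hle : ∀ p : Torus × Torus, rho p.1 p.2 ^ α ≤ Fuv α (uu p) (vv p) := by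
    intro p
    rw [rho_eq]
    exact kuv_le h1 (uu_nonneg _) (uu_le _) (vv_nonneg _) (vv_le _)
  have hm := integral_mono (integrable_K (by linarith) (μ.prod μ)) (integrable_F α (μ.prod μ)) hle
  have e1 := Ea_nonneg μ
  have e2 := Eb_nonneg μ
  have e3 := Eab_nonneg μ
  have e6 : (0 : ℝ) < 2 ^ (-α / 2) := Real.rpow_pos_of_pos (by norm_num) _
  have e4 := mul_nonneg e6.le (add_nonneg e1 e2)
  have e5 := mul_nonneg (mul_nonneg (by norm_num : (0 : ℝ) ≤ 4) (coef_nonneg h2)) e3
  have hF := integral_F α μ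
  have e7 : 2 ^ (-α / 2) * (∫ p, (1 / 4 - uu p) ∂(μ.prod μ) + ∫ p, (1 / 4 - vv p) ∂(μ.prod μ)) = 0 := by
    linarith
  have e8 := (mul_eq_zero.1 e7).resolve_left e6.ne'
  refine ⟨?_, by linarith, by linarith⟩
  have hd : ∫ p, (Fuv α (uu p) (vv p) - rho p.1 p.2 ^ α) ∂(μ.prod μ) = 0 := by
    rw [integral_sub (integrable_F α _) (integrable_K (by linarith) _)]
    linarith
  have h9 := (integral_eq_zero_iff_of_nonneg (fun p => sub_nonneg.2 (hle p))
    ((integrable_F α _).sub (integrable_K (by linarith) _))).1 hd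
  filter_upwards [h9] with p hp
  simp only [Pi.zero_apply] at hp
  rw [← rho_eq]
  linarith

theorem half_add_half : half + half = 0 := by
  unfold half
  rw [← AddCircle.coe_add]
  norm_num

theorem neg_half : -half = half := by
  rw [neg_eq_iff_add_eq_zero, half_add_half]

theorem norm_half : ‖half‖ = 1 / 2 := by
  unfold half
  rw [norm_coe_of_abs_le]
  · rw [abs_of_pos (by norm_num)]
  · rw [abs_of_pos (by norm_num)]

theorem half_ne_zero : half ≠ 0 := by
  intro h
  have := norm_half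
  rw [h, norm_zero] at this
  norm_num at this

theorem eq_half_of_norm {z : UnitAddCircle} (h : ‖z‖ = 1 / 2) : z = half := by
  obtain ⟨a, ha, haz, hn⟩ := exists_lift z
  rw [hn] at h
  rcases abs_cases a with ⟨h1, -⟩ | ⟨h1, -⟩
  · rw [h1] at h
    rw [← haz, h]; rfl
  · rw [h1] at h
    have : a = -(1 / 2) := by linarith
    rw [← haz, this, AddCircle.coe_neg]
    exact neg_half

theorem mem_grid {z : UnitAddCircle} : (‖z‖ = 0 ∨ ‖z‖ = 1 / 2) ↔ (z = 0 ∨ z = half) := by
  constructor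
  · rintro (h | h)
    · left; exact norm_eq_zero.1 h
    · right; exact eq_half_of_norm h
  · rintro (h | h)
    · left; rw [h, norm_zero]
    · right; rw [h, norm_half]

theorem grid_sub {z w : UnitAddCircle} (hz : z = 0 ∨ z = half) (hw : w = 0 ∨ w = half) :
    z - w = 0 ∨ z - w = half := by
  rcases hz with rfl | rfl <;> rcases hw with rfl | rfl
  · left; simp
  · right; simp [neg_half]
  · right; simp
  · left; simp

/-- The combinatorial argument for `α = 1`, for the first coordinate. -/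
theorem no_line {μ : Measure Torus} [IsProbabilityMeasure μ] {x0 y0 : Torus}
    (hv : vv (x0, y0) = 0) (hu : ¬ (uu (x0, y0) = 0 ∨ uu (x0, y0) = 1 / 2))
    (hx : ∀ᵐ z ∂μ, (uu (x0, z) = 0 ∨ uu (x0, z) = 1 / 2 ∨ vv (x0, z) = 0))
    (hy : ∀ᵐ z ∂μ, (uu (y0, z) = 0 ∨ uu (y0, z) = 1 / 2 ∨ vv (y0, z) = 0)) :
    ∀ᵐ z ∂μ, z.2 = x0.2 := by
  have h0 : x0.2 = y0.2 := by
    unfold vv at hv
    exact sub_eq_zero.1 (norm_eq_zero.1 hv)
  filter_upwards [hx, hy] with z h1 h2
  by_contra hc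
  have h3 : vv (x0, z) ≠ 0 := by
    unfold vv
    intro h
    exact hc (sub_eq_zero.1 (norm_eq_zero.1 h)).symm
  have h4 : vv (y0, z) ≠ 0 := by
    unfold vv
    intro h
    apply hc
    simp only at h
    rw [h0]
    exact (sub_eq_zero.1 (norm_eq_zero.1 h)).symm
  have h5 : uu (x0, z) = 0 ∨ uu (x0, z) = 1 / 2 := by
    rcases h1 with h | h | h
    · exact Or.inl h
    · exact Or.inr h
    · exact absurd h h3
  have h6 : uu (y0, z) = 0 ∨ uu (y0, z) = 1 / 2 := by
    rcases h2 with h | h | h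
    · exact Or.inl h
    · exact Or.inr h
    · exact absurd h h4
  have h7 := grid_sub (mem_grid.1 h5) (mem_grid.1 h6)
  apply hu
  unfold uu
  apply mem_grid.2
  simp only at h7 ⊢
  have e : x0.1 - y0.1 = x0.1 - z.1 - (y0.1 - z.1) := by abel
  rw [e]
  exact h7

theorem no_line' {μ : Measure Torus} [IsProbabilityMeasure μ] {x0 y0 : Torus}
    (hv : uu (x0, y0) = 0) (hu : ¬ (vv (x0, y0) = 0 ∨ vv (x0, y0) = 1 / 2))
    (hx : ∀ᵐ z ∂μ, (vv (x0, z) = 0 ∨ vv (x0, z) = 1 / 2 ∨ uu (x0, z) = 0))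
    (hy : ∀ᵐ z ∂μ, (vv (y0, z) = 0 ∨ vv (y0, z) = 1 / 2 ∨ uu (y0, z) = 0)) :
    ∀ᵐ z ∂μ, z.1 = x0.1 := by
  have h0 : x0.1 = y0.1 := by
    unfold uu at hv
    exact sub_eq_zero.1 (norm_eq_zero.1 hv)
  filter_upwards [hx, hy] with z h1 h2
  by_contra hc
  have h3 : uu (x0, z) ≠ 0 := by
    unfold uu
    intro h
    exact hc (sub_eq_zero.1 (norm_eq_zero.1 h)).symm
  have h4 : uu (y0, z) ≠ 0 := by
    unfold uu
    intro h
    apply hc
    simp only at h
    rw [h0]
    exact (sub_eq_zero.1 (norm_eq_zero.1 h)).symm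
  have h5 : vv (x0, z) = 0 ∨ vv (x0, z) = 1 / 2 := by
    rcases h1 with h | h | h
    · exact Or.inl h
    · exact Or.inr h
    · exact absurd h h3
  have h6 : vv (y0, z) = 0 ∨ vv (y0, z) = 1 / 2 := by
    rcases h2 with h | h | h
    · exact Or.inl h
    · exact Or.inr h
    · exact absurd h h4
  have h7 := grid_sub (mem_grid.1 h5) (mem_grid.1 h6)
  apply hu
  unfold vv
  apply mem_grid.2
  simp only at h7 ⊢
  have e : x0.2 - y0.2 = x0.2 - z.2 - (y0.2 - z.2) := by abel
  rw [e]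
  exact h7

theorem const_case {μ : Measure Torus} [IsProbabilityMeasure μ] {c : UnitAddCircle}
    (h : ∀ᵐ z ∂μ, z.2 = c) (h5 : ∫ p, (1 / 4 - vv p) ∂(μ.prod μ) = 0) : False := by
  rw [integral_prod _ (integrable_b _)] at h5
  have e : ∀ᵐ x ∂μ, ∫ y, (1 / 4 - vv (x, y)) ∂μ = 1 / 4 := by
    filter_upwards [h] with x hx
    have e2 : ∀ᵐ y ∂μ, (1 / 4 - vv (x, y)) = 1 / 4 := by
      filter_upwards [h] with y hy
      unfold vv
      simp [hx, hy]
    rw [integral_congr_ae e2]
    simp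
  rw [integral_congr_ae e] at h5
  simp at h5

theorem const_case' {μ : Measure Torus} [IsProbabilityMeasure μ] {c : UnitAddCircle}
    (h : ∀ᵐ z ∂μ, z.1 = c) (h5 : ∫ p, (1 / 4 - uu p) ∂(μ.prod μ) = 0) : False := by
  rw [integral_prod _ (integrable_a _)] at h5
  have e : ∀ᵐ x ∂μ, ∫ y, (1 / 4 - uu (x, y)) ∂μ = 1 / 4 := by
    filter_upwards [h] with x hx
    have e2 : ∀ᵐ y ∂μ, (1 / 4 - uu (x, y)) = 1 / 4 := by
      filter_upwards [h] with y hy
      unfold uu
      simp [hx, hy]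
    rw [integral_congr_ae e2]
    simp
  rw [integral_congr_ae e] at h5
  simp at h5

/-- For a measure with maximal energy, almost all differences are in `{0, 1/2}²`. -/
theorem ae_grid {α : ℝ} (h1 : 1 ≤ α) (h2 : α ≤ 2) (μ : Measure Torus)
    [IsProbabilityMeasure μ] (h : energy α μ = c0 α) :
    ∀ᵐ x ∂μ, ∀ᵐ y ∂μ, (uu (x, y) = 0 ∨ uu (x, y) = 1 / 2) ∧ (vv (x, y) = 0 ∨ vv (x, y) = 1 / 2) := by
  obtain ⟨h3, h4, h5⟩ := energy_eq_case h1 h2 μ h
  rcases eq_or_lt_of_le h1 with rfl | h1'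
  · -- `α = 1`
    have h6 : ∀ᵐ x ∂μ, ∀ᵐ y ∂μ, (uu (x, y) = 0 ∨ uu (x, y) = 1 / 2 ∨ vv (x, y) = 0) ∧
        (vv (x, y) = 0 ∨ vv (x, y) = 1 / 2 ∨ uu (x, y) = 0) := by
      apply Measure.ae_ae_of_ae_prod (p := fun p => (uu p = 0 ∨ uu p = 1 / 2 ∨ vv p = 0) ∧
        (vv p = 0 ∨ vv p = 1 / 2 ∨ uu p = 0))
      filter_upwards [h3] with p hp
      exact kuv_eq_case le_rfl (uu_nonneg _) (uu_le _) (vv_nonneg _) (vv_le _) hp
    by_contra hc
    rw [Filter.not_eventually] at hc
    obtain ⟨x0, hx1, hx2⟩ := (hc.and_eventually h6).exists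
    rw [Filter.not_eventually] at hx1
    obtain ⟨y0, ⟨hy1, hy2⟩, hy3⟩ := ((hx1.and_eventually hx2).and_eventually h6).exists
    by_cases hu : uu (x0, y0) = 0 ∨ uu (x0, y0) = 1 / 2
    · have hv : ¬ (vv (x0, y0) = 0 ∨ vv (x0, y0) = 1 / 2) := fun h => hy1 ⟨hu, h⟩
      have hu0 : uu (x0, y0) = 0 := by
        rcases hy2.2 with c | c | c
        · exact absurd (Or.inl c) hv
        · exact absurd (Or.inr c) hv
        · exact c
      exact const_case' (no_line' hu0 hv (hx2.mono fun z hz => hz.2) (hy3.mono fun z hz => hz.2)) h4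
    · have hv0 : vv (x0, y0) = 0 := by
        rcases hy2.1 with c | c | c
        · exact absurd (Or.inl c) hu
        · exact absurd (Or.inr c) hu
        · exact c
      exact const_case (no_line hv0 hu (hx2.mono fun z hz => hz.1) (hy3.mono fun z hz => hz.1)) h5
  · apply Measure.ae_ae_of_ae_prod (p := fun p => (uu p = 0 ∨ uu p = 1 / 2) ∧
      (vv p = 0 ∨ vv p = 1 / 2))
    filter_upwards [h3] with p hp
    exact kuv_eq_case_strict h1' (uu_nonneg _) (uu_le _) (vv_nonneg _) (vv_le _) hp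

end Pool.Agent.R257.Torus
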