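import Pool.Agent.R257.Torus3

set_option autoImplicit false

open MeasureTheory Set

namespace Pool.Agent.R257.Torus

/-- The four points of `{0, 1/2}²`. -/
noncomputable def G : Fin 4 → Torus := ![(0, 0), (half, 0), (0, half), (half, half)]

/-- The measure with the weights `w` on the coset `p + {0, 1/2}²`. -/
noncomputable def cm (p : Torus) (w : Fin 4 → ℝ) : Measure Torus :=
  ∑ i, ENNReal.ofReal (w i) • Measure.dirac (p + G i)

theorem integral_cm (p : Torus) {w : Fin 4 → ℝ} (hw : ∀ i, 0 ≤ w i) (f : Torus → ℝ) :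
    ∫ x, f x ∂(cm p w) = ∑ i, w i * f (p + G i) := by
  unfold cm
  rw [integral_finsetSum_measure]
  · apply Finset.sum_congr rfl
    intro i _
    rw [integral_smul_measure, integral_dirac, ENNReal.toReal_ofReal (hw i), smul_eq_mul]
  · intro i _
    apply Integrable.smul_measure _ ENNReal.ofReal_ne_top
    exact integrable_dirac (by simp)

theorem cm_univ (p : Torus) {w : Fin 4 → ℝ} (hw : ∀ i, 0 ≤ w i) :
    cm p w univ = ENNReal.ofReal (∑ i, w i) := by
  unfold cm
  rw [Measure.finsetSum_apply, ENNReal.ofReal_sum_of_nonneg (fun i _ => hw i)]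
  apply Finset.sum_congr rfl
  intro i _
  simp

theorem isProb_cm (p : Torus) {w : Fin 4 → ℝ} (hw : ∀ i, 0 ≤ w i) (h1 : ∑ i, w i = 1) :
    IsProbabilityMeasure (cm p w) := ⟨by rw [cm_univ p hw, h1, ENNReal.ofReal_one]⟩

theorem rho_add (p x y : Torus) : rho (p + x) (p + y) = rho x y := by
  unfold rho
  simp only [Prod.fst_add, Prod.snd_add, add_sub_add_left_eq_sub]

theorem rho00 (x : Torus) : rho x x = 0 := by
  unfold rho; simp

theorem energy_cm {α : ℝ} (hα : 0 < α) (p : Torus) {w : Fin 4 → ℝ} (hw : ∀ i, 0 ≤ w i) :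
    energy α (cm p w) = 2 * ((w 0 * w 1 + w 2 * w 3) * 2 ^ (-α) + (w 0 * w 2 + w 1 * w 3) * 2 ^ (-α)
      + (w 0 * w 3 + w 1 * w 2) * 2 ^ (-α / 2)) := by
  unfold energy
  simp_rw [integral_cm p hw, rho_add]
  have hA : ∀ x y : Torus, rho x y = 1 / 2 → rho x y ^ α = 2 ^ (-α) := by
    intro x y h
    rw [h, Real.rpow_neg (by norm_num), one_div, Real.inv_rpow (by norm_num)]
  have hB : ∀ x y : Torus, rho x y = Real.sqrt (1 / 2) → rho x y ^ α = 2 ^ (-α / 2) := by
    intro x y h
    rw [h, Real.sqrt_eq_rpow, ← Real.rpow_mul (by norm_num), one_div, Real.inv_rpow (by norm_num),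
      ← Real.rpow_neg (by norm_num)]
    congr 1; ring
  have hz : ∀ x : Torus, rho x x ^ α = 0 := by
    intro x
    rw [rho00, Real.zero_rpow hα.ne']
  have e01 : rho (G 0) (G 1) = 1 / 2 := by
    simp [rho, G, norm_half, Real.sqrt_sq]
  have e02 : rho (G 0) (G 2) = 1 / 2 := by
    simp [rho, G, norm_half, Real.sqrt_sq]
  have e03 : rho (G 0) (G 3) = Real.sqrt (1 / 2) := by
    simp only [rho, G]
    congr 1
    simp [norm_half]
    norm_num
  have e12 : rho (G 1) (G 2) = Real.sqrt (1 / 2) := by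
    simp only [rho, G]
    congr 1
    simp [norm_half]
    norm_num
  have e13 : rho (G 1) (G 3) = 1 / 2 := by
    simp [rho, G, norm_half, Real.sqrt_sq]
  have e23 : rho (G 2) (G 3) = 1 / 2 := by
    simp [rho, G, norm_half, Real.sqrt_sq]
  simp only [Fin.sum_univ_four]
  rw [hz, hz, hz, hz, rho_comm (G 1) (G 0), rho_comm (G 2) (G 0), rho_comm (G 3) (G 0),
    rho_comm (G 2) (G 1), rho_comm (G 3) (G 1), rho_comm (G 3) (G 2), hA _ _ e01, hA _ _ e02,
    hB _ _ e03, hB _ _ e12, hA _ _ e13, hA _ _ e23]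
  ring

theorem two_A (α : ℝ) : (2 : ℝ) ^ (1 - α) = 2 * 2 ^ (-α) := by
  rw [sub_eq_add_neg, Real.rpow_add (by norm_num), Real.rpow_one]

theorem energy_cm' {α : ℝ} (hα : 0 < α) (p : Torus) {w : Fin 4 → ℝ} (hw : ∀ i, 0 ≤ w i)
    (h1 : ∑ i, w i = 1) :
    energy α (cm p w) = c0 α
      - 2 ^ (-α / 2) / 4 * ((w 0 + w 2 - w 1 - w 3) ^ 2 + (w 0 + w 1 - w 2 - w 3) ^ 2)
      - (2 ^ (1 - α) - 2 ^ (-α / 2)) / 4 * (w 0 + w 3 - w 1 - w 2) ^ 2 := by
  rw [energy_cm hα p hw, c0, two_A]
  rw [Fin.sum_univ_four] at h1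
  have h2 : w 0 = 1 - w 1 - w 2 - w 3 := by linarith
  rw [h2]
  ring

theorem exists_cm {μ : Measure Torus} [IsProbabilityMeasure μ] {x0 : Torus}
    (h : ∀ᵐ y ∂μ, (uu (x0, y) = 0 ∨ uu (x0, y) = 1 / 2) ∧ (vv (x0, y) = 0 ∨ vv (x0, y) = 1 / 2)) :
    ∃ w : Fin 4 → ℝ, (∀ i, 0 ≤ w i) ∧ ∑ i, w i = 1 ∧ μ = cm x0 w := by
  have hmem : ∀ᵐ y ∂μ, y ∈ (({x0 + G 0} ∪ {x0 + G 1}) ∪ {x0 + G 2}) ∪ ({x0 + G 3} : Set Torus) := by
    filter_upwards [h] with y ⟨hu, hv⟩
    have h1 := mem_grid.1 hu
    have h2 := mem_grid.1 hv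
    simp only at h1 h2
    have k1 : y.1 = x0.1 ∨ y.1 = x0.1 + half := by
      rcases h1 with h | h
      · left; exact (sub_eq_zero.1 h).symm
      · right
        rw [sub_eq_iff_eq_add] at h
        rw [h, add_comm half y.1, add_assoc, half_add_half, add_zero]
    have k2 : y.2 = x0.2 ∨ y.2 = x0.2 + half := by
      rcases h2 with h | h
      · left; exact (sub_eq_zero.1 h).symm
      · right
        rw [sub_eq_iff_eq_add] at h
        rw [h, add_comm half y.2, add_assoc, half_add_half, add_zero]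
    simp only [mem_union, mem_singleton_iff, Prod.ext_iff, G]
    rcases k1 with k1 | k1 <;> rcases k2 with k2 | k2 <;> simp [k1, k2]
  have hr := Measure.restrict_eq_self_of_ae_mem hmem
  have ne : ∀ i j : Fin 4, i ≠ j → x0 + G i ≠ x0 + G j := by
    intro i j hij hc
    have hc' := add_left_cancel hc
    have hn := half_ne_zero
    fin_cases i <;> fin_cases j <;> simp_all [G, Prod.ext_iff, eq_comm]
  rw [Measure.restrict_union _ (measurableSet_singleton _),
    Measure.restrict_union _ (measurableSet_singleton _),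
    Measure.restrict_union _ (measurableSet_singleton _),
    Measure.restrict_singleton, Measure.restrict_singleton, Measure.restrict_singleton,
    Measure.restrict_singleton] at hr
  · have hμ : μ = cm x0 (fun i => μ.real {x0 + G i}) := by
      rw [cm, Fin.sum_univ_four]
      simp only [Measure.real]
      rw [ENNReal.ofReal_toReal (measure_ne_top _ _), ENNReal.ofReal_toReal (measure_ne_top _ _),
        ENNReal.ofReal_toReal (measure_ne_top _ _), ENNReal.ofReal_toReal (measure_ne_top _ _)]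
      exact hr.symm
    refine ⟨fun i => μ.real {x0 + G i}, fun i => measureReal_nonneg, ?_, hμ⟩
    have h1 : μ univ = 1 := measure_univ
    rw [hμ, cm_univ x0 (fun i => measureReal_nonneg)] at h1
    have h2 := congrArg ENNReal.toReal h1
    rw [ENNReal.toReal_ofReal (Finset.sum_nonneg fun i _ => measureReal_nonneg)] at h2
    simpa using h2
  · simp only [disjoint_singleton_right, mem_singleton_iff]
    exact fun h => ne 1 0 (by decide) h
  · simp only [disjoint_singleton_right, mem_union, mem_singleton_iff, not_or]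
    exact ⟨ne 2 0 (by decide), ne 2 1 (by decide)⟩
  · simp only [disjoint_singleton_right, mem_union, mem_singleton_iff, not_or]
    exact ⟨⟨ne 3 0 (by decide), ne 3 1 (by decide)⟩, ne 3 2 (by decide)⟩

end Pool.Agent.R257.Torus
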