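import Pool.Agent.R257.Torus4

set_option autoImplicit false

open MeasureTheory Set

namespace Pool.Agent.R257.Torus

theorem quad_eq (p : Torus) : quad p = cm p (fun _ => 1 / 4) := by
  unfold quad cm
  rw [Fin.sum_univ_four]
  have e : ENNReal.ofReal (1 / 4) = (1 / 4 : ENNReal) := by
    rw [ENNReal.ofReal_div_of_pos (by norm_num)]
    simp
  rw [e]
  have : p + G 0 = p := by simp [G]
  rw [this]
  rfl

theorem nu_eq (p : Torus) : nu p = cm p ![1 / 2, 0, 0, 1 / 2] := by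
  unfold nu cm
  rw [Fin.sum_univ_four]
  have e : ENNReal.ofReal (1 / 2) = (1 / 2 : ENNReal) := by
    rw [ENNReal.ofReal_div_of_pos (by norm_num)]
    simp
  have : p + G 0 = p := by simp [G]
  rw [this]
  simp [e, G]

theorem mix_eq (p : Torus) {t : ℝ} (h0 : 0 ≤ t) (h1 : t ≤ 1) :
    ENNReal.ofReal t • nu p + ENNReal.ofReal (1 - t) • nu (p + (half, 0)) =
      cm p ![t / 2, (1 - t) / 2, (1 - t) / 2, t / 2] := by
  unfold nu cm
  rw [Fin.sum_univ_four]
  have e : ∀ s : ℝ, 0 ≤ s → ENNReal.ofReal (s / 2) = ENNReal.ofReal s * (1 / 2 : ENNReal) := by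
    intro s hs
    rw [ENNReal.ofReal_div_of_pos (by norm_num), div_eq_mul_inv]
    simp
  have e0 : p + G 0 = p := by simp [G]
  have e1 : p + G 1 = p + (half, 0) := by simp [G]
  have e2 : p + G 2 = p + (half, 0) + (half, half) := by
    simp only [G, Matrix.cons_val]
    rw [add_assoc]
    congr 1
    simp [half_add_half]
  have e3 : p + G 3 = p + (half, half) := by simp [G]
  rw [e0, e1, e2, e3]
  simp only [Matrix.cons_val, e t h0, e (1 - t) (by linarith), smul_add, smul_smul]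
  abel

theorem energy_quad {α : ℝ} (hα : 0 < α) (p : Torus) : energy α (quad p) = c0 α := by
  rw [quad_eq, energy_cm' hα p (fun _ => by norm_num) (by simp)]
  ring

theorem isProb_quad (p : Torus) : IsProbabilityMeasure (quad p) := by
  rw [quad_eq]
  exact isProb_cm p (fun _ => by norm_num) (by simp)

theorem nonneg_nuw : ∀ i : Fin 4, (0 : ℝ) ≤ (![1 / 2, 0, 0, 1 / 2] : Fin 4 → ℝ) i := by
  intro i; fin_cases i <;> simp

theorem sum_nuw : ∑ i : Fin 4, (![1 / 2, 0, 0, 1 / 2] : Fin 4 → ℝ) i = 1 := by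
  rw [Fin.sum_univ_four]; simp; norm_num

theorem isProb_nu (p : Torus) : IsProbabilityMeasure (nu p) := by
  rw [nu_eq]
  exact isProb_cm p nonneg_nuw sum_nuw

theorem energy_nu {α : ℝ} (hα : 0 < α) (p : Torus) : energy α (nu p) = 2 ^ (-α / 2) / 2 := by
  rw [nu_eq, energy_cm hα p nonneg_nuw]
  simp
  ring

theorem nonneg_mixw {t : ℝ} (h0 : 0 ≤ t) (h1 : t ≤ 1) : ∀ i : Fin 4,
    (0 : ℝ) ≤ (![t / 2, (1 - t) / 2, (1 - t) / 2, t / 2] : Fin 4 → ℝ) i := by
  intro i; fin_cases i <;> simp <;> linarith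

theorem sum_mixw (t : ℝ) :
    ∑ i : Fin 4, (![t / 2, (1 - t) / 2, (1 - t) / 2, t / 2] : Fin 4 → ℝ) i = 1 := by
  rw [Fin.sum_univ_four]; simp; ring

/-- The regime `1 ≤ α < 2`. -/
theorem maximizer_iff_quad {α : ℝ} (h1 : 1 ≤ α) (h2 : α < 2) (μ : Measure Torus) :
    IsMaximizer α μ ↔ ∃ p, μ = quad p := by
  have hα : 0 < α := by linarith
  constructor
  · rintro ⟨hp, hm⟩
    have he : energy α μ = c0 α := by
      apply le_antisymm (energy_le h1 h2.le μ)
      rw [← energy_quad hα 0]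
      exact hm _ (isProb_quad 0)
    obtain ⟨x0, hx0⟩ := (ae_grid h1 h2.le μ he).exists
    obtain ⟨w, hw, hs, rfl⟩ := exists_cm hx0
    refine ⟨x0, ?_⟩
    rw [energy_cm' hα x0 hw hs] at he
    have hB : (0 : ℝ) < 2 ^ (-α / 2) := Real.rpow_pos_of_pos (by norm_num) _
    have hC := coef_pos h2
    have i1 := mul_nonneg (div_nonneg hB.le (by norm_num : (0 : ℝ) ≤ 4))
      (add_nonneg (sq_nonneg (w 0 + w 2 - w 1 - w 3)) (sq_nonneg (w 0 + w 1 - w 2 - w 3)))
    have i2 := mul_nonneg (div_nonneg hC.le (by norm_num : (0 : ℝ) ≤ 4))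
      (sq_nonneg (w 0 + w 3 - w 1 - w 2))
    have j1 : (w 0 + w 2 - w 1 - w 3) ^ 2 + (w 0 + w 1 - w 2 - w 3) ^ 2 = 0 := by
      have : 2 ^ (-α / 2) / 4 * ((w 0 + w 2 - w 1 - w 3) ^ 2 + (w 0 + w 1 - w 2 - w 3) ^ 2) = 0 := by
        linarith
      exact (mul_eq_zero.1 this).resolve_left (by positivity)
    have j2 : (w 0 + w 3 - w 1 - w 2) ^ 2 = 0 := by
      have : (2 ^ (1 - α) - 2 ^ (-α / 2)) / 4 * (w 0 + w 3 - w 1 - w 2) ^ 2 = 0 := by
        linarith
      exact (mul_eq_zero.1 this).resolve_left (by positivity)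
    have k1 : w 0 + w 2 - w 1 - w 3 = 0 := by
      have := sq_nonneg (w 0 + w 2 - w 1 - w 3)
      have := sq_nonneg (w 0 + w 1 - w 2 - w 3)
      exact pow_eq_zero_iff two_ne_zero |>.1 (by linarith)
    have k2 : w 0 + w 1 - w 2 - w 3 = 0 := by
      have := sq_nonneg (w 0 + w 2 - w 1 - w 3)
      have := sq_nonneg (w 0 + w 1 - w 2 - w 3)
      exact pow_eq_zero_iff two_ne_zero |>.1 (by linarith)
    have k3 : w 0 + w 3 - w 1 - w 2 = 0 := pow_eq_zero_iff two_ne_zero |>.1 j2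
    rw [Fin.sum_univ_four] at hs
    have hw4 : w = fun _ => 1 / 4 := by
      funext i
      fin_cases i <;> simp <;> linarith
    rw [hw4, quad_eq]
  · rintro ⟨p, rfl⟩
    refine ⟨isProb_quad p, fun ν hν => ?_⟩
    rw [energy_quad hα p]
    exact energy_le h1 h2.le ν

theorem c0_two : c0 2 = 1 / 4 := by
  unfold c0
  have e1 : (2 : ℝ) ^ (1 - 2 : ℝ) = 1 / 2 := by
    rw [show (1 - 2 : ℝ) = -1 by norm_num, Real.rpow_neg_one]; norm_num
  have e2 : (2 : ℝ) ^ (-2 / 2 : ℝ) = 1 / 2 := by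
    rw [show (-2 / 2 : ℝ) = -1 by norm_num, Real.rpow_neg_one]; norm_num
  rw [e1, e2]; norm_num

theorem structure_two {μ : Measure Torus} [IsProbabilityMeasure μ] (he : energy 2 μ = c0 2) :
    ∃ p, ∃ t : ℝ, 0 ≤ t ∧ t ≤ 1 ∧ μ = cm p ![t / 2, (1 - t) / 2, (1 - t) / 2, t / 2] := by
  obtain ⟨x0, hx0⟩ := (ae_grid one_le_two le_rfl μ he).exists
  obtain ⟨w, hw, hs, rfl⟩ := exists_cm hx0
  rw [energy_cm' two_pos x0 hw hs] at he
  have hB : (0 : ℝ) < 2 ^ (-2 / 2 : ℝ) := Real.rpow_pos_of_pos (by norm_num) _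
  have hC : (2 : ℝ) ^ (1 - 2 : ℝ) - 2 ^ (-2 / 2 : ℝ) = 0 := by
    rw [show (1 - 2 : ℝ) = -2 / 2 by norm_num, sub_self]
  rw [hC] at he
  have j1 : (w 0 + w 2 - w 1 - w 3) ^ 2 + (w 0 + w 1 - w 2 - w 3) ^ 2 = 0 := by
    have : (2 : ℝ) ^ (-2 / 2 : ℝ) / 4 * ((w 0 + w 2 - w 1 - w 3) ^ 2 +
        (w 0 + w 1 - w 2 - w 3) ^ 2) = 0 := by
      linarith
    exact (mul_eq_zero.1 this).resolve_left (by positivity)
  have k1 : w 0 + w 2 - w 1 - w 3 = 0 := by
    have := sq_nonneg (w 0 + w 2 - w 1 - w 3)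
    have := sq_nonneg (w 0 + w 1 - w 2 - w 3)
    exact pow_eq_zero_iff two_ne_zero |>.1 (by linarith)
  have k2 : w 0 + w 1 - w 2 - w 3 = 0 := by
    have := sq_nonneg (w 0 + w 2 - w 1 - w 3)
    have := sq_nonneg (w 0 + w 1 - w 2 - w 3)
    exact pow_eq_zero_iff two_ne_zero |>.1 (by linarith)
  rw [Fin.sum_univ_four] at hs
  have w0 := hw 0
  have w1 := hw 1
  refine ⟨x0, 2 * w 0, by linarith, by linarith, ?_⟩
  congr 1
  funext i
  fin_cases i <;> simp <;> linarith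

/-- The case `α = 2`. -/
theorem maximizer_two_iff (μ : Measure Torus) :
    IsMaximizer 2 μ ↔ ∃ p, ∃ t : ℝ, 0 ≤ t ∧ t ≤ 1 ∧
      μ = ENNReal.ofReal t • nu p + ENNReal.ofReal (1 - t) • nu (p + (half, 0)) := by
  constructor
  · rintro ⟨hp, hm⟩
    have he : energy 2 μ = c0 2 := by
      apply le_antisymm (energy_le one_le_two le_rfl μ)
      rw [← energy_quad two_pos 0]
      exact hm _ (isProb_quad 0)
    obtain ⟨p, t, h0, h1, h⟩ := structure_two he
    refine ⟨p, t, h0, h1, ?_⟩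
    rw [mix_eq p h0 h1]; exact h
  · rintro ⟨p, t, h0, h1, rfl⟩
    rw [mix_eq p h0 h1]
    refine ⟨isProb_cm p (nonneg_mixw h0 h1) (sum_mixw t), fun ν hν => ?_⟩
    have : energy 2 (cm p ![t / 2, (1 - t) / 2, (1 - t) / 2, t / 2]) = c0 2 := by
      rw [energy_cm' two_pos p (nonneg_mixw h0 h1) (sum_mixw t)]
      have hC : (2 : ℝ) ^ (1 - 2 : ℝ) - 2 ^ (-2 / 2 : ℝ) = 0 := by
        rw [show (1 - 2 : ℝ) = -2 / 2 by norm_num, sub_self]
      rw [hC]
      simp
    rw [this]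
    exact energy_le one_le_two le_rfl ν

theorem half_B {α : ℝ} : (2 : ℝ) ^ (-α / 2) / 2 = (2 : ℝ) ^ (-(α - 2) / 2) * c0 2 := by
  rw [c0_two]
  have : (2 : ℝ) ^ (-(α - 2) / 2) = 2 * 2 ^ (-α / 2) := by
    rw [show -(α - 2) / 2 = 1 + -α / 2 by ring, Real.rpow_add (by norm_num), Real.rpow_one]
  rw [this]; ring

theorem K_le_of_two_lt {α : ℝ} (h : 2 < α) (x y : Torus) :
    rho x y ^ α ≤ (2 : ℝ) ^ (-(α - 2) / 2) * rho x y ^ (2 : ℝ) := by
  have h0 := rho_nonneg x y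
  have hr : rho x y ≤ Real.sqrt (1 / 2) := by
    unfold rho
    apply Real.sqrt_le_sqrt
    have h1 := norm_le_half (x.1 - y.1)
    have h2 := norm_le_half (x.2 - y.2)
    have h3 := norm_nonneg (x.1 - y.1)
    have h4 := norm_nonneg (x.2 - y.2)
    nlinarith
  have e : rho x y ^ α = rho x y ^ (α - 2) * rho x y ^ (2 : ℝ) := by
    rw [← Real.rpow_add' h0 (by linarith)]
    congr 1; ring
  rw [e]
  apply mul_le_mul_of_nonneg_right _ (Real.rpow_nonneg h0 _)
  calc rho x y ^ (α - 2) ≤ Real.sqrt (1 / 2) ^ (α - 2) := Real.rpow_le_rpow h0 hr (by linarith)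
    _ = (2 : ℝ) ^ (-(α - 2) / 2) := by
      rw [Real.sqrt_eq_rpow, ← Real.rpow_mul (by norm_num), one_div, Real.inv_rpow (by norm_num),
        ← Real.rpow_neg (by norm_num)]
      congr 1; ring

theorem energy_le_of_two_lt {α : ℝ} (h : 2 < α) (μ : Measure Torus) [IsProbabilityMeasure μ] :
    energy α μ ≤ (2 : ℝ) ^ (-(α - 2) / 2) * energy 2 μ := by
  rw [energy_eq (by linarith), energy_eq (by norm_num), ← integral_const_mul]
  apply integral_mono (integrable_K (by linarith) _) ((integrable_K (by norm_num) _).const_mul _)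
  intro p
  exact K_le_of_two_lt h p.1 p.2

/-- The regime `α > 2`. -/
theorem maximizer_iff_nu {α : ℝ} (h : 2 < α) (μ : Measure Torus) :
    IsMaximizer α μ ↔ ∃ p, μ = nu p := by
  have hα : 0 < α := by linarith
  have hD : (0 : ℝ) < 2 ^ (-(α - 2) / 2) := Real.rpow_pos_of_pos (by norm_num) _
  have hle : ∀ ν : Measure Torus, IsProbabilityMeasure ν → energy α ν ≤ 2 ^ (-α / 2) / 2 := by
    intro ν hν
    rw [half_B]
    exact (energy_le_of_two_lt h ν).trans
      (mul_le_mul_of_nonneg_left (energy_le one_le_two le_rfl ν) hD.le)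
  constructor
  · rintro ⟨hp, hm⟩
    have he1 : energy α μ = 2 ^ (-α / 2) / 2 := by
      apply le_antisymm (hle μ hp)
      rw [← energy_nu hα 0]
      exact hm _ (isProb_nu 0)
    have he2 : energy 2 μ = c0 2 := by
      apply le_antisymm (energy_le one_le_two le_rfl μ)
      have := energy_le_of_two_lt h μ
      rw [he1, half_B] at this
      exact le_of_mul_le_mul_left this hD
    obtain ⟨p, t, h0, h1, hμ⟩ := structure_two he2
    rw [hμ, energy_cm' hα p (nonneg_mixw h0 h1) (sum_mixw t)] at he1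
    simp only [Matrix.cons_val] at he1
    have hC := coef_neg h
    have e3 : (2 ^ (1 - α) - 2 ^ (-α / 2)) * (1 - (2 * t - 1) ^ 2) = 0 := by
      unfold c0 at he1
      have : (t / 2 + t / 2 - (1 - t) / 2 - (1 - t) / 2) = 2 * t - 1 := by ring
      rw [this] at he1
      have e4 : (t / 2 + (1 - t) / 2 - (1 - t) / 2 - t / 2) = 0 := by ring
      rw [e4] at he1
      linarith
    have e5 : 1 - (2 * t - 1) ^ 2 = 0 := (mul_eq_zero.1 e3).resolve_left hC.ne
    have e6 : t * (1 - t) = 0 := by linarith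
    rw [← mix_eq p h0 h1] at hμ
    rcases mul_eq_zero.1 e6 with ht | ht
    · refine ⟨p + (half, 0), ?_⟩
      rw [hμ, ht]; simp
    · refine ⟨p, ?_⟩
      rw [hμ, ht, (by linarith : t = 1)]; simp
  · rintro ⟨p, rfl⟩
    refine ⟨isProb_nu p, fun ν hν => ?_⟩
    rw [energy_nu hα p]
    exact hle ν hν

/-- `ν_p` maximizes exactly for `α ≥ 2`. -/
theorem nu_max_iff {α : ℝ} (hα : 0 < α) (p : Torus) : IsMaximizer α (nu p) ↔ 2 ≤ α := by
  constructor
  · intro h
    by_contra hc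
    push Not at hc
    have h1 := h.2 _ (isProb_quad 0)
    rw [energy_quad hα, energy_nu hα, c0] at h1
    have := coef_pos hc
    linarith
  · intro h
    rcases eq_or_lt_of_le h with rfl | h
    · rw [maximizer_two_iff]
      exact ⟨p, 1, by norm_num, le_rfl, by simp⟩
    · rw [maximizer_iff_nu h]
      exact ⟨p, rfl⟩

end Pool.Agent.R257.Torus
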