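import Pool.Agent.R257.Torus3

set_option autoImplicit false

open MeasureTheory Set

namespace Pool.Agent.R257.Torus

/-- The energy kernel of two parallel lines at distance `u`. -/
noncomputable def gr (α u : ℝ) : ℝ := ∫ y : UnitAddCircle, (Real.sqrt (u ^ 2 + ‖y‖ ^ 2)) ^ α

theorem isProb_vol : IsProbabilityMeasure (volume : Measure UnitAddCircle) :=
  ⟨UnitAddCircle.measure_univ⟩

theorem sqrt_rpow (α : ℝ) {x : ℝ} (hx : 0 ≤ x) : (Real.sqrt x) ^ α = x ^ (α / 2) := by
  rw [Real.sqrt_eq_rpow, ← Real.rpow_mul hx]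
  congr 1; ring

theorem cont_gr_integrand {α : ℝ} (hα : 0 ≤ α) :
    Continuous (fun p : ℝ × UnitAddCircle => (Real.sqrt (p.1 ^ 2 + ‖p.2‖ ^ 2)) ^ α) := by
  apply Continuous.rpow_const
  · fun_prop
  · intro p; right; exact hα

theorem integrable_gr {α : ℝ} (hα : 0 ≤ α) (u : ℝ) :
    Integrable (fun y : UnitAddCircle => (Real.sqrt (u ^ 2 + ‖y‖ ^ 2)) ^ α) volume := by
  have hc : Continuous (fun y : UnitAddCircle => (Real.sqrt (u ^ 2 + ‖y‖ ^ 2)) ^ α) :=
    (cont_gr_integrand hα).comp (Continuous.prodMk_right u)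
  apply Integrable.of_bound (C := (Real.sqrt (u ^ 2 + 1)) ^ α) hc.measurable.aestronglyMeasurable
  refine Filter.Eventually.of_forall fun y => ?_
  rw [Real.norm_eq_abs, abs_of_nonneg (Real.rpow_nonneg (Real.sqrt_nonneg _) _)]
  apply Real.rpow_le_rpow (Real.sqrt_nonneg _) _ hα
  apply Real.sqrt_le_sqrt
  have h1 := norm_le_half y
  have h2 := norm_nonneg y
  nlinarith

/-- Lower bound for the increment of `gr` at `1/2`. -/
theorem gr_lower {α : ℝ} (hα : 0 < α) (h1 : α < 1) {D : ℝ} (hD0 : 0 < D) (hD1 : D < 1 / 2) :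
    α * D / 4 ≤ gr α (1 / 2) - gr α (1 / 2 - D) := by
  unfold gr
  rw [← integral_sub (integrable_gr hα.le _) (integrable_gr hα.le _)]
  have := isProb_vol
  have hconst : α * D / 4 = ∫ _y : UnitAddCircle, α * D / 4 := by simp
  rw [hconst]
  apply integral_mono (integrable_const _) ((integrable_gr hα.le _).sub (integrable_gr hα.le _))
  intro y
  have h2 := norm_le_half y
  have h3 := norm_nonneg y
  change α * D / 4 ≤ √((1 / 2) ^ 2 + ‖y‖ ^ 2) ^ α - √((1 / 2 - D) ^ 2 + ‖y‖ ^ 2) ^ α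
  set a : ℝ := (1 / 2) ^ 2 + ‖y‖ ^ 2 with ha
  set b : ℝ := (1 / 2 - D) ^ 2 + ‖y‖ ^ 2 with hb
  have ha0 : 0 < a := by positivity
  have hb0 : 0 < b := by
    have : 0 < 1 / 2 - D := by linarith
    positivity
  have ha1 : a ≤ 1 := by rw [ha]; nlinarith
  have hab : a - b = D - D ^ 2 := by rw [ha, hb]; ring
  rw [sqrt_rpow α ha0.le, sqrt_rpow α hb0.le]
  have hB := rpow_one_add_le_one_add_mul_self (s := (b - a) / a)
    (by rw [le_div_iff₀ ha0]; linarith) (p := α / 2) (by linarith) (by linarith)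
  have e1 : 1 + (b - a) / a = b / a := by field_simp; ring
  rw [e1, Real.div_rpow hb0.le ha0.le, div_le_iff₀ (Real.rpow_pos_of_pos ha0 _)] at hB
  have e2 : a ≤ a ^ (α / 2) := by
    calc a = a ^ (1 : ℝ) := (Real.rpow_one a).symm
      _ ≤ a ^ (α / 2) := Real.rpow_le_rpow_of_exponent_ge ha0 ha1 (by linarith)
  have e3 : 1 ≤ a ^ (α / 2) / a := by rw [le_div_iff₀ ha0]; linarith
  have e4 : (1 + α / 2 * ((b - a) / a)) * a ^ (α / 2) =
      a ^ (α / 2) - α / 2 * (a - b) * (a ^ (α / 2) / a) := by ring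
  have e5 : D / 2 ≤ a - b := by rw [hab]; nlinarith
  have e6 : α / 2 * (a - b) * 1 ≤ α / 2 * (a - b) * (a ^ (α / 2) / a) := by
    apply mul_le_mul_of_nonneg_left e3
    have : 0 ≤ a - b := by linarith
    positivity
  have e7 : α / 2 * (D / 2) ≤ α / 2 * (a - b) := mul_le_mul_of_nonneg_left e5 (by linarith)
  linarith

theorem gr_eq_interval {α : ℝ} (hα : 0 ≤ α) (u : ℝ) :
    gr α u = 2 * ∫ y in (0 : ℝ)..(1 / 2), (Real.sqrt (u ^ 2 + y ^ 2)) ^ α := by
  unfold gr
  rw [← UnitAddCircle.intervalIntegral_preimage (-(1 / 2))]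
  have hc : Continuous (fun y : ℝ => (Real.sqrt (u ^ 2 + y ^ 2)) ^ α) := by
    apply Continuous.rpow_const
    · fun_prop
    · intro p; right; exact hα
  have e : ∫ (a : ℝ) in -(1 / 2)..-(1 / 2) + 1, √(u ^ 2 + ‖(a : UnitAddCircle)‖ ^ 2) ^ α =
      ∫ (a : ℝ) in -(1 / 2)..(1 / 2), √(u ^ 2 + a ^ 2) ^ α := by
    rw [show -(1 / 2) + 1 = (1 / 2 : ℝ) by norm_num]
    apply intervalIntegral.integral_congr
    intro a ha
    rw [uIcc_of_le (by norm_num)] at ha
    have : |a| ≤ 1 / 2 := abs_le.2 ha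
    simp only
    rw [norm_coe_of_abs_le this, sq_abs]
  rw [e, ← intervalIntegral.integral_add_adjacent_intervals (b := 0)
    (hc.intervalIntegrable _ _) (hc.intervalIntegrable _ _)]
  have e2 : ∫ (a : ℝ) in -(1 / 2)..0, √(u ^ 2 + a ^ 2) ^ α =
      ∫ (a : ℝ) in (0 : ℝ)..(1 / 2), √(u ^ 2 + a ^ 2) ^ α := by
    have := intervalIntegral.integral_comp_neg (a := 0) (b := 1 / 2)
      (fun a : ℝ => √(u ^ 2 + a ^ 2) ^ α)
    simp only [neg_sq, neg_zero] at this
    exact this.symm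
  rw [e2]; ring

/-- Upper bound for the increment of `gr` at `0`. -/
theorem gr_upper {α : ℝ} (hα : 0 < α) (h1 : α < 1) {D : ℝ} (hD0 : 0 < D) (hD1 : D < 1 / 2) :
    gr α D - gr α 0 ≤ (2 + α / (1 - α)) * D ^ (1 + α) := by
  rw [gr_eq_interval hα.le, gr_eq_interval hα.le]
  have hc : ∀ u : ℝ, Continuous (fun y : ℝ => (Real.sqrt (u ^ 2 + y ^ 2)) ^ α) := by
    intro u
    apply Continuous.rpow_const
    · fun_prop
    · intro p; right; exact hα.le
  rw [← mul_sub, ← intervalIntegral.integral_sub ((hc _).intervalIntegrable _ _)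
    ((hc _).intervalIntegrable _ _)]
  have hcd : Continuous (fun y : ℝ => (Real.sqrt (D ^ 2 + y ^ 2)) ^ α -
    (Real.sqrt (0 ^ 2 + y ^ 2)) ^ α) := (hc D).sub (hc 0)
  rw [← intervalIntegral.integral_add_adjacent_intervals (b := D)
    (hcd.intervalIntegrable _ _) (hcd.intervalIntegrable _ _)]
  have f0 : ∀ y : ℝ, 0 ≤ y → (Real.sqrt (0 ^ 2 + y ^ 2)) ^ α = y ^ α := by
    intro y hy
    rw [zero_pow two_ne_zero, zero_add, Real.sqrt_sq hy]
  have part1 : ∫ y in (0 : ℝ)..D, ((Real.sqrt (D ^ 2 + y ^ 2)) ^ α -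
      (Real.sqrt (0 ^ 2 + y ^ 2)) ^ α) ≤ D ^ (1 + α) := by
    calc ∫ y in (0 : ℝ)..D, ((Real.sqrt (D ^ 2 + y ^ 2)) ^ α -
        (Real.sqrt (0 ^ 2 + y ^ 2)) ^ α) ≤ ∫ y in (0 : ℝ)..D, D ^ α := by
          apply intervalIntegral.integral_mono_on hD0.le (hcd.intervalIntegrable _ _)
            intervalIntegrable_const
          intro y hy
          rw [f0 y hy.1, sqrt_rpow α (by positivity)]
          have := Real.rpow_add_le_add_rpow (a := D ^ 2) (b := y ^ 2) (p := α / 2) (sq_nonneg _)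
            (sq_nonneg _) (by linarith) (by linarith)
          have e1 : (D ^ 2 : ℝ) ^ (α / 2) = D ^ α := by
            rw [← sqrt_rpow α (sq_nonneg _), Real.sqrt_sq hD0.le]
          have e2 : (y ^ 2 : ℝ) ^ (α / 2) = y ^ α := by
            rw [← sqrt_rpow α (sq_nonneg _), Real.sqrt_sq hy.1]
          rw [e1, e2] at this
          linarith
      _ = D ^ (1 + α) := by
          rw [intervalIntegral.integral_const, smul_eq_mul, sub_zero, Real.rpow_add hD0,
            Real.rpow_one]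
  have part2 : ∫ y in D..(1 / 2), ((Real.sqrt (D ^ 2 + y ^ 2)) ^ α -
      (Real.sqrt (0 ^ 2 + y ^ 2)) ^ α) ≤ α / 2 / (1 - α) * D ^ (1 + α) := by
    have h0m : (0 : ℝ) ∉ uIcc D (1 / 2) := by
      rw [uIcc_of_le hD1.le]
      intro h; linarith [h.1]
    have hint : IntervalIntegrable (fun y : ℝ => α / 2 * D ^ 2 * y ^ (α - 2)) volume D (1 / 2) :=
      (intervalIntegral.intervalIntegrable_rpow (Or.inr h0m)).const_mul _
    calc ∫ y in D..(1 / 2), ((Real.sqrt (D ^ 2 + y ^ 2)) ^ α -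
        (Real.sqrt (0 ^ 2 + y ^ 2)) ^ α) ≤ ∫ y in D..(1 / 2), α / 2 * D ^ 2 * y ^ (α - 2) := by
          apply intervalIntegral.integral_mono_on hD1.le (hcd.intervalIntegrable _ _) hint
          intro y hy
          have hy0 : 0 < y := lt_of_lt_of_le hD0 hy.1
          rw [f0 y hy0.le, sqrt_rpow α (by positivity)]
          have hB := rpow_one_add_le_one_add_mul_self (s := D ^ 2 / y ^ 2)
            (by have : 0 ≤ D ^ 2 / y ^ 2 := by positivity
                linarith) (p := α / 2) (by linarith) (by linarith)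
          have e1 : 1 + D ^ 2 / y ^ 2 = (D ^ 2 + y ^ 2) / y ^ 2 := by field_simp; ring
          have e2 : (y ^ 2 : ℝ) ^ (α / 2) = y ^ α := by
            rw [← sqrt_rpow α (sq_nonneg _), Real.sqrt_sq hy0.le]
          rw [e1, Real.div_rpow (by positivity) (by positivity), e2,
            div_le_iff₀ (Real.rpow_pos_of_pos hy0 _)] at hB
          have e3 : y ^ (α - 2) = y ^ α / y ^ 2 := by
            rw [Real.rpow_sub hy0]; norm_num
          rw [e3]
          have e4 : (1 + α / 2 * (D ^ 2 / y ^ 2)) * y ^ α = y ^ α + α / 2 * D ^ 2 * (y ^ α / y ^ 2) := by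
            ring
          linarith
      _ = α / 2 * D ^ 2 * (((1 / 2) ^ (α - 2 + 1) - D ^ (α - 2 + 1)) / (α - 2 + 1)) := by
          rw [intervalIntegral.integral_const_mul, integral_rpow]
          right
          exact ⟨by linarith, h0m⟩
      _ ≤ α / 2 * D ^ 2 * (D ^ (α - 1) / (1 - α)) := by
          apply mul_le_mul_of_nonneg_left _ (by positivity)
          rw [show α - 2 + 1 = α - 1 by ring, ← neg_div_neg_eq, neg_sub, neg_sub]
          apply div_le_div_of_nonneg_right _ (by linarith)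
          have : (0 : ℝ) ≤ (1 / 2) ^ (α - 1) := by positivity
          linarith
      _ = α / 2 / (1 - α) * D ^ (1 + α) := by
          have : D ^ (1 + α) = D ^ 2 * D ^ (α - 1) := by
            rw [← Real.rpow_natCast, ← Real.rpow_add hD0]
            congr 1; push_cast; ring
          rw [this]; ring
  calc 2 * ((∫ y in (0 : ℝ)..D, ((Real.sqrt (D ^ 2 + y ^ 2)) ^ α -
      (Real.sqrt (0 ^ 2 + y ^ 2)) ^ α)) + ∫ y in D..(1 / 2), ((Real.sqrt (D ^ 2 + y ^ 2)) ^ α -
      (Real.sqrt (0 ^ 2 + y ^ 2)) ^ α))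
      ≤ 2 * (D ^ (1 + α) + α / 2 / (1 - α) * D ^ (1 + α)) :=
        mul_le_mul_of_nonneg_left (add_le_add part1 part2) zero_le_two
    _ = (2 + α / (1 - α)) * D ^ (1 + α) := by ring

theorem exists_D {α : ℝ} (hα : 0 < α) (h1 : α < 1) :
    ∃ D : ℝ, 0 < D ∧ D < 1 / 2 ∧ gr α D + gr α (1 / 2 - D) < gr α 0 + gr α (1 / 2) := by
  set C : ℝ := 2 + α / (1 - α) with hC
  have hC0 : 0 < C := by
    have : 0 ≤ α / (1 - α) := div_nonneg hα.le (by linarith)
    linarith
  have hlim : Filter.Tendsto (fun D : ℝ => C * D ^ α) (nhdsWithin 0 (Ioi 0)) (nhds (C * 0)) := by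
    apply Filter.Tendsto.const_mul
    have := (Real.continuousAt_rpow_const 0 α (Or.inr hα.le)).tendsto
    rw [Real.zero_rpow hα.ne'] at this
    exact this.mono_left nhdsWithin_le_nhds
  have ev1 : ∀ᶠ D in nhdsWithin (0 : ℝ) (Ioi 0), C * D ^ α < α / 4 := by
    apply hlim.eventually_lt_const
    simp; linarith
  have ev2 : ∀ᶠ D in nhdsWithin (0 : ℝ) (Ioi 0), D < 1 / 2 := by
    apply eventually_nhdsWithin_of_eventually_nhds
    exact eventually_lt_nhds (by norm_num)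
  obtain ⟨D, ⟨hD1, hD2⟩, hD3⟩ := ((ev1.and ev2).and self_mem_nhdsWithin).exists
  have hD0 : 0 < D := hD3
  refine ⟨D, hD0, hD2, ?_⟩
  have u1 := gr_upper hα h1 hD0 hD2
  have u2 := gr_lower hα h1 hD0 hD2
  have u3 : C * D ^ (1 + α) < α * D / 4 := by
    rw [Real.rpow_add hD0, Real.rpow_one]
    have := mul_lt_mul_of_pos_right hD1 hD0
    linarith
  rw [← hC] at u1
  linarith

end Pool.Agent.R257.Torus
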