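import Pool.Agent.R257.Torus6

set_option autoImplicit false

open MeasureTheory Set

namespace Pool.Agent.R257.Torus

/-- The kernel of parallel lines, as a function on the circle. -/
noncomputable def gc (α : ℝ) (s : UnitAddCircle) : ℝ := gr α ‖s‖

theorem continuous_gc {α : ℝ} (hα : 0 ≤ α) : Continuous (gc α) := by
  unfold gc gr
  have h1 : Continuous (Function.uncurry fun (s y : UnitAddCircle) =>
      (Real.sqrt (‖s‖ ^ 2 + ‖y‖ ^ 2)) ^ α) := by
    apply Continuous.rpow_const
    · fun_prop
    · intro p; right; exact hα
  have := continuous_parametric_integral_of_continuous (μ := (volume : Measure UnitAddCircle)) h1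
    (s := univ) isCompact_univ
  simpa using this

theorem gc_nonneg (α : ℝ) (s : UnitAddCircle) : 0 ≤ gc α s := by
  unfold gc gr
  apply integral_nonneg
  intro y
  exact Real.rpow_nonneg (Real.sqrt_nonneg _) _

theorem gc_le_one {α : ℝ} (hα : 0 ≤ α) (s : UnitAddCircle) : gc α s ≤ 1 := by
  have := isProb_vol
  unfold gc gr
  calc ∫ y : UnitAddCircle, (Real.sqrt (‖s‖ ^ 2 + ‖y‖ ^ 2)) ^ α
      ≤ ∫ _y : UnitAddCircle, (1 : ℝ) := by
        apply integral_mono (integrable_gr hα _) (integrable_const _)
        intro y
        simp only
        apply Real.rpow_le_one (Real.sqrt_nonneg _) _ hα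
        apply Real.sqrt_le_iff.2
        have e1 := norm_le_half s
        have e2 := norm_nonneg s
        have e3 := norm_le_half y
        have e4 := norm_nonneg y
        constructor
        · norm_num
        · nlinarith
    _ = 1 := by simp

theorem energy_prod {α : ℝ} (hα : 0 ≤ α) (m : Measure UnitAddCircle) [IsFiniteMeasure m] :
    energy α (m.prod volume) = ∫ s, ∫ t, gc α (s - t) ∂m ∂m := by
  have := isProb_vol
  unfold energy
  have hK : ∀ x : Torus, Integrable (fun y : Torus => rho x y ^ α) (m.prod volume) := by
    intro x
    apply Integrable.of_bound (C := 1)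
    · exact ((measurable_K α).comp measurable_prodMk_left).aestronglyMeasurable
    · refine Filter.Eventually.of_forall fun q => ?_
      rw [Real.norm_eq_abs, abs_of_nonneg (K_nonneg _ _ _)]
      exact K_le_one hα _ _
  have e1 : ∀ x : Torus, ∫ y, rho x y ^ α ∂(m.prod volume) = ∫ t, gc α (x.1 - t) ∂m := by
    intro x
    rw [integral_prod _ (hK x)]
    congr 1
    funext t
    unfold gc gr rho
    simp only
    rw [← integral_sub_left_eq_self (fun y : UnitAddCircle => (Real.sqrt (‖x.1 - t‖ ^ 2 + ‖y‖ ^ 2)) ^ α)
      volume x.2]
  simp_rw [e1]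
  have hint : Integrable (fun x : Torus => ∫ t, gc α (x.1 - t) ∂m) (m.prod volume) := by
    apply Integrable.of_bound (C := m.real univ)
    · have hm : StronglyMeasurable (fun q : UnitAddCircle × UnitAddCircle => gc α (q.1 - q.2)) := by
        apply Continuous.stronglyMeasurable
        exact (continuous_gc hα).comp (continuous_fst.sub continuous_snd)
      have h2 : StronglyMeasurable (fun s : UnitAddCircle => ∫ t, gc α (s - t) ∂m) :=
        hm.integral_prod_right'
      exact (h2.comp_measurable measurable_fst).aestronglyMeasurable
    · refine Filter.Eventually.of_forall fun q => ?_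
      have := norm_integral_le_of_norm_le_const (μ := m) (f := fun t => gc α (q.1 - t)) (C := 1)
        (Filter.Eventually.of_forall fun t => by
          rw [Real.norm_eq_abs, abs_of_nonneg (gc_nonneg _ _)]
          exact gc_le_one hα _)
      simpa using this
  rw [integral_prod _ hint]
  simp

end Pool.Agent.R257.Torus
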