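import Pool.Agent.R257.Torus7

set_option autoImplicit false

open MeasureTheory Set Metric

namespace Pool.Agent.R257.Torus

section perturb

variable (P : Fin 4 → UnitAddCircle) (c : Fin 4 → ℝ) (r : ℝ)

/-- Indicator functions of small arcs. -/
noncomputable def ii (i : Fin 4) (s : UnitAddCircle) : ℝ := (ball (P i) r).indicator (fun _ => (1 : ℝ)) s

noncomputable def psi (s : UnitAddCircle) : ℝ := ∑ i, c i * ii P r i s

theorem ii_meas (i : Fin 4) : Measurable (ii P r i) := by
  unfold ii
  exact measurable_const.indicator measurableSet_ball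

theorem ii_nonneg (i : Fin 4) (s : UnitAddCircle) : 0 ≤ ii P r i s := by
  unfold ii
  exact indicator_nonneg (fun _ _ => zero_le_one) s

theorem ii_le_one (i : Fin 4) (s : UnitAddCircle) : ii P r i s ≤ 1 := by
  unfold ii
  by_cases h : s ∈ ball (P i) r
  · rw [indicator_of_mem h]
  · rw [indicator_of_notMem h]; exact zero_le_one

theorem ii_integral (h0 : 0 ≤ r) (h1 : r ≤ 1 / 2) (i : Fin 4) : ∫ s, ii P r i s = 2 * r := by
  unfold ii
  rw [integral_indicator measurableSet_ball]
  have := volume_real_ball (P i) h0 h1
  simp [this]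

theorem psi_meas : Measurable (psi P c r) := by
  unfold psi
  apply Finset.measurable_sum
  intro i _
  exact (ii_meas P r i).const_mul _

theorem integrable_of_bdd {X : Type*} [MeasurableSpace X] {μ : Measure X} [IsFiniteMeasure μ]
    {f : X → ℝ} (hf : Measurable f) {C : ℝ} (hC : ∀ x, |f x| ≤ C) : Integrable f μ :=
  Integrable.of_bound (C := C) hf.aestronglyMeasurable (Filter.Eventually.of_forall hC)

theorem psi_integral (h0 : 0 ≤ r) (h1 : r ≤ 1 / 2) (hc : ∑ i, c i = 0) :
    ∫ s, psi P c r s = 0 := by
  have := isProb_vol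
  unfold psi
  rw [integral_finsetSum]
  · simp_rw [integral_const_mul, ii_integral P r h0 h1]
    rw [← Finset.sum_mul, hc, zero_mul]
  · intro i _
    apply Integrable.const_mul
    exact integrable_of_bdd (ii_meas P r i) (C := 1) (fun x => by
      rw [abs_of_nonneg (ii_nonneg _ _ _ _)]; exact ii_le_one _ _ _ _)

theorem psi_abs (hc : ∀ i, |c i| ≤ 1) (s : UnitAddCircle) : |psi P c r s| ≤ 4 := by
  unfold psi
  calc |∑ i, c i * ii P r i s| ≤ ∑ i, |c i * ii P r i s| := Finset.abs_sum_le_sum_abs _ _
    _ ≤ ∑ _i : Fin 4, (1 : ℝ) := by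
        apply Finset.sum_le_sum
        intro i _
        rw [abs_mul, abs_of_nonneg (ii_nonneg P r i s)]
        calc |c i| * ii P r i s ≤ 1 * 1 :=
              mul_le_mul (hc i) (ii_le_one P r i s) (ii_nonneg P r i s) zero_le_one
          _ = 1 := by norm_num
    _ = 4 := by simp

/-- The quadratic form on the perturbation is positive. -/
theorem quad_form_pos {α : ℝ} (hα : 0 ≤ α) (hc : ∀ i, |c i| ≤ 1)
    (hP : 0 < ∑ i, ∑ j, c i * c j * gc α (P i - P j)) :
    ∃ r : ℝ, 0 < r ∧ r ≤ 1 / 2 ∧ 0 < ∫ q : UnitAddCircle × UnitAddCircle,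
      psi P c r q.1 * psi P c r q.2 * gc α (q.1 - q.2) ∂(volume.prod volume) := by
  have := isProb_vol
  set P0 := ∑ i, ∑ j, c i * c j * gc α (P i - P j) with hP0
  set η := P0 / 32 with hη
  have hη0 : 0 < η := by positivity
  have huc : UniformContinuous (gc α) :=
    CompactSpace.uniformContinuous_of_continuous (continuous_gc hα)
  rw [Metric.uniformContinuous_iff] at huc
  obtain ⟨δ, hδ, hδ'⟩ := huc η hη0
  set r := min (δ / 2) (1 / 2) with hr
  have hr0 : 0 < r := lt_min (by linarith) (by norm_num)
  have hr1 : r ≤ 1 / 2 := min_le_right _ _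
  have hr2 : 2 * r ≤ δ := by
    have := min_le_left (δ / 2) (1 / 2)
    linarith
  refine ⟨r, hr0, hr1, ?_⟩
  have hbd : ∀ i (s : UnitAddCircle), |ii P r i s| ≤ 1 := by
    intro i s
    rw [abs_of_nonneg (ii_nonneg _ _ _ _)]; exact ii_le_one _ _ _ _
  have hI : ∀ i j, Integrable (fun q : UnitAddCircle × UnitAddCircle =>
      ii P r i q.1 * ii P r j q.2) (volume.prod volume) := by
    intro i j
    apply integrable_of_bdd (C := 1)
    · exact ((ii_meas P r i).comp measurable_fst).mul ((ii_meas P r j).comp measurable_snd)
    · intro q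
      rw [abs_mul]
      calc |ii P r i q.1| * |ii P r j q.2| ≤ 1 * 1 :=
            mul_le_mul (hbd _ _) (hbd _ _) (abs_nonneg _) zero_le_one
        _ = 1 := by norm_num
  have hlow : ∫ q : UnitAddCircle × UnitAddCircle, (∑ i, ∑ j, (c i * c j * gc α (P i - P j) - η) *
      (ii P r i q.1 * ii P r j q.2)) ∂(volume.prod volume) = (P0 - 16 * η) * (2 * r) ^ 2 := by
    rw [integral_finsetSum]
    · have e1 : ∀ i, ∫ q : UnitAddCircle × UnitAddCircle, (∑ j, (c i * c j * gc α (P i - P j) - η) *
          (ii P r i q.1 * ii P r j q.2)) ∂(volume.prod volume) =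
          ∑ j, (c i * c j * gc α (P i - P j) - η) * (2 * r) ^ 2 := by
        intro i
        rw [integral_finsetSum]
        · apply Finset.sum_congr rfl
          intro j _
          rw [integral_const_mul, integral_prod_mul (fun s => ii P r i s) (fun s => ii P r j s),
            ii_integral P r hr0.le hr1, ii_integral P r hr0.le hr1]
          ring
        · intro j _
          exact (hI i j).const_mul _
      simp_rw [e1]
      rw [hP0]
      simp only [Fin.sum_univ_four]
      ring
    · intro i _
      apply integrable_finsetSum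
      intro j _
      exact (hI i j).const_mul _
  have hpos : 0 < (P0 - 16 * η) * (2 * r) ^ 2 := by
    have : 0 < P0 - 16 * η := by rw [hη]; linarith
    positivity
  refine lt_of_lt_of_le hpos ?_
  rw [← hlow]
  apply integral_mono
  · apply integrable_finsetSum
    intro i _
    apply integrable_finsetSum
    intro j _
    exact (hI i j).const_mul _
  · apply integrable_of_bdd (C := 4 * 4 * 1)
    · apply Measurable.mul
      · exact ((psi_meas P c r).comp measurable_fst).mul ((psi_meas P c r).comp measurable_snd)
      · exact ((continuous_gc hα).comp (continuous_fst.sub continuous_snd)).measurable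
    · intro q
      rw [abs_mul, abs_mul]
      have h1 := psi_abs P c r hc q.1
      have h2 := psi_abs P c r hc q.2
      have h3 : |gc α (q.1 - q.2)| ≤ 1 := by
        rw [abs_of_nonneg (gc_nonneg _ _)]; exact gc_le_one hα _
      exact mul_le_mul (mul_le_mul h1 h2 (abs_nonneg _) (by norm_num)) h3 (abs_nonneg _)
        (by norm_num)
  · intro q
    simp only
    have e : psi P c r q.1 * psi P c r q.2 * gc α (q.1 - q.2) =
        ∑ i, ∑ j, (c i * c j * gc α (q.1 - q.2)) * (ii P r i q.1 * ii P r j q.2) := by
      unfold psi
      simp only [Fin.sum_univ_four]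
      ring
    rw [e]
    apply Finset.sum_le_sum
    intro i _
    apply Finset.sum_le_sum
    intro j _
    by_cases h : q.1 ∈ ball (P i) r ∧ q.2 ∈ ball (P j) r
    · apply mul_le_mul_of_nonneg_right _ (mul_nonneg (ii_nonneg _ _ _ _) (ii_nonneg _ _ _ _))
      have hd : dist (P i - P j) (q.1 - q.2) < δ := by
        calc dist (P i - P j) (q.1 - q.2) ≤ dist (P i) q.1 + dist (P j) q.2 := dist_sub_sub_le _ _ _ _
          _ < r + r := by
              apply add_lt_add
              · rw [dist_comm]; exact h.1
              · rw [dist_comm]; exact h.2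
          _ ≤ δ := by linarith
      have hd2 := hδ' hd
      rw [Real.dist_eq] at hd2
      have h3 : |c i * c j| ≤ 1 := by
        rw [abs_mul]
        calc |c i| * |c j| ≤ 1 * 1 := mul_le_mul (hc i) (hc j) (abs_nonneg _) zero_le_one
          _ = 1 := by norm_num
      have h4 : |c i * c j * (gc α (P i - P j) - gc α (q.1 - q.2))| ≤ 1 * η := by
        rw [abs_mul]
        exact mul_le_mul h3 hd2.le (abs_nonneg _) zero_le_one
      have h5 := (abs_le.1 h4).2
      linarith
    · have hz : ii P r i q.1 * ii P r j q.2 = 0 := by
        rw [not_and_or] at h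
        rcases h with h | h
        · unfold ii; rw [indicator_of_notMem h, zero_mul]
        · unfold ii; rw [indicator_of_notMem h, mul_zero]
      rw [hz, mul_zero, mul_zero]

/-- If the quadratic form of line distances takes a positive value on a neutral combination of four
lines, then the uniform measure is not a maximizer. -/
theorem sigma_not_max_of {α : ℝ} (hα : 0 ≤ α) (hc : ∀ i, |c i| ≤ 1) (hs : ∑ i, c i = 0)
    (hP : 0 < ∑ i, ∑ j, c i * c j * gc α (P i - P j)) : ¬ IsMaximizer α sigma := by
  have := isProb_vol
  rintro ⟨-, hm⟩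
  obtain ⟨r, hr0, hr1, hq⟩ := quad_form_pos P c hα hc hP
  set ψ := psi P c r with hψ
  have hψm : Measurable ψ := psi_meas P c r
  have hψb : ∀ s, |ψ s| ≤ 4 := psi_abs P c r hc
  have hψi : Integrable ψ volume := integrable_of_bdd hψm hψb
  set f : UnitAddCircle → ℝ := fun s => 1 + 1 / 4 * ψ s with hf
  have hf0 : ∀ s, 0 ≤ f s := by
    intro s
    have := (abs_le.1 (hψb s)).1
    simp only [hf]; linarith
  have hfm : Measurable f := measurable_const.add (hψm.const_mul _)
  set m : Measure UnitAddCircle := volume.withDensity (fun s => ENNReal.ofReal (f s)) with hm'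
  have hmint : ∀ g : UnitAddCircle → ℝ, ∫ s, g s ∂m = ∫ s, f s * g s := by
    intro g
    rw [hm', integral_withDensity_eq_integral_toReal_smul (hfm.ennreal_ofReal)
      (Filter.Eventually.of_forall fun _ => ENNReal.ofReal_lt_top)]
    congr 1
    funext s
    rw [ENNReal.toReal_ofReal (hf0 s), smul_eq_mul]
  have hfi : Integrable f volume := (integrable_const _).add (hψi.const_mul _)
  have hmprob : IsProbabilityMeasure m := by
    constructor
    rw [hm', withDensity_apply _ MeasurableSet.univ, Measure.restrict_univ,
      ← ofReal_integral_eq_lintegral_ofReal hfi (Filter.Eventually.of_forall hf0)]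
    have : ∫ s, f s = 1 := by
      simp only [hf]
      rw [integral_add (integrable_const _) (hψi.const_mul _), integral_const_mul,
        psi_integral P c r hr0.le hr1 hs]
      simp
    rw [this]; simp
  have hle := hm (m.prod volume) inferInstance
  rw [energy_prod hα m] at hle
  have hsig : energy α sigma = ∫ s : UnitAddCircle, ∫ t : UnitAddCircle, gc α (s - t) := by
    unfold sigma
    rw [Measure.volume_eq_prod, energy_prod hα]
  rw [hsig] at hle
  have hgi : ∀ s : UnitAddCircle, Integrable (fun t : UnitAddCircle => gc α (s - t)) volume := by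
    intro s
    apply integrable_of_bdd (C := 1)
    · exact ((continuous_gc hα).comp (continuous_const.sub continuous_id)).measurable
    · intro t
      rw [abs_of_nonneg (gc_nonneg _ _)]; exact gc_le_one hα _
  set gbar : ℝ := ∫ t : UnitAddCircle, gc α t with hgbar
  have hg1 : ∀ s : UnitAddCircle, ∫ t : UnitAddCircle, gc α (s - t) = gbar := by
    intro s
    exact integral_sub_left_eq_self (fun t => gc α t) volume s
  have hg2 : ∀ t : UnitAddCircle, ∫ s : UnitAddCircle, gc α (s - t) = gbar := by
    intro t
    exact integral_sub_right_eq_self (fun t => gc α t) t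
  simp_rw [hg1, hmint] at hle
  have hmul : ∀ s : UnitAddCircle, Integrable (fun t : UnitAddCircle => ψ t * gc α (s - t)) volume := by
    intro s
    apply integrable_of_bdd (C := 4 * 1)
    · exact hψm.mul ((continuous_gc hα).comp (continuous_const.sub continuous_id)).measurable
    · intro t
      rw [abs_mul]
      have h3 : |gc α (s - t)| ≤ 1 := by
        rw [abs_of_nonneg (gc_nonneg _ _)]; exact gc_le_one hα _
      exact mul_le_mul (hψb t) h3 (abs_nonneg _) (by norm_num)
  have hinner : ∀ s : UnitAddCircle, ∫ t : UnitAddCircle, f t * gc α (s - t) =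
      gbar + 1 / 4 * ∫ t : UnitAddCircle, ψ t * gc α (s - t) := by
    intro s
    have : ∀ t : UnitAddCircle, f t * gc α (s - t) = gc α (s - t) + 1 / 4 * (ψ t * gc α (s - t)) := by
      intro t; simp only [hf]; ring
    simp_rw [this]
    rw [integral_add (hgi s) ((hmul s).const_mul _), integral_const_mul, hg1]
  simp_rw [hinner] at hle
  have h2int : Integrable (fun q : UnitAddCircle × UnitAddCircle => ψ q.1 * ψ q.2 * gc α (q.1 - q.2))
      (volume.prod volume) := by
    apply integrable_of_bdd (C := 4 * 4 * 1)
    · apply Measurable.mul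
      · exact (hψm.comp measurable_fst).mul (hψm.comp measurable_snd)
      · exact ((continuous_gc hα).comp (continuous_fst.sub continuous_snd)).measurable
    · intro q
      rw [abs_mul, abs_mul]
      have h3 : |gc α (q.1 - q.2)| ≤ 1 := by
        rw [abs_of_nonneg (gc_nonneg _ _)]; exact gc_le_one hα _
      exact mul_le_mul (mul_le_mul (hψb _) (hψb _) (abs_nonneg _) (by norm_num)) h3 (abs_nonneg _)
        (by norm_num)
  have h1int : Integrable (fun q : UnitAddCircle × UnitAddCircle => ψ q.2 * gc α (q.1 - q.2))
      (volume.prod volume) := by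
    apply integrable_of_bdd (C := 4 * 1)
    · exact (hψm.comp measurable_snd).mul
        ((continuous_gc hα).comp (continuous_fst.sub continuous_snd)).measurable
    · intro q
      rw [abs_mul]
      have h3 : |gc α (q.1 - q.2)| ≤ 1 := by
        rw [abs_of_nonneg (gc_nonneg _ _)]; exact gc_le_one hα _
      exact mul_le_mul (hψb _) h3 (abs_nonneg _) (by norm_num)
  rw [integral_prod _ h2int] at hq
  set Φ : UnitAddCircle → ℝ := fun s => ∫ t : UnitAddCircle, ψ t * gc α (s - t) with hΦ
  have hΦi : Integrable Φ volume := h1int.integral_prod_left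
  have hΨi : Integrable (fun s => ψ s * Φ s) volume := by
    have := h2int.integral_prod_left
    refine this.congr (Filter.Eventually.of_forall fun s => ?_)
    simp only [hΦ]
    rw [← integral_const_mul]
    congr 1
    funext t
    ring
  have hΦ0 : ∫ s, Φ s = 0 := by
    have e := integral_integral_swap (f := fun s t : UnitAddCircle => ψ t * gc α (s - t)) h1int
    simp only [hΦ]
    rw [e]
    simp_rw [integral_const_mul, hg2]
    rw [integral_mul_const, psi_integral P c r hr0.le hr1 hs, zero_mul]
  have hΨ0 : 0 < ∫ s, ψ s * Φ s := by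
    refine lt_of_lt_of_eq hq ?_
    congr 1
    funext s
    simp only [hΦ]
    rw [← integral_const_mul]
    congr 1
    funext t
    ring
  have hfin : ∫ s, f s * (gbar + 1 / 4 * Φ s) = gbar + 1 / 16 * ∫ s, ψ s * Φ s := by
    have : ∀ s, f s * (gbar + 1 / 4 * Φ s) = gbar + (1 / 4 * gbar) * ψ s + 1 / 4 * Φ s +
        1 / 16 * (ψ s * Φ s) := by
      intro s; simp only [hf]; ring
    simp_rw [this]
    rw [integral_add, integral_add, integral_add, integral_const_mul, integral_const_mul,
      integral_const_mul, hΦ0, psi_integral P c r hr0.le hr1 hs]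
    · simp
    · exact integrable_const _
    · exact hψi.const_mul _
    · exact (integrable_const _).add (hψi.const_mul _)
    · exact hΦi.const_mul _
    · exact ((integrable_const _).add (hψi.const_mul _)).add (hΦi.const_mul _)
    · exact hΨi.const_mul _
  rw [hfin] at hle
  simp at hle
  linarith

end perturb

/-- The uniform measure is not a maximizer for `0 < α < 1`. -/
theorem sigma_not_max_lt_one {α : ℝ} (hα : 0 < α) (h1 : α < 1) : ¬ IsMaximizer α sigma := by
  obtain ⟨D, hD0, hD1, hD⟩ := exists_D hα h1
  set d : UnitAddCircle := (D : UnitAddCircle) with hd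
  apply sigma_not_max_of ![0, half, d, d + half] ![1, 1, -1, -1] hα.le
  · intro i
    fin_cases i <;> simp
  · simp [Fin.sum_univ_four]
  · have n0 : ‖d‖ = D := by
      rw [hd, norm_coe_of_abs_le]
      · exact abs_of_pos hD0
      · rw [abs_of_pos hD0]; exact hD1.le
    have n1 : ‖d + half‖ = 1 / 2 - D := by
      have : d + half = -(((1 / 2 - D : ℝ) : UnitAddCircle)) := by
        rw [AddCircle.coe_sub, ← hd, neg_sub, sub_eq_add_neg]
        congr 1
        exact neg_half.symm
      rw [this, norm_neg, norm_coe_of_abs_le]
      · exact abs_of_pos (by linarith)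
      · rw [abs_of_pos (by linarith)]; linarith
    have g0 : gc α 0 = gr α 0 := by unfold gc; rw [norm_zero]
    have gh : gc α half = gr α (1 / 2) := by unfold gc; rw [norm_half]
    have gd : gc α d = gr α D := by unfold gc; rw [n0]
    have gdh : gc α (d + half) = gr α (1 / 2 - D) := by unfold gc; rw [n1]
    have gneg : ∀ s, gc α (-s) = gc α s := fun s => by unfold gc; rw [norm_neg]
    have a1 : gc α (0 - half) = gr α (1 / 2) := by rw [zero_sub, gneg, gh]
    have a2 : gc α (0 - d) = gr α D := by rw [zero_sub, gneg, gd]
    have a3 : gc α (0 - (d + half)) = gr α (1 / 2 - D) := by rw [zero_sub, gneg, gdh]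
    have a4 : gc α (half - d) = gr α (1 / 2 - D) := by
      rw [show half - d = -(d + half) by rw [neg_add, neg_half]; abel, gneg, gdh]
    have a5 : gc α (half - (d + half)) = gr α D := by
      rw [show half - (d + half) = -d by abel, gneg, gd]
    have a6 : gc α (d - half) = gr α (1 / 2 - D) := by
      rw [sub_eq_add_neg, neg_half, gdh]
    have a7 : gc α (d - (d + half)) = gr α (1 / 2) := by
      rw [show d - (d + half) = -half by abel, gneg, gh]
    have a8 : gc α (d + half - half) = gr α D := by rw [add_sub_cancel_right, gd]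
    have a9 : gc α (d + half - d) = gr α (1 / 2) := by rw [add_sub_cancel_left, gh]
    simp only [Fin.sum_univ_four, Matrix.cons_val, sub_self, sub_zero, a1, a2, a3, a4, a5, a6, a7,
      a8, a9, g0, gh, gd, gdh]
    linarith

end Pool.Agent.R257.Torus
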