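import Pool.Agent.R257.Torus3

set_option autoImplicit false

open MeasureTheory Set

namespace Pool.Agent.R257.Torus

theorem rho_isLeast (a b c d : ℝ) :
    IsLeast {r : ℝ | ∃ k l : ℤ, r = Real.sqrt ((a - c + k) ^ 2 + (b - d + l) ^ 2)}
      (rho ((a : UnitAddCircle), (b : UnitAddCircle)) ((c : UnitAddCircle), (d : UnitAddCircle))) := by
  have e : rho ((a : UnitAddCircle), (b : UnitAddCircle)) ((c : UnitAddCircle), (d : UnitAddCircle))
      = Real.sqrt (|a - c - round (a - c)| ^ 2 + |b - d - round (b - d)| ^ 2) := by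
    unfold rho
    simp only
    rw [← AddCircle.coe_sub, ← AddCircle.coe_sub, UnitAddCircle.norm_eq, UnitAddCircle.norm_eq]
  rw [e]
  constructor
  · refine ⟨-round (a - c), -round (b - d), ?_⟩
    rw [sq_abs, sq_abs]
    push_cast
    rfl
  · rintro r ⟨k, l, rfl⟩
    apply Real.sqrt_le_sqrt
    have h1 := round_le (a - c) (-k)
    have h2 := round_le (b - d) (-l)
    have h3 := pow_le_pow_left₀ (abs_nonneg _) h1 2
    have h4 := pow_le_pow_left₀ (abs_nonneg _) h2 2
    rw [sq_abs (a - c - ((-k : ℤ) : ℝ))] at h3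
    rw [sq_abs (b - d - ((-l : ℤ) : ℝ))] at h4
    push_cast at h3 h4
    rw [sub_neg_eq_add] at h3 h4
    linarith

theorem rho_shift_le (x y : Torus) (h : ℝ) :
    rho (x + ((h : UnitAddCircle), 0)) y ≤ rho x y + |h| := by
  unfold rho
  set u := ‖x.1 - y.1‖ with hu
  set v := ‖x.2 - y.2‖ with hv
  have hu0 : 0 ≤ u := norm_nonneg _
  have h1 : ‖(x + ((h : UnitAddCircle), 0)).1 - y.1‖ ≤ u + |h| := by
    have : (x + ((h : UnitAddCircle), (0 : UnitAddCircle))).1 - y.1 = (x.1 - y.1) + (h : UnitAddCircle) := by
      simp only [Prod.fst_add]; abel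
    rw [this]
    exact (norm_add_le _ _).trans (by linarith [norm_le_abs h])
  have h2 : (x + ((h : UnitAddCircle), (0 : UnitAddCircle))).2 - y.2 = x.2 - y.2 := by
    simp only [Prod.snd_add, add_zero]
  rw [h2]
  have h3 : u ≤ Real.sqrt (u ^ 2 + v ^ 2) := by
    apply Real.le_sqrt_of_sq_le; nlinarith [sq_nonneg v]
  have h4 : Real.sqrt (u ^ 2 + v ^ 2) ^ 2 = u ^ 2 + v ^ 2 := Real.sq_sqrt (by positivity)
  apply Real.sqrt_le_iff.2
  constructor
  · positivity
  · have h5 := pow_le_pow_left₀ (norm_nonneg _) h1 2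
    have h6 := mul_le_mul_of_nonneg_left h3 (abs_nonneg h)
    nlinarith

theorem rho_shift (x y : Torus) (h : ℝ) :
    |rho (x + ((h : UnitAddCircle), 0)) y - rho x y| ≤ |h| := by
  rw [abs_le]
  constructor
  · have := rho_shift_le (x + ((h : UnitAddCircle), 0)) y (-h)
    have e : x + ((h : UnitAddCircle), (0 : UnitAddCircle)) + (((-h : ℝ) : UnitAddCircle), 0) = x := by
      ext <;> simp
    rw [e, abs_neg] at this
    linarith
  · have := rho_shift_le x y h
    linarith

theorem rpow_sub_le {α : ℝ} (hα : 0 ≤ α) (h1 : α ≤ 1) {a b h : ℝ} (ha : 0 ≤ a) (hb : 0 ≤ b)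
    (hab : |a - b| ≤ h) : |a ^ α - b ^ α| ≤ h ^ α := by
  have key : ∀ x y : ℝ, 0 ≤ x → 0 ≤ y → |x - y| ≤ h → x ^ α - y ^ α ≤ h ^ α := by
    intro x y hx hy hxy
    have hh : 0 ≤ h := le_trans (abs_nonneg _) hxy
    have h2 : x ≤ y + h := by linarith [(abs_le.1 hxy).2]
    have h3 := Real.rpow_le_rpow hx h2 hα
    have h4 := Real.rpow_add_le_add_rpow hy hh hα h1
    linarith
  rw [abs_le]
  constructor
  · have := key b a hb ha (by rw [abs_sub_comm]; exact hab)
    linarith
  · exact key a b ha hb hab

/-- A maximizer for `0 < α < 1` has no atoms. -/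
theorem no_atoms {α : ℝ} (hα : 0 < α) (h1 : α < 1) {μ : Measure Torus} (hm : IsMaximizer α μ)
    (p : Torus) : μ {p} = 0 := by
  obtain ⟨hprob, hmax⟩ := hm
  by_contra hne
  set m : ℝ := μ.real {p} with hm0
  have hmpos : 0 < m := by
    rw [hm0, Measure.real]
    exact ENNReal.toReal_pos hne (measure_ne_top _ _)
  set lam : Measure Torus := μ.restrict {p}ᶜ with hlam
  have hK0 : ∀ x : Torus, rho x x ^ α = 0 := by
    intro x
    have : rho x x = 0 := by unfold rho; simp
    rw [this, Real.zero_rpow hα.ne']
  have hsymm : ∀ x y : Torus, rho x y ^ α = rho y x ^ α := fun x y => by rw [rho_comm]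
  have hKi : ∀ (ν : Measure Torus) [IsFiniteMeasure ν] (x : Torus),
      Integrable (fun y : Torus => rho x y ^ α) ν := by
    intro ν _ x
    apply Integrable.of_bound (C := 1)
    · exact ((measurable_K α).comp measurable_prodMk_left).aestronglyMeasurable
    · refine Filter.Eventually.of_forall fun q => ?_
      rw [Real.norm_eq_abs, abs_of_nonneg (K_nonneg _ _ _)]
      exact K_le_one hα.le _ _
  set U : Torus → ℝ := fun x => ∫ y, rho x y ^ α ∂lam with hU
  have hUi : Integrable U lam := by
    exact (integrable_K hα.le (lam.prod lam)).integral_prod_left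
  set nn : ℝ → ℝ → Torus → Measure Torus := fun a b x =>
    lam + ENNReal.ofReal a • Measure.dirac p + ENNReal.ofReal b • Measure.dirac x with hnn
  have hint : ∀ a b x, 0 ≤ a → 0 ≤ b → ∀ f : Torus → ℝ, Integrable f lam →
      ∫ z, f z ∂(nn a b x) = ∫ z, f z ∂lam + a * f p + b * f x := by
    intro a b x ha hb f hf
    have i1 : Integrable f (ENNReal.ofReal a • Measure.dirac p) :=
      (integrable_dirac (by simp)).smul_measure ENNReal.ofReal_ne_top
    have i2 : Integrable f (ENNReal.ofReal b • Measure.dirac x) :=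
      (integrable_dirac (by simp)).smul_measure ENNReal.ofReal_ne_top
    simp only [hnn]
    rw [integral_add_measure (hf.add_measure i1) i2, integral_add_measure hf i1,
      integral_smul_measure, integral_smul_measure, integral_dirac, integral_dirac,
      ENNReal.toReal_ofReal ha, ENNReal.toReal_ofReal hb, smul_eq_mul, smul_eq_mul]
  have henergy : ∀ a b x, 0 ≤ a → 0 ≤ b → energy α (nn a b x) =
      ∫ z, U z ∂lam + 2 * a * U p + 2 * b * U x + 2 * a * b * rho p x ^ α := by
    intro a b x ha hb
    unfold energy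
    have e1 : ∀ z, ∫ y, rho z y ^ α ∂(nn a b x) = U z + a * rho z p ^ α + b * rho z x ^ α := by
      intro z
      rw [hint a b x ha hb _ (hKi lam z)]
    simp_rw [e1]
    have i3 : Integrable (fun z => rho z p ^ α) lam := by
      simp_rw [hsymm _ p]; exact hKi lam p
    have i4 : Integrable (fun z => rho z x ^ α) lam := by
      simp_rw [hsymm _ x]; exact hKi lam x
    have i5 : Integrable (fun z => U z + a * rho z p ^ α) lam := hUi.add (i3.const_mul a)
    have i6 : Integrable (fun z => U z + a * rho z p ^ α + b * rho z x ^ α) lam :=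
      i5.add (i4.const_mul b)
    rw [hint a b x ha hb (fun z => U z + a * rho z p ^ α + b * rho z x ^ α) i6,
      integral_add i5 (i4.const_mul _), integral_add hUi (i3.const_mul _),
      integral_const_mul, integral_const_mul]
    have e2 : ∫ z, rho z p ^ α ∂lam = U p := by
      simp_rw [hsymm _ p]; rfl
    have e3 : ∫ z, rho z x ^ α ∂lam = U x := by
      simp_rw [hsymm _ x]; rfl
    rw [e2, e3, hK0, hK0, hsymm x p]
    ring
  have hμ : μ = nn m 0 p := by
    simp only [hnn]
    rw [ENNReal.ofReal_zero, zero_smul, add_zero, hm0, Measure.real,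
      ENNReal.ofReal_toReal (measure_ne_top _ _), ← Measure.restrict_singleton, hlam, add_comm]
    exact (Measure.restrict_add_restrict_compl (measurableSet_singleton p)).symm
  have hmass : ∀ x, IsProbabilityMeasure (nn (m / 2) (m / 2) x) := by
    intro x
    constructor
    have h2 : nn m 0 p univ = 1 := by rw [← hμ]; exact measure_univ
    simp only [hnn] at h2 ⊢
    simp only [Measure.add_apply, Measure.smul_apply, Measure.dirac_apply' _ MeasurableSet.univ,
      smul_eq_mul, indicator_univ, Pi.one_apply, mul_one, ENNReal.ofReal_zero, add_zero] at h2 ⊢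
    rw [add_assoc, ← ENNReal.ofReal_add (by positivity) (by positivity), add_halves, h2]
  have hineq : ∀ x, m / 2 * rho p x ^ α ≤ U p - U x := by
    intro x
    have h3 := hmax _ (hmass x)
    have h4 : energy α μ = ∫ z, U z ∂lam + 2 * m * U p + 2 * 0 * U p + 2 * m * 0 * rho p p ^ α := by
      conv_lhs => rw [hμ]
      exact henergy m 0 p hmpos.le le_rfl
    rw [h4, henergy _ _ x (by positivity) (by positivity)] at h3
    have h5 : m * (m / 2 * rho p x ^ α) ≤ m * (U p - U x) := by linarith
    exact le_of_mul_le_mul_left h5 hmpos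
  -- the sequence
  set h : ℕ → ℝ := fun n => 1 / ((n : ℝ) + 2) with hh
  have hhpos : ∀ n, 0 < h n := fun n => by simp only [hh]; positivity
  have hhle : ∀ n, h n ≤ 1 / 2 := by
    intro n
    simp only [hh]
    apply one_div_le_one_div_of_le (by norm_num)
    have : (0 : ℝ) ≤ n := Nat.cast_nonneg n
    linarith
  have hhlim : Filter.Tendsto h Filter.atTop (nhds 0) := by
    have := tendsto_one_div_add_atTop_nhds_zero_nat (𝕜 := ℝ)
    have h2 := this.comp (Filter.tendsto_add_atTop_nat 1)
    refine h2.congr fun n => ?_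
    simp only [hh, Function.comp]
    push_cast
    congr 1; ring
  set X : ℕ → Torus := fun n => p + (((h n : ℝ) : UnitAddCircle), 0) with hX
  have hrX : ∀ n, rho p (X n) = h n := by
    intro n
    unfold rho
    have e1 : p.1 - (X n).1 = -((h n : ℝ) : UnitAddCircle) := by
      simp only [hX, Prod.fst_add]; abel
    have e2 : p.2 - (X n).2 = 0 := by simp only [hX, Prod.snd_add, add_zero, sub_self]
    rw [e1, e2, norm_neg, norm_zero, norm_coe_of_abs_le]
    · rw [abs_of_pos (hhpos n), zero_pow two_ne_zero, add_zero, Real.sqrt_sq (hhpos n).le]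
    · rw [abs_of_pos (hhpos n)]; exact hhle n
  set F : ℕ → Torus → ℝ := fun n y => (rho p y ^ α - rho (X n) y ^ α) / h n ^ α with hF
  have hFint : ∀ n, ∫ y, F n y ∂lam = (U p - U (X n)) / h n ^ α := by
    intro n
    simp only [hF, hU]
    rw [integral_div, integral_sub (hKi lam p) (hKi lam (X n))]
  have hshift : ∀ n y, |rho p y - rho (X n) y| ≤ h n := by
    intro n y
    rw [abs_sub_comm]
    have := rho_shift p y (h n)
    rwa [abs_of_pos (hhpos n)] at this
  have hlim : Filter.Tendsto (fun n => ∫ y, F n y ∂lam) Filter.atTop (nhds (∫ _y, (0 : ℝ) ∂lam)) := by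
    apply tendsto_integral_of_dominated_convergence (fun _ => (1 : ℝ))
    · intro n
      exact (((hKi lam p).sub (hKi lam (X n))).div_const _).aestronglyMeasurable
    · exact integrable_const _
    · intro n
      refine Filter.Eventually.of_forall fun y => ?_
      simp only [hF]
      rw [Real.norm_eq_abs, abs_div, abs_of_pos (Real.rpow_pos_of_pos (hhpos n) α),
        div_le_one (Real.rpow_pos_of_pos (hhpos n) α)]
      exact rpow_sub_le hα.le h1.le (rho_nonneg _ _) (rho_nonneg _ _) (hshift n y)
    · have hae : ∀ᵐ y ∂lam, y ∈ ({p}ᶜ : Set Torus) :=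
        ae_restrict_mem (measurableSet_singleton p).compl
      filter_upwards [hae] with y hy
      have hyp : 0 < rho p y := by
        unfold rho
        apply Real.sqrt_pos.2
        by_contra hc
        have h3 : ‖p.1 - y.1‖ = 0 := by nlinarith [norm_nonneg (p.1 - y.1), norm_nonneg (p.2 - y.2)]
        have h4 : ‖p.2 - y.2‖ = 0 := by nlinarith [norm_nonneg (p.1 - y.1), norm_nonneg (p.2 - y.2)]
        apply hy
        rw [mem_singleton_iff]
        exact (Prod.ext (sub_eq_zero.1 (norm_eq_zero.1 h3)) (sub_eq_zero.1 (norm_eq_zero.1 h4))).symm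
      set a := rho p y with ha
      have hb : Filter.Tendsto (fun n => rho (X n) y) Filter.atTop (nhds a) := by
        rw [tendsto_iff_dist_tendsto_zero]
        apply squeeze_zero (fun n => dist_nonneg) (g := h) _ hhlim
        intro n
        rw [Real.dist_eq, abs_sub_comm]
        exact hshift n y
      have hO := (Real.hasDerivAt_rpow_const (x := a) (p := α) (Or.inl hyp.ne')).isBigO_sub
      obtain ⟨C, hC⟩ := hO.bound
      have hC2 := hb.eventually hC
      have hC3 : ∀ᶠ n in Filter.atTop, ‖F n y‖ ≤ |C| * h n ^ (1 - α) := by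
        filter_upwards [hC2] with n hn
        simp only [hF]
        rw [Real.norm_eq_abs, abs_div, abs_of_pos (Real.rpow_pos_of_pos (hhpos n) α),
          div_le_iff₀ (Real.rpow_pos_of_pos (hhpos n) α), mul_assoc, ← Real.rpow_add (hhpos n)]
        simp only [sub_add_cancel, Real.rpow_one]
        rw [Real.norm_eq_abs, Real.norm_eq_abs] at hn
        rw [abs_sub_comm]
        calc |rho (X n) y ^ α - a ^ α| ≤ C * |rho (X n) y - a| := hn
          _ ≤ |C| * |rho (X n) y - a| := mul_le_mul_of_nonneg_right (le_abs_self C) (abs_nonneg _)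
          _ ≤ |C| * h n := by
              apply mul_le_mul_of_nonneg_left _ (abs_nonneg C)
              rw [abs_sub_comm]; exact hshift n y
      apply squeeze_zero_norm' hC3
      have : Filter.Tendsto (fun n => h n ^ (1 - α)) Filter.atTop (nhds (0 ^ (1 - α))) :=
        hhlim.rpow_const (Or.inr (by linarith))
      rw [Real.zero_rpow (by linarith)] at this
      simpa using this.const_mul |C|
  simp only [integral_zero] at hlim
  have hge : ∀ n, m / 2 ≤ ∫ y, F n y ∂lam := by
    intro n
    rw [hFint, le_div_iff₀ (Real.rpow_pos_of_pos (hhpos n) α)]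
    have := hineq (X n)
    rwa [hrX] at this
  have := ge_of_tendsto' hlim hge
  linarith

end Pool.Agent.R257.Torus
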