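import Mathlib

/-!
# Distance energies on the flat torus: definitions
-/

set_option autoImplicit false

open MeasureTheory

namespace Pool.Agent.R257.Torus

/-- The flat torus `ℝ² / ℤ²`, as the product of two circles `ℝ / ℤ`. -/
abbrev Torus : Type := UnitAddCircle × UnitAddCircle

/-- The quotient distance of the flat torus. The norm of `UnitAddCircle` is the distance to the
nearest integer. -/
noncomputable def rho (x y : Torus) : ℝ := Real.sqrt (‖x.1 - y.1‖ ^ 2 + ‖x.2 - y.2‖ ^ 2)

/-- The distance energy `I_α (μ) = ∫∫ ρ (x, y) ^ α dμ (x) dμ (y)`. -/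
noncomputable def energy (α : ℝ) (μ : Measure Torus) : ℝ := ∫ x, ∫ y, rho x y ^ α ∂μ ∂μ

/-- `μ` is a probability measure with the largest possible energy. -/
def IsMaximizer (α : ℝ) (μ : Measure Torus) : Prop :=
  IsProbabilityMeasure μ ∧ ∀ ν : Measure Torus, IsProbabilityMeasure ν → energy α ν ≤ energy α μ

/-- The uniform (normalized Lebesgue) measure. -/
noncomputable def sigma : Measure Torus := volume

/-- The point `1 / 2` of the circle. -/
noncomputable def half : UnitAddCircle := ((1 / 2 : ℝ) : UnitAddCircle)

/-- `ν_p`, half of the point mass at `p` and half of the point mass at `p + (1/2, 1/2)`. -/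
noncomputable def nu (p : Torus) : Measure Torus :=
  (1 / 2 : ENNReal) • Measure.dirac p + (1 / 2 : ENNReal) • Measure.dirac (p + (half, half))

/-- The uniform measure on the four points of the coset `p + {0, 1/2}²`. -/
noncomputable def quad (p : Torus) : Measure Torus :=
  (1 / 4 : ENNReal) • Measure.dirac p + (1 / 4 : ENNReal) • Measure.dirac (p + (half, 0)) +
    (1 / 4 : ENNReal) • Measure.dirac (p + (0, half)) +
    (1 / 4 : ENNReal) • Measure.dirac (p + (half, half))

end Pool.Agent.R257.Torus
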